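import Pool.Agent.H719.EK.Four

/-!
Edge modification and kernels: part A1
-/

set_option autoImplicit false

namespace Pool.Agent.EK

/- Statement A1. Plain proof: take C := the set of vertices outside range s which are adjacent to all of s.
(1) Every vertex v outside range s is adjacent to all or to none of the s i. If not, consider the set
of i with v ~ s i (a nonempty proper subset of Fin 5; all 30 subsets, up to rotation and reflection:
 - only s0, or only s0 s1: edges v s0 and s2 s3 contradict TKfree (v, s0 not adjacent to s2, s3);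
   more precisely if v ~ s0, v not ~ s2, s3 then TKfree v s0 s2 s3 is violated;
 - s0 s2 but not s1: 4-cycle v s0 s1 s2 (v not ~ s1, s0 not ~ s2) contradicts C4free.
 So: (a) v ~ s i and v ~ s (i+2) imply v ~ s (i+1); (b) v ~ s i implies v ~ s (i+2) or v ~ s (i+3).
 From (a),(b) for all i: v ~ s i for one i implies v ~ all s j (finite check over Fin 5).
(2) clique: two distinct nonadjacent c, c' in C give the induced 4-cycle c, s 0, c', s 2.
(3) indep: an edge u v of vertices with no neighbours in s together with the edge s 0 s 1 violates TKfree.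
-/
theorem ps_of_C5 {V : Type} (G : SimpleGraph V) (h4 : C4free G) (h2 : TKfree G)
    (s : Fin 5 → V) (hs : IsC5 G s) : ∃ C : Set V, IsPS G (Set.range s) C := by
  classical
  obtain ⟨hinj, hadj⟩ := hs
  have key : ∀ f : Fin 5 → Bool, (∀ i, f i = true → f (i + 2) = true → f (i + 1) = true) →
      (∀ i, f i = true → f (i + 2) = true ∨ f (i + 3) = true) →
      ∀ i, f i = true → ∀ j, f j = true := by decide
  have f1 : ∀ i : Fin 5, ¬ (i + 2 = i + 1 ∨ i = i + 2 + 1) := by decide
  have f2 : ∀ i : Fin 5, ¬ (i + 3 = i + 1 ∨ i = i + 3 + 1) := by decide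
  have f3 : ∀ i : Fin 5, i ≠ i + 2 := by decide
  have f4 : ∀ i : Fin 5, i ≠ i + 3 := by decide
  have f5 : ∀ i : Fin 5, i + 2 = i + 1 + 1 := by decide
  have f6 : ∀ i : Fin 5, i + 3 = i + 2 + 1 := by decide
  have hall : ∀ v, v ∉ Set.range s → ∀ i, G.Adj v (s i) → ∀ j, G.Adj v (s j) := by
    intro v hv i hi j
    have hne : ∀ k, v ≠ s k := fun k h => hv ⟨k, h.symm⟩
    have h := key (fun k => decide (G.Adj v (s k))) (by
      intro k h1 h3
      simp only [decide_eq_true_eq] at h1 h3 ⊢
      rcases h4 v (s k) (s (k + 1)) (s (k + 2)) (hne _) (fun h => f3 k (hinj h)) h1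
        ((hadj _ _).mpr (Or.inl rfl)) ((hadj _ _).mpr (Or.inl (f5 k))) h3.symm with h | h
      · exact h
      · exact absurd ((hadj _ _).mp h) (f1 k)) (by
      intro k h1
      simp only [decide_eq_true_eq] at h1 ⊢
      rcases h2 v (s k) (s (k + 2)) (s (k + 3)) (hne _) (hne _) (fun h => f3 k (hinj h))
        (fun h => f4 k (hinj h)) h1 ((hadj _ _).mpr (Or.inl (f6 k))) with h | h | h | h
      · exact Or.inl h
      · exact Or.inr h
      · exact absurd ((hadj _ _).mp h) (f1 k)
      · exact absurd ((hadj _ _).mp h) (f2 k)) i (by simpa using hi) j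
    simpa using h
  refine ⟨{v | v ∉ Set.range s ∧ ∀ j, G.Adj v (s j)}, ?_, ?_, ?_, ?_, ?_⟩
  · intro v hv
    exact hv.1
  · intro u hu v hv huv
    rcases h4 u (s 0) v (s 2) huv (fun h => by have := hinj h; revert this; decide) (hu.2 0)
      (hv.2 0).symm (hv.2 2) (hu.2 2).symm with h | h
    · exact h
    · exact absurd ((hadj _ _).mp h) (by decide)
  · intro u huC huS v hvC hvS huv
    have hu0 : ∀ j, ¬ G.Adj u (s j) := fun j h => huC ⟨huS, hall u huS j h⟩
    have hv0 : ∀ j, ¬ G.Adj v (s j) := fun j h => hvC ⟨hvS, hall v hvS j h⟩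
    rcases h2 u v (s 0) (s 1) (fun h => huS ⟨_, h.symm⟩) (fun h => huS ⟨_, h.symm⟩)
      (fun h => hvS ⟨_, h.symm⟩) (fun h => hvS ⟨_, h.symm⟩) huv
      ((hadj _ _).mpr (Or.inl (by decide))) with h | h | h | h
    · exact hu0 _ h
    · exact hu0 _ h
    · exact hv0 _ h
    · exact hv0 _ h
  · rintro u hu _ ⟨j, rfl⟩
    exact hu.2 j
  · rintro u huC huS _ ⟨j, rfl⟩ h
    exact huC ⟨huS, hall u huS j h⟩

end Pool.Agent.EK
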