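import Pool.Agent.H719.EK.Four

/-!
Edge modification and kernels: part A2
-/

set_option autoImplicit false

namespace Pool.Agent.EK

theorem c5_of {V : Type} (G : SimpleGraph V) (x y w a b : V) (hxy : G.Adj x y) (hyw : G.Adj y w)
    (hwa : G.Adj w a) (hab : G.Adj a b) (hbx : G.Adj b x) (hxw : ¬ G.Adj x w)
    (hxa : ¬ G.Adj x a) (hya : ¬ G.Adj y a) (hyb : ¬ G.Adj y b) (hwb : ¬ G.Adj w b)
    (n1 : x ≠ w) (n2 : x ≠ a) (n3 : y ≠ a) (n4 : y ≠ b) (n5 : w ≠ b) :
    IsC5 G ![x, y, w, a, b] := by
  have e1 := hxy.ne
  have e2 := hyw.ne
  have e3 := hwa.ne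
  have e4 := hab.ne
  have e5 := hbx.ne
  constructor
  · intro i j h
    fin_cases i <;> fin_cases j <;> simp_all
  · intro i j
    have s1 := hxy.symm
    have s2 := hyw.symm
    have s3 := hwa.symm
    have s4 := hab.symm
    have s5 := hbx.symm
    have t1 : ¬ G.Adj w x := fun h => hxw h.symm
    have t2 : ¬ G.Adj a x := fun h => hxa h.symm
    have t3 : ¬ G.Adj a y := fun h => hya h.symm
    have t4 : ¬ G.Adj b y := fun h => hyb h.symm
    have t5 : ¬ G.Adj b w := fun h => hwb h.symm
    fin_cases i <;> fin_cases j <;>
      simp [s1, s2, s3, s4, s5, t1, t2, t3, t4, t5, hxy, hyw, hwa, hab, hbx, hxw, hxa, hya, hyb,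
        hwb]

/- Statement A2 (a graph without induced C4, 2K2, C5 is a split graph). -/
theorem split_of_noC5 {V : Type} [Finite V] (G : SimpleGraph V) (h4 : C4free G) (h2 : TKfree G)
    (h5 : ∀ s : Fin 5 → V, ¬ IsC5 G s) : ∃ C : Set V, IsPS G ∅ C := by
  classical
  have := Fintype.ofFinite V
  let K : Finset (Finset V) :=
    Finset.univ.filter (fun C => ∀ u ∈ C, ∀ v ∈ C, u ≠ v → G.Adj u v)
  let E : Finset V → Finset (V × V) := fun C =>
    Finset.univ.filter (fun p => p.1 ∉ C ∧ p.2 ∉ C ∧ G.Adj p.1 p.2)
  have hK0 : K.Nonempty := ⟨∅, by simp [K]⟩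
  obtain ⟨C0, hC0, hmax⟩ := K.exists_max_image Finset.card hK0
  obtain ⟨C, hC, hmin⟩ := (K.filter (fun C => C.card = C0.card)).exists_min_image
    (fun C => (E C).card) ⟨C0, by simp [hC0]⟩
  rw [Finset.mem_filter] at hC
  have hcl : ∀ u ∈ C, ∀ v ∈ C, u ≠ v → G.Adj u v := (Finset.mem_filter.1 hC.1).2
  have hmx : ∀ D : Finset V, (∀ u ∈ D, ∀ v ∈ D, u ≠ v → G.Adj u v) → D.card ≤ C.card := by
    intro D hD
    rw [hC.2]
    exact hmax D (by simp only [K, Finset.mem_filter, Finset.mem_univ, true_and]; exact hD)
  have hmn : ∀ D : Finset V, (∀ u ∈ D, ∀ v ∈ D, u ≠ v → G.Adj u v) → D.card = C.card →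
      (E C).card ≤ (E D).card := by
    intro D hD hc
    refine hmin D ?_
    rw [Finset.mem_filter]
    refine ⟨?_, by rw [hc, hC.2]⟩
    simp only [K, Finset.mem_filter, Finset.mem_univ, true_and]
    exact hD
  have key : ∀ x y, x ∉ C → y ∉ C → G.Adj x y → (∀ a ∈ C, ¬ G.Adj x a → ¬ G.Adj y a) →
      False := by
    intro x y hx hy hxy hsub
    -- a non-neighbour of x
    have h1 : ∃ a ∈ C, ¬ G.Adj x a := by
      by_contra hno
      push Not at hno
      have := hmx (insert x C) (by
        intro u hu v hv huv
        rw [Finset.mem_insert] at hu hv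
        rcases hu with rfl | hu <;> rcases hv with rfl | hv
        · exact absurd rfl huv
        · exact hno v hv
        · exact (hno u hu).symm
        · exact hcl u hu v hv huv)
      rw [Finset.card_insert_of_notMem hx] at this
      omega
    obtain ⟨a, ha, hxa⟩ := h1
    have hya := hsub a ha hxa
    have neC : ∀ {u v : V}, u ∉ C → v ∈ C → u ≠ v := fun hu hv h => hu (h ▸ hv)
    have huniq : ∀ b ∈ C, ¬ G.Adj x b → b = a := by
      intro b hb hxb
      by_contra hne
      have hyb := hsub b hb hxb
      rcases h2 x y a b (neC hx ha) (neC hx hb) (neC hy ha) (neC hy hb) hxy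
        (hcl a ha b hb (Ne.symm hne)) with h | h | h | h
      · exact hxa h
      · exact hxb h
      · exact hya h
      · exact hyb h
    have h3 : ∃ b ∈ C, b ≠ a ∧ ¬ G.Adj y b := by
      by_contra hno
      push Not at hno
      have hxe : x ∉ insert y (C.erase a) := by
        rw [Finset.mem_insert, Finset.mem_erase]
        rintro (h | h)
        · exact hxy.ne h
        · exact hx h.2
      have hye : y ∉ C.erase a := fun h => hy (Finset.mem_of_mem_erase h)
      have hadx : ∀ v ∈ C.erase a, G.Adj x v := by
        intro v hv
        by_contra h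
        exact (Finset.mem_erase.1 hv).1 (huniq v (Finset.mem_of_mem_erase hv) h)
      have hady : ∀ v ∈ C.erase a, G.Adj y v := by
        intro v hv
        exact hno v (Finset.mem_of_mem_erase hv) (Finset.mem_erase.1 hv).1
      have := hmx (insert x (insert y (C.erase a))) (by
        intro u hu v hv huv
        rw [Finset.mem_insert, Finset.mem_insert] at hu hv
        rcases hu with rfl | rfl | hu <;> rcases hv with rfl | rfl | hv
        · exact absurd rfl huv
        · exact hxy
        · exact hadx v hv
        · exact hxy.symm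
        · exact absurd rfl huv
        · exact hady v hv
        · exact (hadx u hu).symm
        · exact (hady u hu).symm
        · exact hcl u (Finset.mem_of_mem_erase hu) v (Finset.mem_of_mem_erase hv) huv)
      rw [Finset.card_insert_of_notMem hxe, Finset.card_insert_of_notMem hye,
        Finset.card_erase_of_mem ha] at this
      have := Finset.card_pos.2 ⟨a, ha⟩
      omega
    obtain ⟨b, hb, hba, hyb⟩ := h3
    have hxb : G.Adj x b := by
      by_contra h
      exact hba (huniq b hb h)
    -- the new clique
    have h6 : ∃ w, w ∉ C ∧ w ≠ x ∧ G.Adj w a ∧ ¬ G.Adj w x := by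
      by_contra hno
      push Not at hno
      have hxe : x ∉ C.erase a := fun h => hx (Finset.mem_of_mem_erase h)
      have hle := hmn (insert x (C.erase a)) (by
        intro u hu v hv huv
        rw [Finset.mem_insert] at hu hv
        have hadx : ∀ v ∈ C.erase a, G.Adj x v := by
          intro v hv
          by_contra h
          exact (Finset.mem_erase.1 hv).1 (huniq v (Finset.mem_of_mem_erase hv) h)
        rcases hu with rfl | hu <;> rcases hv with rfl | hv
        · exact absurd rfl huv
        · exact hadx v hv
        · exact (hadx u hu).symm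
        · exact hcl u (Finset.mem_of_mem_erase hu) v (Finset.mem_of_mem_erase hv) huv) (by
        rw [Finset.card_insert_of_notMem hxe, Finset.card_erase_of_mem ha]
        have := Finset.card_pos.2 ⟨a, ha⟩
        omega)
      set D := insert x (C.erase a) with hD
      have hmemD : ∀ v, v ∉ D ↔ v ≠ x ∧ (v = a ∨ v ∉ C) := by
        intro v
        rw [hD, Finset.mem_insert, Finset.mem_erase]
        tauto
      have hlt : (E D).card < (E C).card := by
        let g : V → V := fun v => if v = a then x else v
        have hinj : Set.InjOn (fun p : V × V => (g p.1, g p.2)) (E D : Set (V × V)) := by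
          rintro ⟨p1, p2⟩ hp ⟨q1, q2⟩ hq h
          simp only [E, Finset.coe_filter, Finset.mem_univ, true_and, Set.mem_ofPred_eq, hmemD]
            at hp hq
          simp only [Prod.mk.injEq, g] at h
          obtain ⟨e1, e2⟩ := h
          have f1 : p1 = q1 := by
            split_ifs at e1 with c1 c2 c2
            · rw [c1, c2]
            · exact absurd e1.symm hq.1.1
            · exact absurd e1 hp.1.1
            · exact e1
          have f2 : p2 = q2 := by
            split_ifs at e2 with c1 c2 c2
            · rw [c1, c2]
            · exact absurd e2.symm hq.2.1.1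
            · exact absurd e2 hp.2.1.1
            · exact e2
          rw [f1, f2]
        rw [← Finset.card_image_of_injOn hinj]
        refine Finset.card_lt_card ?_
        rw [Finset.ssubset_iff_of_subset]
        · refine ⟨(x, y), ?_, ?_⟩
          · simp only [E, Finset.mem_filter, Finset.mem_univ, true_and]
            exact ⟨hx, hy, hxy⟩
          · rw [Finset.mem_image]
            rintro ⟨⟨p1, p2⟩, hp, h⟩
            simp only [E, Finset.mem_filter, Finset.mem_univ, true_and, hmemD] at hp
            simp only [Prod.mk.injEq, g] at h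
            obtain ⟨e1, e2⟩ := h
            have f1 : p1 = a := by
              by_contra hc
              rw [if_neg hc] at e1
              exact hp.1.1 e1
            have f2 : p2 = y := by
              by_cases hc : p2 = a
              · exfalso
                rw [if_pos hc] at e2
                exact hxy.ne e2
              · rwa [if_neg hc] at e2
            rw [f1, f2] at hp
            exact hya hp.2.2.symm
        · intro q hq
          rw [Finset.mem_image] at hq
          obtain ⟨⟨p1, p2⟩, hp, rfl⟩ := hq
          simp only [E, Finset.mem_filter, Finset.mem_univ, true_and, hmemD] at hp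
          obtain ⟨⟨a1, a2⟩, ⟨b1, b2⟩, h⟩ := hp
          simp only [E, Finset.mem_filter, Finset.mem_univ, true_and, g]
          by_cases c1 : p1 = a
          · have c2 : p2 ≠ a := fun h' => h.ne (c1.trans h'.symm)
            have c3 : p2 ∉ C := b2.resolve_left c2
            rw [if_pos c1, if_neg c2]
            refine ⟨hx, c3, ?_⟩
            have := hno p2 c3 b1 (by rw [c1] at h; exact h.symm)
            exact this.symm
          · have c4 : p1 ∉ C := a2.resolve_left c1
            by_cases c2 : p2 = a
            · rw [if_neg c1, if_pos c2]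
              refine ⟨c4, hx, ?_⟩
              exact hno p1 c4 a1 (by rw [c2] at h; exact h)
            · rw [if_neg c1, if_neg c2]
              exact ⟨c4, b2.resolve_left c2, h⟩
      omega
    obtain ⟨w, hw, hwx, hwa, hwx'⟩ := h6
    have hwy : w ≠ y := by
      rintro rfl
      exact hya hwa
    have hxw' : ¬ G.Adj x w := fun h => hwx' h.symm
    by_cases c1 : G.Adj w y
    · by_cases c2 : G.Adj w b
      · rcases h4 x y w b (Ne.symm hwx) (neC hy hb) hxy c1.symm c2 hxb.symm with h | h
        · exact hxw' h
        · exact hyb h
      · exact h5 _ (c5_of G x y w a b hxy c1.symm hwa (hcl a ha b hb (Ne.symm hba)) hxb.symm hxw'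
          hxa hya hyb c2 (Ne.symm hwx) (neC hx ha) (neC hy ha) (neC hy hb) (neC hw hb))
    · rcases h2 x y w a (Ne.symm hwx) (neC hx ha) (Ne.symm hwy) (neC hy ha) hxy hwa with
        h | h | h | h
      · exact hxw' h
      · exact hxa h
      · exact c1 h.symm
      · exact hya h
  by_cases hind : ∀ u, u ∉ C → ∀ v, v ∉ C → ¬ G.Adj u v
  · refine ⟨(C : Set V), ?_⟩
    exact
      { disj := fun v _ h => h
        clique := fun u hu v hv huv => hcl u (by simpa using hu) v (by simpa using hv) huv
        indep := fun u hu _ v hv _ => hind u (by simpa using hu) v (by simpa using hv)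
        full := fun u _ v hv => absurd hv (Set.notMem_empty v)
        empty := fun u _ _ v hv => absurd hv (Set.notMem_empty v) }
  · exfalso
    push Not at hind
    obtain ⟨x, hx, y, hy, hxy⟩ := hind
    by_cases hs : ∀ a ∈ C, ¬ G.Adj x a → ¬ G.Adj y a
    · exact key x y hx hy hxy hs
    · push Not at hs
      obtain ⟨a, ha, hxa, hya⟩ := hs
      refine key y x hy hx hxy.symm ?_
      intro b hb hyb hxb
      have hab : a ≠ b := by
        rintro rfl
        exact hyb hya
      have hxa' : x ≠ a := fun h => hx (h ▸ ha)
      have hyb' : y ≠ b := fun h => hy (h ▸ hb)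
      rcases h4 x y a b hxa' hyb' hxy hya (hcl a ha b hb hab) hxb.symm with h | h
      · exact hxa h
      · exact hyb h

end Pool.Agent.EK
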