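import Pool.Agent.H719.EK.Four

/-!
Edge modification and kernels: part B
-/

set_option autoImplicit false

namespace Pool.Agent.EK

/- Statement B. Plain proof. Call the vertices of C clique vertices, those outside C and S independent.
An independent vertex is adjacent only to clique vertices; a clique vertex is adjacent to everything except possibly
independent vertices.
C4free: let a b c d be a 4-cycle with a ≠ c, b ≠ d and suppose a not~ c and b not~ d. If a is a clique vertex then c
is independent, so b and d (neighbours of c) are clique vertices and b ~ d, contradiction. By symmetry none of the four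
is a clique vertex; then none is independent (it has neighbours in the cycle). So all are in S; impossible if S = ∅; if S is
the range of an induced five-cycle s, this is a finite check (all i j k l : Fin 5).
TKfree: edges a b, c d without edges between. If a is independent then b is a clique vertex, so c and d are independent
(b is not adjacent to them), contradiction to c ~ d. By symmetry nobody is independent. If a is a clique vertex, c would be
independent. So all four are in S: finite check again.
-/
namespace FreeAux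

theorem cyc4 : ∀ i j k l : Fin 5, i ≠ k → j ≠ l → (j = i + 1 ∨ i = j + 1) → (k = j + 1 ∨ j = k + 1) →
    (l = k + 1 ∨ k = l + 1) → (i = l + 1 ∨ l = i + 1) → (k = i + 1 ∨ i = k + 1) ∨ (l = j + 1 ∨ j = l + 1) := by
  decide

theorem cyc2 : ∀ i j k l : Fin 5, i ≠ k → i ≠ l → j ≠ k → j ≠ l → (j = i + 1 ∨ i = j + 1) → (l = k + 1 ∨ k = l + 1) →
    (k = i + 1 ∨ i = k + 1) ∨ (l = i + 1 ∨ i = l + 1) ∨ (k = j + 1 ∨ j = k + 1) ∨ (l = j + 1 ∨ j = l + 1) := by
  decide

variable {V : Type} {G : SimpleGraph V} {S C : Set V}

theorem nbr (h : IsPS G S C) {a b : V} (ha : a ∉ C) (ha' : a ∉ S) (hab : G.Adj a b) : b ∈ C := by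
  by_contra hb
  by_cases hbS : b ∈ S
  · exact h.empty a ha ha' b hbS hab
  · exact h.indep a ha ha' b hb hbS hab

theorem non (h : IsPS G S C) {a c : V} (ha : a ∈ C) (hac : a ≠ c) (hn : ¬ G.Adj a c) : c ∉ C ∧ c ∉ S :=
  ⟨fun hc => hn (h.clique a ha c hc hac), fun hc => hn (h.full a ha c hc)⟩

/-- a clique vertex has no non-neighbour in the cycle -/
theorem c4_clique (h : IsPS G S C) {a b c d : V} (ha : a ∈ C) (hac : a ≠ c) (hbd : b ≠ d) (hbc : G.Adj b c)
    (hcd : G.Adj c d) (h1 : ¬ G.Adj a c) (h2 : ¬ G.Adj b d) : False := by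
  obtain ⟨hc, hc'⟩ := non h ha hac h1
  have hb := nbr h hc hc' hbc.symm
  have hd := nbr h hc hc' hcd
  exact h2 (h.clique b hb d hd hbd)

theorem tk_indep (h : IsPS G S C) {a b c d : V} (ha : a ∉ C) (ha' : a ∉ S) (hbc : b ≠ c) (hbd : b ≠ d)
    (hab : G.Adj a b) (hcd : G.Adj c d) (h3 : ¬ G.Adj b c) (h4 : ¬ G.Adj b d) : False := by
  have hb := nbr h ha ha' hab
  obtain ⟨hc, hc'⟩ := non h hb hbc h3
  obtain ⟨hd, hd'⟩ := non h hb hbd h4
  exact h.indep c hc hc' d hd hd' hcd

end FreeAux

open FreeAux in
theorem free_of_ps {V : Type} (G : SimpleGraph V) (S C : Set V)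
    (hS : S = ∅ ∨ ∃ s : Fin 5 → V, IsC5 G s ∧ S = Set.range s) (h : IsPS G S C) :
    C4free G ∧ TKfree G := by
  constructor
  · intro a b c d hac hbd hab hbc hcd hda
    by_contra hno
    rw [not_or] at hno
    obtain ⟨h1, h2⟩ := hno
    have ca : a ∉ C := fun hx => c4_clique h hx hac hbd hbc hcd h1 h2
    have cb : b ∉ C := fun hx => c4_clique h hx hbd hac.symm hcd hda h2 (fun hh => h1 hh.symm)
    have cc : c ∉ C := fun hx => c4_clique h hx hac.symm hbd.symm hda hab (fun hh => h1 hh.symm) (fun hh => h2 hh.symm)
    have cd : d ∉ C := fun hx => c4_clique h hx hbd.symm hac hab hbc (fun hh => h2 hh.symm) h1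
    have sa : a ∈ S := by
      by_contra hx
      exact cb (nbr h ca hx hab)
    have sb : b ∈ S := by
      by_contra hx
      exact cc (nbr h cb hx hbc)
    have sc : c ∈ S := by
      by_contra hx
      exact cd (nbr h cc hx hcd)
    have sd : d ∈ S := by
      by_contra hx
      exact ca (nbr h cd hx hda)
    rcases hS with rfl | ⟨s, ⟨hinj, hs⟩, rfl⟩
    · exact sa
    · obtain ⟨i, rfl⟩ := sa
      obtain ⟨j, rfl⟩ := sb
      obtain ⟨k, rfl⟩ := sc
      obtain ⟨l, rfl⟩ := sd
      rw [hs] at hab hbc hcd hda h1 h2
      rcases cyc4 i j k l (fun e => hac (by rw [e])) (fun e => hbd (by rw [e])) hab hbc hcd hda with h5 | h5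
      · exact h1 h5
      · exact h2 h5
  · intro a b c d hac had hbc hbd hab hcd
    by_contra hno
    rw [not_or, not_or, not_or] at hno
    obtain ⟨h1, h2, h3, h4⟩ := hno
    have h1' : ¬ G.Adj c a := fun hh => h1 hh.symm
    have h2' : ¬ G.Adj d a := fun hh => h2 hh.symm
    have h3' : ¬ G.Adj c b := fun hh => h3 hh.symm
    have h4' : ¬ G.Adj d b := fun hh => h4 hh.symm
    have ia : a ∈ C ∨ a ∈ S := by
      by_contra hx
      rw [not_or] at hx
      exact tk_indep h hx.1 hx.2 hbc hbd hab hcd h3 h4
    have ib : b ∈ C ∨ b ∈ S := by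
      by_contra hx
      rw [not_or] at hx
      exact tk_indep h hx.1 hx.2 hac had hab.symm hcd h1 h2
    have ic : c ∈ C ∨ c ∈ S := by
      by_contra hx
      rw [not_or] at hx
      exact tk_indep h hx.1 hx.2 had.symm hbd.symm hcd hab h2' h4'
    have id : d ∈ C ∨ d ∈ S := by
      by_contra hx
      rw [not_or] at hx
      exact tk_indep h hx.1 hx.2 hac.symm hbc.symm hcd.symm hab h1' h3'
    have sa : a ∈ S := by
      rcases ia with hx | hx
      · obtain ⟨e1, e2⟩ := non h hx hac h1
        rcases ic with e | e
        · exact absurd e e1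
        · exact absurd e e2
      · exact hx
    have sb : b ∈ S := by
      rcases ib with hx | hx
      · obtain ⟨e1, e2⟩ := non h hx hbc h3
        rcases ic with e | e
        · exact absurd e e1
        · exact absurd e e2
      · exact hx
    have sc : c ∈ S := by
      rcases ic with hx | hx
      · obtain ⟨e1, e2⟩ := non h hx hac.symm h1'
        rcases ia with e | e
        · exact absurd e e1
        · exact absurd e e2
      · exact hx
    have sd : d ∈ S := by
      rcases id with hx | hx
      · obtain ⟨e1, e2⟩ := non h hx had.symm h2'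
        rcases ia with e | e
        · exact absurd e e1
        · exact absurd e e2
      · exact hx
    rcases hS with rfl | ⟨s, ⟨hinj, hs⟩, rfl⟩
    · exact sa
    · obtain ⟨i, rfl⟩ := sa
      obtain ⟨j, rfl⟩ := sb
      obtain ⟨k, rfl⟩ := sc
      obtain ⟨l, rfl⟩ := sd
      rw [hs] at hab hcd h1 h2 h3 h4
      rcases cyc2 i j k l (fun e => hac (by rw [e])) (fun e => had (by rw [e])) (fun e => hbc (by rw [e]))
        (fun e => hbd (by rw [e])) hab hcd with h5 | h5 | h5 | h5
      · exact h1 h5
      · exact h2 h5
      · exact h3 h5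
      · exact h4 h5

end Pool.Agent.EK
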