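import Mathlib

/-!
Edge modification and kernels: part C
-/

set_option autoImplicit false

namespace Pool.Agent.EK

/- Statement C. Plain proof. Write rk v := #{u ∈ U : key v < key u}, C0 := {v ∈ U : b + rk v < sc v}.
(1) v ∈ C0, u ∈ U, key v < key u ⟹ u ∈ C0 (sc u ≥ sc v and rk u ≤ rk v).
(2) v ∈ C0 ⟹ sc v ≥ b + |C0|: let w ∈ C0 have the smallest key in C0; C0 \ {w} ⊆ {u ∈ U : key w < key u} (key is
    injective on U), so rk w ≥ |C0| - 1, so sc w > b + |C0| - 1, and sc v ≥ sc w.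
(3) v ∈ U \ C0 ⟹ sc v ≤ b + |C0|: let w have the largest key in U \ C0; then {u ∈ U : key w < key u} ⊆ C0,
    rk w ≤ |C0|, sc w ≤ b + rk w ≤ b + |C0| and sc v ≤ sc w.
(4) for C ⊆ U, with c = |C|, c0 = |C0|: the difference of the sums is
    Σ_{v ∈ C \ C0} 2 (b - sc v) - Σ_{v ∈ C0 \ C} 2 (b - sc v) ≥ -2 c0 |C \ C0| + 2 c0 |C0 \ C| = -2 c0 (c - c0)
    (|C \ C0| - |C0 \ C| = c - c0), and c² - c - c0² + c0 - 2 c0 (c - c0) = (c - c0)² - (c - c0) ≥ 0.
-/
theorem opt_le (U : Finset ℕ) (sc key : ℕ → ℕ) (b : ℕ)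
    (hinj : ∀ u ∈ U, ∀ v ∈ U, key u = key v → u = v)
    (hmono : ∀ u v, key v < key u → sc v ≤ sc u)
    (C0 : Finset ℕ) (hC0 : C0 = U.filter (fun v => b + (U.filter (fun u => key v < key u)).card < sc v))
    (C : Finset ℕ) (hC : C ⊆ U) :
    (C0.card : ℤ) ^ 2 - C0.card + 2 * ∑ v ∈ C0, ((b : ℤ) - sc v) ≤
      (C.card : ℤ) ^ 2 - C.card + 2 * ∑ v ∈ C, ((b : ℤ) - sc v) := by
  have hC0U : C0 ⊆ U := by rw [hC0]; exact Finset.filter_subset _ _
  have hmem : ∀ v, v ∈ C0 ↔ v ∈ U ∧ b + (U.filter (fun u => key v < key u)).card < sc v := by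
    intro v; rw [hC0]; exact Finset.mem_filter
  -- (2)
  have h2 : ∀ v ∈ C0, b + C0.card ≤ sc v := by
    intro v hv
    obtain ⟨w, hw, hmin⟩ := Finset.exists_min_image C0 key ⟨v, hv⟩
    have hsub : C0.erase w ⊆ U.filter (fun u => key w < key u) := by
      intro u hu
      obtain ⟨hne, hu0⟩ := Finset.mem_erase.mp hu
      refine Finset.mem_filter.mpr ⟨hC0U hu0, lt_of_le_of_ne (hmin u hu0) fun h => ?_⟩
      exact hne (hinj u (hC0U hu0) w (hC0U hw) h.symm)
    have hc := Finset.card_le_card hsub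
    rw [Finset.card_erase_of_mem hw] at hc
    have hw2 := ((hmem w).mp hw).2
    have hwv : sc w ≤ sc v := by
      by_cases h : w = v
      · rw [h]
      · exact hmono v w (lt_of_le_of_ne (hmin v hv) fun h' => h (hinj w (hC0U hw) v (hC0U hv) h'))
    have hpos : 0 < C0.card := Finset.card_pos.mpr ⟨v, hv⟩
    omega
  -- (3)
  have h3 : ∀ v ∈ U, v ∉ C0 → sc v ≤ b + C0.card := by
    intro v hv hv0
    obtain ⟨w, hw, hmax⟩ := Finset.exists_max_image (U \ C0) key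
      ⟨v, Finset.mem_sdiff.mpr ⟨hv, hv0⟩⟩
    obtain ⟨hwU, hw0⟩ := Finset.mem_sdiff.mp hw
    have hsub : U.filter (fun u => key w < key u) ⊆ C0 := by
      intro u hu
      obtain ⟨huU, hlt⟩ := Finset.mem_filter.mp hu
      by_contra hu0
      exact absurd (hmax u (Finset.mem_sdiff.mpr ⟨huU, hu0⟩)) (not_le.mpr hlt)
    have hc := Finset.card_le_card hsub
    have hw2 : sc w ≤ b + (U.filter (fun u => key w < key u)).card := by
      by_contra hcon
      exact hw0 ((hmem w).mpr ⟨hwU, not_le.mp hcon⟩)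
    have hvw : sc v ≤ sc w := by
      by_cases h : v = w
      · rw [h]
      · exact hmono w v (lt_of_le_of_ne (hmax v (Finset.mem_sdiff.mpr ⟨hv, hv0⟩))
          fun h' => h (hinj v hv w hwU h'))
    omega
  -- (4)
  have s1 := Finset.sum_inter_add_sum_sdiff C C0 (fun v => ((b : ℤ) - sc v))
  have s2 := Finset.sum_inter_add_sum_sdiff C0 C (fun v => ((b : ℤ) - sc v))
  have c1 := Finset.card_inter_add_card_sdiff C C0
  have c2 := Finset.card_inter_add_card_sdiff C0 C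
  rw [Finset.inter_comm C0 C] at s2 c2
  have hA : -((C0.card : ℤ) * ((C \ C0).card : ℤ)) ≤ ∑ v ∈ C \ C0, ((b : ℤ) - sc v) := by
    have : ∑ _v ∈ C \ C0, (-(C0.card : ℤ)) ≤ ∑ v ∈ C \ C0, ((b : ℤ) - sc v) := by
      refine Finset.sum_le_sum fun v hv => ?_
      obtain ⟨hvC, hv0⟩ := Finset.mem_sdiff.mp hv
      have := h3 v (hC hvC) hv0
      have h' : (sc v : ℤ) ≤ (b : ℤ) + C0.card := by exact_mod_cast this
      linarith
    rw [Finset.sum_const, nsmul_eq_mul] at this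
    linarith
  have hB : ∑ v ∈ C0 \ C, ((b : ℤ) - sc v) ≤ -((C0.card : ℤ) * ((C0 \ C).card : ℤ)) := by
    have : ∑ v ∈ C0 \ C, ((b : ℤ) - sc v) ≤ ∑ _v ∈ C0 \ C, (-(C0.card : ℤ)) := by
      refine Finset.sum_le_sum fun v hv => ?_
      obtain ⟨hvC, hv0⟩ := Finset.mem_sdiff.mp hv
      have := h2 v hvC
      have h' : (b : ℤ) + C0.card ≤ (sc v : ℤ) := by exact_mod_cast this
      linarith
    rw [Finset.sum_const, nsmul_eq_mul] at this
    linarith
  have c1' : ((C ∩ C0).card : ℤ) + ((C \ C0).card : ℤ) = C.card := by exact_mod_cast c1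
  have c2' : ((C ∩ C0).card : ℤ) + ((C0 \ C).card : ℤ) = C0.card := by exact_mod_cast c2
  rw [← s1, ← s2]
  set x : ℤ := ((C.card : ℕ) : ℤ) with hx
  set y : ℤ := ((C0.card : ℕ) : ℤ) with hy
  set p : ℤ := ((C \ C0).card : ℤ) with hp
  set q : ℤ := ((C0 \ C).card : ℤ) with hq
  have hpq : p - q = x - y := by linarith
  have hint : 0 ≤ (x - y) ^ 2 - (x - y) := by
    have e : (x - y) ^ 2 - (x - y) = (x - y) * ((x - y) - 1) := by ring
    rw [e]
    rcases le_or_gt (x - y) 0 with h | h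
    · exact mul_nonneg_of_nonpos_of_nonpos h (by linarith)
    · exact mul_nonneg h.le (by linarith [Int.add_one_le_iff.mpr h])
  have hy2 : y * (p - q) = y * (x - y) := by rw [hpq]
  nlinarith [hA, hB, hint, hy2]

end Pool.Agent.EK
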