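import Pool.Agent.H719.EK.PDefs

/-!
Edge modification and kernels: part D
-/

set_option autoImplicit false

namespace Pool.Agent.EK

/-- Integer indicator of a Boolean. -/
def bi (b : Bool) : ℤ := if b = true then 1 else 0

/-- The part of the indicator of a mismatch that does not depend on `c`. -/
def gpart (a y : ℕ → ℕ → Bool) (s : ℕ → Bool) (u v : ℕ) : ℤ :=
  if u = v then 0 else
    bi (s u) * bi (s v) * bi (a u v != y u v) + bi (s u) * (1 - bi (s v)) * bi (a u v)
      + (1 - bi (s u)) * bi (s v) * bi (a u v) + (1 - bi (s u)) * (1 - bi (s v)) * bi (a u v)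

lemma mism_expand (a y : ℕ → ℕ → Bool) (s c : ℕ → Bool)
    (hirr : ∀ v, a v v = false) (hc : ∀ v, s v = true → c v = false) (u v : ℕ) :
    (if (u ≠ v ∧ mism a y s c u v = true) then (1 : ℤ) else 0) =
      gpart a y s u v + bi (s u) * bi (c v) * (1 - 2 * bi (a u v))
        + bi (s v) * bi (c u) * (1 - 2 * bi (a u v))
        + (bi (c u) * bi (c v) - bi (c u) * (1 - bi (s v)) * bi (a u v)
          - bi (c v) * (1 - bi (s u)) * bi (a u v)) - (if u = v then bi (c u) else 0) := by
  by_cases huv : u = v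
  · subst huv
    have h1 := hirr u
    have h2 := hc u
    unfold gpart bi
    cases hs : s u <;> cases hcu : c u <;> simp_all
  · have h2 := hc u
    have h3 := hc v
    unfold gpart bi mism
    cases hs : s u <;> cases hsv : s v <;> cases hcu : c u <;> cases hcv : c v <;>
      cases ha : a u v <;> simp_all

lemma card_bi (n : ℕ) (p : ℕ → Bool) :
    (((Finset.range n).filter (fun v => p v = true)).card : ℤ) = ∑ v ∈ Finset.range n, bi (p v) := by
  unfold bi
  rw [Finset.sum_boole]

lemma sum_bi (n : ℕ) (p : ℕ → Bool) (f : ℕ → ℤ) :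
    ∑ v ∈ (Finset.range n).filter (fun v => p v = true), f v
      = ∑ v ∈ Finset.range n, bi (p v) * f v := by
  unfold bi
  rw [Finset.sum_filter]
  refine Finset.sum_congr rfl fun v _ => ?_
  split_ifs <;> simp

lemma scF_bi (n : ℕ) (a : ℕ → ℕ → Bool) (s : ℕ → Bool) (v : ℕ) :
    (scF n a s v : ℤ) = ∑ u ∈ Finset.range n, (1 - bi (s u)) * bi (a u v)
      + 2 * ∑ u ∈ Finset.range n, bi (s u) * bi (a u v) := by
  unfold scF
  push_cast
  congr 1
  · rw [← Finset.sum_boole]
    refine Finset.sum_congr rfl fun u _ => ?_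
    unfold bi
    cases s u <;> cases a u v <;> simp
  · congr 1
    rw [← Finset.sum_boole]
    refine Finset.sum_congr rfl fun u _ => ?_
    unfold bi
    cases s u <;> cases a u v <;> simp

theorem costF_eq (n : ℕ) (a y : ℕ → ℕ → Bool) (s : ℕ → Bool)
    (hsymm : ∀ u v, a u v = a v u) (hirr : ∀ v, a v v = false) :
    ∃ K : ℤ, ∀ c : ℕ → Bool, (∀ v, s v = true → c v = false) →
      (costF n a y s c : ℤ) = K + (((Finset.range n).filter (fun v => c v = true)).card : ℤ) ^ 2
        - ((Finset.range n).filter (fun v => c v = true)).card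
        + 2 * ∑ v ∈ (Finset.range n).filter (fun v => c v = true),
          ((((Finset.range n).filter (fun v => s v = true)).card : ℤ) - scF n a s v) := by
  refine ⟨∑ u ∈ Finset.range n, ∑ v ∈ Finset.range n, gpart a y s u v, fun c hc => ?_⟩
  have hcost : (costF n a y s c : ℤ) = ∑ u ∈ Finset.range n, ∑ v ∈ Finset.range n,
      (if (u ≠ v ∧ mism a y s c u v = true) then (1 : ℤ) else 0) := by
    unfold costF
    rw [← Finset.sum_boole, Finset.sum_product]
  rw [hcost]
  simp only [mism_expand a y s c hirr hc]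
  rw [sum_bi, card_bi, card_bi]
  simp only [scF_bi]
  -- symmetric swap
  have hswap1 : ∑ u ∈ Finset.range n, ∑ v ∈ Finset.range n,
      bi (s v) * bi (c u) * (1 - 2 * bi (a u v)) = ∑ u ∈ Finset.range n, ∑ v ∈ Finset.range n,
      bi (s u) * bi (c v) * (1 - 2 * bi (a u v)) := by
    rw [Finset.sum_comm]
    refine Finset.sum_congr rfl fun u _ => Finset.sum_congr rfl fun v _ => ?_
    rw [hsymm v u]
  have hswap2 : ∑ u ∈ Finset.range n, ∑ v ∈ Finset.range n,
      bi (c u) * (1 - bi (s v)) * bi (a u v) = ∑ u ∈ Finset.range n, ∑ v ∈ Finset.range n,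
      bi (c v) * (1 - bi (s u)) * bi (a u v) := by
    rw [Finset.sum_comm]
    refine Finset.sum_congr rfl fun u _ => Finset.sum_congr rfl fun v _ => ?_
    rw [hsymm v u]
  have hdiag : ∑ u ∈ Finset.range n, ∑ v ∈ Finset.range n, (if u = v then bi (c u) else 0)
      = ∑ u ∈ Finset.range n, bi (c u) := by
    refine Finset.sum_congr rfl fun u hu => ?_
    rw [Finset.sum_ite_eq]
    simp [Finset.mem_range.mp hu]
  have hsq : ∑ u ∈ Finset.range n, ∑ v ∈ Finset.range n, bi (c u) * bi (c v)
      = (∑ v ∈ Finset.range n, bi (c v)) ^ 2 := by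
    rw [sq, Finset.sum_mul_sum]
  have hmain1 : ∑ u ∈ Finset.range n, ∑ v ∈ Finset.range n,
      bi (s u) * bi (c v) * (1 - 2 * bi (a u v)) =
      ∑ v ∈ Finset.range n, bi (c v) * (∑ u ∈ Finset.range n, bi (s u)
        - 2 * ∑ u ∈ Finset.range n, bi (s u) * bi (a u v)) := by
    rw [Finset.sum_comm]
    refine Finset.sum_congr rfl fun v _ => ?_
    rw [Finset.mul_sum, ← Finset.sum_sub_distrib, Finset.mul_sum]
    refine Finset.sum_congr rfl fun u _ => ?_
    ring
  have hmain2 : ∑ u ∈ Finset.range n, ∑ v ∈ Finset.range n,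
      bi (c v) * (1 - bi (s u)) * bi (a u v) =
      ∑ v ∈ Finset.range n, bi (c v) * ∑ u ∈ Finset.range n, (1 - bi (s u)) * bi (a u v) := by
    rw [Finset.sum_comm]
    refine Finset.sum_congr rfl fun v _ => ?_
    rw [Finset.mul_sum]
    refine Finset.sum_congr rfl fun u _ => ?_
    ring
  simp only [Finset.sum_add_distrib, Finset.sum_sub_distrib]
  rw [hswap1, hswap2, hdiag, hsq, hmain1, hmain2]
  have hfin : ∑ v ∈ Finset.range n, bi (c v) * (∑ u ∈ Finset.range n, bi (s u)
        - (∑ u ∈ Finset.range n, (1 - bi (s u)) * bi (a u v)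
          + 2 * ∑ u ∈ Finset.range n, bi (s u) * bi (a u v))) =
      ∑ v ∈ Finset.range n, bi (c v) * (∑ u ∈ Finset.range n, bi (s u)
        - 2 * ∑ u ∈ Finset.range n, bi (s u) * bi (a u v))
      - ∑ v ∈ Finset.range n, bi (c v) * ∑ u ∈ Finset.range n, (1 - bi (s u)) * bi (a u v) := by
    rw [← Finset.sum_sub_distrib]
    refine Finset.sum_congr rfl fun v _ => ?_
    ring
  rw [hfin]
  ring

end Pool.Agent.EK
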