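import Mathlib

/-!
Edge modification and kernels: part E
-/

set_option autoImplicit false

namespace Pool.Agent.EK

/- Statement E. Plain proof. The graph D with D.Adj u v := ¬ (G.Adj u v ↔ G'.Adj u v) (= symmDiff G G', or define it
directly) has edge set symmDiff G.edgeSet G'.edgeSet; apply SimpleGraph.dart_card_eq_twice_card_edges (the darts of D are
the ordered pairs p with D.Adj p.1 p.2) or sum_degrees_eq_twice_card_edges. -/
/-- the graph of the pairs on which `G` and `G'` differ -/
def two_ncard_D {n : ℕ} (G G' : SimpleGraph (Fin n)) : SimpleGraph (Fin n) where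
  Adj u v := ¬ (G.Adj u v ↔ G'.Adj u v)
  symm := ⟨fun u v h => by
    rw [G.adj_comm, G'.adj_comm]
    exact h⟩
  loopless := ⟨fun u h => h (by simp)⟩

theorem two_ncard {n : ℕ} (G G' : SimpleGraph (Fin n)) :
    2 * (symmDiff G.edgeSet G'.edgeSet).ncard =
      {p : Fin n × Fin n | ¬ (G.Adj p.1 p.2 ↔ G'.Adj p.1 p.2)}.ncard := by
  classical
  have h1 : symmDiff G.edgeSet G'.edgeSet = (two_ncard_D G G').edgeSet := by
    ext e
    induction e with
    | _ u v =>
      rw [Set.mem_symmDiff, SimpleGraph.mem_edgeSet, SimpleGraph.mem_edgeSet, SimpleGraph.mem_edgeSet]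
      show _ ↔ ¬ (G.Adj u v ↔ G'.Adj u v)
      tauto
  have h2 : (two_ncard_D G G').edgeSet.ncard = (two_ncard_D G G').edgeFinset.card := by
    rw [← SimpleGraph.coe_edgeFinset, Set.ncard_coe_finset]
  have h3 := (two_ncard_D G G').dart_card_eq_twice_card_edges
  have h4 : {p : Fin n × Fin n | ¬ (G.Adj p.1 p.2 ↔ G'.Adj p.1 p.2)}.ncard =
      Fintype.card (two_ncard_D G G').Dart := by
    rw [← Nat.card_coe_set_eq, ← Nat.card_eq_fintype_card]
    refine Nat.card_congr ⟨fun p => ⟨p.1, p.2⟩, fun d => ⟨d.toProd, d.adj⟩, fun p => rfl, fun d => rfl⟩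
  rw [h1, h2, h4, h3]

end Pool.Agent.EK

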