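import Mathlib

/-!
# The algorithm for two forbidden graphs: definitions
-/

namespace Pool.Agent.EK

/-- Mismatch of the pair `u, v`: `a` is the adjacency, `y` the adjacency wanted inside `S`, `s` the
membership in `S`, `c` the membership in `C`. -/
def mism (a y : ℕ → ℕ → Bool) (s c : ℕ → Bool) (u v : ℕ) : Bool :=
  bif s u then (bif s v then (a u v != y u v) else (bif c v then !(a u v) else a u v))
  else (bif s v then (bif c u then !(a u v) else a u v)
    else (bif c u then (bif c v then !(a u v) else false) else (bif c v then false else a u v)))

/-- Number of ordered mismatched pairs. -/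
def costF (n : ℕ) (a y : ℕ → ℕ → Bool) (s c : ℕ → Bool) : ℕ :=
  ((Finset.range n ×ˢ Finset.range n).filter
    (fun p => p.1 ≠ p.2 ∧ mism a y s c p.1 p.2 = true)).card

/-- `d'(v) + 2 s(v)`: number of neighbours outside `S` plus twice the number of neighbours in `S`. -/
def scF (n : ℕ) (a : ℕ → ℕ → Bool) (s : ℕ → Bool) (v : ℕ) : ℕ :=
  ((Finset.range n).filter (fun u => s u = false ∧ a u v = true)).card +
    2 * ((Finset.range n).filter (fun u => s u = true ∧ a u v = true)).card

/-- Entry of a matrix. -/
def ent (A : List (List Bool)) (i j : ℕ) : Bool := (A.getD i []).getD j false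

/-- The pairs of cyclically consecutive elements. -/
def cycP (s : List ℕ) : List (ℕ × ℕ) := s.zip (s.tail ++ s.take 1)

/-- Adjacency in the cycle `s`. -/
def yy (s : List ℕ) (u v : ℕ) : Bool := decide ((u, v) ∈ cycP s) || decide ((v, u) ∈ cycP s)

/-- Membership in `s`. -/
def inS (s : List ℕ) (v : ℕ) : Bool := decide (v ∈ s)

/-- The score of a vertex. -/
def scL (A : List (List Bool)) (s : List ℕ) (v : ℕ) : ℕ :=
  ((List.range A.length).filter fun u => !(inS s u) && ent A u v).length +
    2 * ((List.range A.length).filter fun u => inS s u && ent A u v).length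

/-- The key of a vertex: score, and number of the vertex to break ties. -/
def ky (A : List (List Bool)) (s : List ℕ) (v : ℕ) : ℕ := scL A s v * (A.length + 1) + v

/-- The number of vertices outside `s` of larger key. -/
def rkL (A : List (List Bool)) (s : List ℕ) (v : ℕ) : ℕ :=
  ((List.range A.length).filter fun u => !(inS s u) && decide (ky A s v < ky A s u)).length

/-- The chosen clique. -/
def inC (A : List (List Bool)) (s : List ℕ) (v : ℕ) : Bool :=
  !(inS s v) && decide (v < A.length) &&
    decide (((List.range A.length).filter fun u => inS s u).length + rkL A s v < scL A s v)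

/-- The cost (number of ordered pairs to be changed) for the choice `s`. -/
def costL (A : List (List Bool)) (s : List ℕ) : ℕ :=
  ((List.range A.length ×ˢ List.range A.length).filter fun p =>
    decide (p.1 ≠ p.2) && mism (ent A) (yy s) (inS s) (inC A s) p.1 p.2).length

/-- All lists of five numbers below `n`. -/
def fives (n : ℕ) : List (List ℕ) :=
  (List.range n).flatMap fun a => (List.range n).flatMap fun b => (List.range n).flatMap fun c =>
    (List.range n).flatMap fun d => (List.range n).map fun e => [a, b, c, d, e]

/-- The decision procedure. -/
def acc (x : List (List Bool) × List Unit) : Bool :=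
  ([] :: fives x.1.length).any fun s =>
    decide (s.dedup = s) && decide (costL x.1 s ≤ 2 * x.2.length)

end Pool.Agent.EK
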