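import Pool.Agent.H719.EK.Four
import Pool.Agent.H719.EK.PDefs
import Pool.Agent.H719.EK.A1
import Pool.Agent.H719.EK.A2
import Pool.Agent.H719.EK.B
import Pool.Agent.H719.EK.C
import Pool.Agent.H719.EK.D
import Pool.Agent.H719.EK.E

/-!
Edge modification and kernels: part AC1
-/

set_option autoImplicit false

namespace Pool.Agent.EK








/- Statement AC1 -/
theorem acc_sound_aux_ent {n : ℕ} (G : SimpleGraph (Fin n)) (A : List (List Bool))
    (h1 : ∀ i j : Fin n, ent A i j = true ↔ G.Adj i j)
    (h0 : ∀ i j : ℕ, (n ≤ i ∨ n ≤ j) → ent A i j = false) (u v : ℕ) : ent A u v = ent A v u := by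
  by_cases hu : u < n
  · by_cases hv : v < n
    · have e1 := h1 ⟨u, hu⟩ ⟨v, hv⟩
      have e2 := h1 ⟨v, hv⟩ ⟨u, hu⟩
      simp only at e1 e2
      rw [Bool.eq_iff_iff, e1, e2]
      exact G.adj_comm _ _
    · rw [h0 u v (Or.inr (not_lt.mp hv)), h0 v u (Or.inl (not_lt.mp hv))]
  · rw [h0 u v (Or.inl (not_lt.mp hu)), h0 v u (Or.inr (not_lt.mp hu))]

theorem yy_comm (s : List ℕ) (u v : ℕ) : yy s u v = yy s v u := by
  unfold yy; rw [Bool.or_comm]

theorem mism_comm (a y : ℕ → ℕ → Bool) (s c : ℕ → Bool) (ha : ∀ u v, a u v = a v u)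
    (hy : ∀ u v, y u v = y v u) (u v : ℕ) : mism a y s c u v = mism a y s c v u := by
  unfold mism
  rw [ha u v, hy u v]
  cases s u <;> cases s v <;> cases c u <;> cases c v <;> simp

theorem acc_sound {n : ℕ} (G : SimpleGraph (Fin n)) (A : List (List Bool)) (hn : A.length = n)
    (h1 : ∀ i j : Fin n, ent A i j = true ↔ G.Adj i j)
    (h0 : ∀ i j : ℕ, (n ≤ i ∨ n ≤ j) → ent A i j = false) (k : ℕ)
    (h : acc (A, List.replicate k ()) = true) :
    ∃ G' : SimpleGraph (Fin n), C4free G' ∧ TKfree G' ∧
      (symmDiff G.edgeSet G'.edgeSet).ncard ≤ k := by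
  have hent := acc_sound_aux_ent G A h1 h0
  unfold acc at h
  rw [List.any_eq_true] at h
  obtain ⟨s, hs, hsc⟩ := h
  rw [Bool.and_eq_true, decide_eq_true_eq, decide_eq_true_eq] at hsc
  obtain ⟨hdd, hcost⟩ := hsc
  simp only [List.length_replicate] at hcost hs
  rw [hn] at hs
  set m : ℕ → ℕ → Bool := fun u v => mism (ent A) (yy s) (inS s) (inC A s) u v with hm
  have hmc : ∀ u v, m u v = m v u := fun u v =>
    mism_comm (ent A) (yy s) (inS s) (inC A s) hent (yy_comm s) u v
  let G' : SimpleGraph (Fin n) :=
    { Adj := fun u v => u ≠ v ∧ (ent A u v != m u v) = true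
      symm := ⟨fun u v huv => ⟨huv.1.symm, by rw [hent v u, hmc v u]; exact huv.2⟩⟩
      loopless := ⟨fun u hu => hu.1 rfl⟩ }
  have hG' : ∀ u v : Fin n, G'.Adj u v ↔ (u ≠ v ∧ (ent A u v != m u v) = true) := fun u v => Iff.rfl
  have hCS : ∀ v : ℕ, inC A s v = true → inS s v = false := by
    intro v hv
    unfold inC at hv
    simp only [Bool.and_eq_true, Bool.not_eq_true'] at hv
    exact hv.1.1
  let S : Set (Fin n) := {v | inS s v = true}
  let C : Set (Fin n) := {v | inC A s v = true}
  have hSS : ∀ u v : Fin n, inS s u = true → inS s v = true → (G'.Adj u v ↔ u ≠ v ∧ yy s u v = true) := by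
    intro u v hu hv
    rw [hG']
    simp only [hm, mism, hu, hv, cond_true]
    cases ent A u v <;> cases yy s u v <;> simp
  have hPS : IsPS G' S C := by
    refine ⟨?_, ?_, ?_, ?_, ?_⟩
    · intro v hv hvS
      have := hCS v hv
      rw [show inS s v = true from hvS] at this
      exact absurd this (by simp)
    · intro u hu v hv huv
      rw [hG']
      refine ⟨huv, ?_⟩
      simp only [hm, mism, hCS u hu, hCS v hv, show inC A s u = true from hu,
        show inC A s v = true from hv, cond_true, cond_false]
      cases ent A u v <;> simp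
    · intro u huC huS v hvC hvS hadj
      rw [hG'] at hadj
      have e1 : inC A s u = false := by simpa [C] using huC
      have e2 : inS s u = false := by simpa [S] using huS
      have e3 : inC A s v = false := by simpa [C] using hvC
      have e4 : inS s v = false := by simpa [S] using hvS
      have := hadj.2
      simp only [hm, mism, e1, e2, e3, e4, cond_true, cond_false] at this
      simp at this
    · intro u hu v hv
      rw [hG']
      have hv' : inS s v = true := hv
      have hu' : inC A s u = true := hu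
      refine ⟨?_, ?_⟩
      · intro huv
        subst huv
        have := hCS u hu
        rw [hv'] at this
        exact absurd this (by simp)
      · simp only [hm, mism, hCS u hu, hv', hu', cond_true, cond_false]
        cases ent A u v <;> simp
    · intro u huC huS v hv hadj
      rw [hG'] at hadj
      have e1 : inC A s u = false := by simpa [C] using huC
      have e2 : inS s u = false := by simpa [S] using huS
      have hv' : inS s v = true := hv
      have := hadj.2
      simp only [hm, mism, e1, e2, hv', cond_true, cond_false] at this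
      simp at this
  have hSC5 : S = ∅ ∨ ∃ t : Fin 5 → Fin n, IsC5 G' t ∧ S = Set.range t := by
    rw [List.mem_cons] at hs
    rcases hs with hs | hs
    · left
      subst hs
      ext v
      simp [S, inS]
    · right
      simp only [fives, List.mem_flatMap, List.mem_map, List.mem_range] at hs
      obtain ⟨a, ha, b, hb, c, hc, d, hd, e, he, rfl⟩ := hs
      have hnd : [a, b, c, d, e].Nodup := by rw [← hdd]; exact List.nodup_dedup _
      simp only [List.nodup_cons, List.mem_cons, List.not_mem_nil, or_false, not_or, not_false_eq_true,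
        List.nodup_nil, and_true] at hnd
      obtain ⟨⟨hab, hac, had, hae⟩, ⟨hbc, hbd, hbe⟩, ⟨hcd, hce⟩, hde⟩ := hnd
      refine ⟨![⟨a, ha⟩, ⟨b, hb⟩, ⟨c, hc⟩, ⟨d, hd⟩, ⟨e, he⟩], ⟨?_, ?_⟩, ?_⟩
      · intro i j hij
        fin_cases i <;> fin_cases j <;> simp_all
      · intro i j
        have hi : ∀ i : Fin 5, inS [a, b, c, d, e] ((![⟨a, ha⟩, ⟨b, hb⟩, ⟨c, hc⟩, ⟨d, hd⟩, ⟨e, he⟩] : Fin 5 → Fin n) i) = true := by
          intro i
          fin_cases i <;> simp [inS]
        rw [hSS _ _ (hi i) (hi j)]
        fin_cases i <;> fin_cases j <;>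
          simp [yy, cycP, hab, hac, had, hae, hbc, hbd, hbe, hcd, hce, hde, Ne.symm hab, Ne.symm hac,
            Ne.symm had, Ne.symm hae, Ne.symm hbc, Ne.symm hbd, Ne.symm hbe, Ne.symm hcd,
            Ne.symm hce, Ne.symm hde]
      · ext v
        simp only [S, inS, Set.mem_ofPred_eq, decide_eq_true_eq, List.mem_cons, List.not_mem_nil, or_false,
          Set.mem_range]
        constructor
        · rintro (hv | hv | hv | hv | hv)
          · exact ⟨0, Fin.ext hv.symm⟩
          · exact ⟨1, Fin.ext hv.symm⟩
          · exact ⟨2, Fin.ext hv.symm⟩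
          · exact ⟨3, Fin.ext hv.symm⟩
          · exact ⟨4, Fin.ext hv.symm⟩
        · rintro ⟨i, rfl⟩
          fin_cases i <;> simp
  obtain ⟨hf1, hf2⟩ := free_of_ps G' S C hSC5 hPS
  refine ⟨G', hf1, hf2, ?_⟩
  have h2 := two_ncard G G'
  have h3 : {p : Fin n × Fin n | ¬ (G.Adj p.1 p.2 ↔ G'.Adj p.1 p.2)}.ncard ≤ costL A s := by
    unfold costL
    rw [hn]
    refine le_trans ?_ (List.toFinset_card_le _)
    rw [← Set.ncard_coe_finset]
    apply Set.ncard_le_ncard_of_injOn (fun p : Fin n × Fin n => ((p.1 : ℕ), (p.2 : ℕ)))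
    · rintro ⟨u, v⟩ hp
      simp only [Set.mem_ofPred_eq] at hp
      simp only [Finset.mem_coe, List.mem_toFinset, List.mem_filter,
        Bool.and_eq_true, decide_eq_true_eq]
      rw [hG', ← h1] at hp
      have huv : u ≠ v := by
        rintro rfl
        apply hp
        have : ent A u u = false := by
          by_contra hc
          exact G.loopless.irrefl u ((h1 u u).mp (by simpa using hc))
        simp [this]
      refine ⟨List.pair_mem_product.mpr ⟨List.mem_range.mpr u.2, List.mem_range.mpr v.2⟩,
        fun hc => huv (Fin.ext hc), ?_⟩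
      by_contra hmm
      apply hp
      have hmm' : m u v = false := by simpa [hm] using hmm
      rw [hmm']
      simp [huv]
    · rintro ⟨u, v⟩ _ ⟨u', v'⟩ _ hp
      simp only [Prod.mk.injEq] at hp
      exact Prod.ext (Fin.ext hp.1) (Fin.ext hp.2)
  omega

end Pool.Agent.EK
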