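import Pool.Agent.H719.EK.Four
import Pool.Agent.H719.EK.PDefs
import Pool.Agent.H719.EK.A1
import Pool.Agent.H719.EK.A2
import Pool.Agent.H719.EK.B
import Pool.Agent.H719.EK.C
import Pool.Agent.H719.EK.D
import Pool.Agent.H719.EK.E

/-!
Edge modification and kernels: part AC2
-/

set_option autoImplicit false

namespace Pool.Agent.EK








theorem length_filter_eq {α : Type} [DecidableEq α] (l : List α) (hl : l.Nodup) (p : α → Bool) :
    (l.filter p).length = (l.toFinset.filter (fun x => p x = true)).card := by
  have h : (l.toFinset.filter (fun x => p x = true)) = (l.filter p).toFinset := by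
    ext x; simp
  rw [h, List.toFinset_card_of_nodup (hl.filter p)]

theorem length_filter_range (n : ℕ) (p : ℕ → Bool) :
    ((List.range n).filter p).length = ((Finset.range n).filter (fun x => p x = true)).card := by
  rw [length_filter_eq _ List.nodup_range]
  congr 1
  ext x; simp

theorem costL_eq (A : List (List Bool)) (s : List ℕ) :
    costL A s = costF A.length (ent A) (yy s) (inS s) (inC A s) := by
  unfold costL costF
  rw [length_filter_eq _ (List.nodup_range.product List.nodup_range)]
  congr 1
  ext ⟨u, v⟩
  simp [List.mem_product]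

theorem scL_eq (A : List (List Bool)) (s : List ℕ) (v : ℕ) :
    scL A s v = scF A.length (ent A) (inS s) v := by
  unfold scL scF
  rw [length_filter_range, length_filter_range]
  congr 2
  · congr 1; ext x; simp
  · congr 1; ext x; simp

theorem rkL_eq (A : List (List Bool)) (s : List ℕ) (v : ℕ) :
    rkL A s v = ((Finset.range A.length).filter
      (fun u => inS s u = false ∧ ky A s v < ky A s u)).card := by
  unfold rkL
  rw [length_filter_range]
  congr 1
  ext x; simp

theorem inC_opt {n : ℕ} (A : List (List Bool)) (hn : A.length = n) (s : List ℕ)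
    (hsym : ∀ u v, ent A u v = ent A v u) (hirr : ∀ v, ent A v v = false)
    (c : ℕ → Bool) (hc : ∀ v, inS s v = true → c v = false) :
    costL A s ≤ costF n (ent A) (yy s) (inS s) c := by
  subst hn
  obtain ⟨K, hK⟩ := costF_eq A.length (ent A) (yy s) (inS s) hsym hirr
  have e1 := hK c hc
  have hcC : ∀ v, inS s v = true → inC A s v = false := by
    intro v hv
    simp [inC, hv]
  have e2 := hK (inC A s) hcC
  set n := A.length with hndef
  set U := (Finset.range n).filter (fun v => inS s v = false) with hU
  set b := ((Finset.range n).filter (fun v => inS s v = true)).card with hb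
  let sc' : ℕ → ℕ := fun v => if v < n then scL A s v else 0
  let key' : ℕ → ℕ := fun v => if v < n then ky A s v else 0
  have kdiv : ∀ v, v < n → ky A s v / (n + 1) = scL A s v := by
    intro v hv
    unfold ky
    rw [← hndef, Nat.add_comm, Nat.add_mul_div_right _ _ (Nat.succ_pos n),
      Nat.div_eq_of_lt (by omega), Nat.zero_add]
  have kmod : ∀ v, v < n → ky A s v % (n + 1) = v := by
    intro v hv
    unfold ky
    rw [← hndef, Nat.add_comm, Nat.add_mul_mod_self_right, Nat.mod_eq_of_lt (by omega)]
  have hinj : ∀ u ∈ U, ∀ v ∈ U, key' u = key' v → u = v := by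
    intro u hu v hv h
    have hu' : u < n := by
      have := (Finset.mem_filter.1 hu).1; simpa using this
    have hv' : v < n := by
      have := (Finset.mem_filter.1 hv).1; simpa using this
    simp only [key', hu', hv', if_true] at h
    rw [← kmod u hu', ← kmod v hv', h]
  have hmono : ∀ u v, key' v < key' u → sc' v ≤ sc' u := by
    intro u v h
    simp only [key', sc'] at h ⊢
    by_cases hu : u < n
    · by_cases hv : v < n
      · simp only [hu, hv, if_true] at h ⊢
        rw [← kdiv u hu, ← kdiv v hv]
        exact Nat.div_le_div_right h.le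
      · simp [hv]
    · simp [hu] at h
  have hC0 : (Finset.range n).filter (fun v => inC A s v = true) =
      U.filter (fun v => b + (U.filter (fun u => key' v < key' u)).card < sc' v) := by
    ext v
    simp only [hU, Finset.mem_filter, Finset.mem_range, inC, Bool.and_eq_true, Bool.not_eq_true',
      decide_eq_true_eq]
    constructor
    · rintro ⟨hv, ⟨hs, -⟩, hlt⟩
      refine ⟨⟨hv, hs⟩, ?_⟩
      rw [length_filter_range, rkL_eq] at hlt
      simp only [sc', hv, if_true]
      have : ((((Finset.range n).filter (fun v => inS s v = false))).filter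
          (fun u => key' v < key' u)) =
          (Finset.range A.length).filter (fun u => inS s u = false ∧ ky A s v < ky A s u) := by
        ext u
        simp only [Finset.mem_filter, Finset.mem_range, key', hv, if_true]
        constructor
        · rintro ⟨⟨a1, a2⟩, a3⟩
          rw [if_pos a1] at a3
          exact ⟨a1, a2, a3⟩
        · rintro ⟨a1, a2, a3⟩
          refine ⟨⟨a1, a2⟩, ?_⟩
          rw [if_pos (show u < n from a1)]
          exact a3
      rw [this]
      exact hlt
    · rintro ⟨⟨hv, hs⟩, hlt⟩
      refine ⟨hv, ⟨hs, hv⟩, ?_⟩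
      rw [length_filter_range, rkL_eq]
      simp only [sc', hv, if_true] at hlt
      have : ((((Finset.range n).filter (fun v => inS s v = false))).filter
          (fun u => key' v < key' u)) =
          (Finset.range A.length).filter (fun u => inS s u = false ∧ ky A s v < ky A s u) := by
        ext u
        simp only [Finset.mem_filter, Finset.mem_range, key', hv, if_true]
        constructor
        · rintro ⟨⟨a1, a2⟩, a3⟩
          rw [if_pos a1] at a3
          exact ⟨a1, a2, a3⟩
        · rintro ⟨a1, a2, a3⟩
          refine ⟨⟨a1, a2⟩, ?_⟩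
          rw [if_pos (show u < n from a1)]
          exact a3
      rw [this] at hlt
      exact hlt
  have hCU : (Finset.range n).filter (fun v => c v = true) ⊆ U := by
    intro v hv
    simp only [hU, Finset.mem_filter, Finset.mem_range] at hv ⊢
    refine ⟨hv.1, ?_⟩
    by_contra h
    have := hc v (by simpa using h)
    rw [this] at hv
    exact absurd hv.2 (by simp)
  have key := opt_le U sc' key' b hinj hmono _ hC0 _ hCU
  have s1 : ∀ (D : Finset ℕ), D ⊆ Finset.range n →
      ∑ v ∈ D, ((b : ℤ) - sc' v) = ∑ v ∈ D, ((b : ℤ) - scF n (ent A) (inS s) v) := by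
    intro D hD
    apply Finset.sum_congr rfl
    intro v hv
    have hv' : v < n := by simpa using hD hv
    simp only [sc', hv', if_true]
    rw [scL_eq]
  rw [s1 _ (Finset.filter_subset _ _), s1 _ (Finset.filter_subset _ _)] at key
  rw [costL_eq]
  have : (costF n (ent A) (yy s) (inS s) (inC A s) : ℤ) ≤ costF n (ent A) (yy s) (inS s) c := by
    rw [e1, e2]
    linarith
  exact_mod_cast this

theorem core_cost {n : ℕ} (G : SimpleGraph (Fin n)) (A : List (List Bool)) (hn : A.length = n)
    (h1 : ∀ i j : Fin n, ent A i j = true ↔ G.Adj i j)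
    (h0 : ∀ i j : ℕ, (n ≤ i ∨ n ≤ j) → ent A i j = false)
    (G' : SimpleGraph (Fin n)) (S C : Set (Fin n)) (hPS : IsPS G' S C) (s : List ℕ)
    (hS : ∀ v : Fin n, inS s v = true ↔ v ∈ S) (hsn : ∀ v, inS s v = true → v < n)
    (hy : ∀ u v : Fin n, u ∈ S → v ∈ S → (yy s u v = true ↔ G'.Adj u v)) :
    costL A s ≤ 2 * (symmDiff G.edgeSet G'.edgeSet).ncard := by
  classical
  have hsym : ∀ u v, ent A u v = ent A v u := by
    intro u v
    by_cases hu : u < n
    · by_cases hv : v < n
      · rw [Bool.eq_iff_iff, h1 ⟨u, hu⟩ ⟨v, hv⟩, h1 ⟨v, hv⟩ ⟨u, hu⟩]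
        exact G.adj_comm _ _
      · rw [h0 u v (Or.inr (not_lt.1 hv)), h0 v u (Or.inl (not_lt.1 hv))]
    · rw [h0 u v (Or.inl (not_lt.1 hu)), h0 v u (Or.inr (not_lt.1 hu))]
  have hirr : ∀ v, ent A v v = false := by
    intro v
    by_cases hv : v < n
    · have := h1 ⟨v, hv⟩ ⟨v, hv⟩
      have h2 : ¬ (ent A v v = true) := fun h => G.irrefl (this.1 h)
      simpa using h2
    · exact h0 v v (Or.inl (not_lt.1 hv))
  let c : ℕ → Bool := fun v => decide (∃ h : v < n, (⟨v, h⟩ : Fin n) ∈ C)
  have hcC : ∀ v : Fin n, c v = true ↔ v ∈ C := by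
    intro v
    simp only [c, decide_eq_true_eq]
    constructor
    · rintro ⟨h, hh⟩; exact hh
    · intro h; exact ⟨v.2, h⟩
  have hc : ∀ v, inS s v = true → c v = false := by
    intro v hv
    have hvn := hsn v hv
    have hvS : (⟨v, hvn⟩ : Fin n) ∈ S := (hS ⟨v, hvn⟩).1 hv
    rw [← Bool.not_eq_true]
    intro h
    have := (hcC ⟨v, hvn⟩).1 h
    exact hPS.disj _ this hvS
  refine (inC_opt A hn s hsym hirr c hc).trans ?_
  rw [two_ncard]
  unfold costF
  have hmis : ∀ u v : Fin n, u ≠ v → mism (ent A) (yy s) (inS s) c u v = true →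
      ¬ (G.Adj u v ↔ G'.Adj u v) := by
    intro u v huv hm
    rw [← h1 u v]
    by_cases hu : u ∈ S
    · have hu' := (hS u).2 hu
      by_cases hv : v ∈ S
      · have hv' := (hS v).2 hv
        rw [← hy u v hu hv]
        simp only [mism, hu', hv', cond_true] at hm
        intro h
        rw [← Bool.eq_iff_iff] at h
        rw [h] at hm
        simp at hm
      · have hv' : inS s v = false := by
          rw [← Bool.not_eq_true, hS v]; exact hv
        by_cases hvC : v ∈ C
        · have hvc := (hcC v).2 hvC
          simp only [mism, hu', hv', cond_true, cond_false, hvc] at hm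
          have := (hPS.full v hvC u hu).symm
          simp only [this, iff_true]
          simpa using hm
        · have hvc : c v = false := by rw [← Bool.not_eq_true, hcC v]; exact hvC
          simp only [mism, hu', hv', cond_true, cond_false, hvc] at hm
          have := hPS.empty v hvC hv u hu
          have h' : ¬ G'.Adj u v := fun h => this h.symm
          simp only [h', iff_false]
          simpa using hm
    · have hu' : inS s u = false := by
        rw [← Bool.not_eq_true, hS u]; exact hu
      by_cases hv : v ∈ S
      · have hv' := (hS v).2 hv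
        by_cases huC : u ∈ C
        · have huc := (hcC u).2 huC
          simp only [mism, hu', hv', cond_true, cond_false, huc] at hm
          have := (hPS.full u huC v hv)
          simp only [this, iff_true]
          simpa using hm
        · have huc : c u = false := by rw [← Bool.not_eq_true, hcC u]; exact huC
          simp only [mism, hu', hv', cond_true, cond_false, huc] at hm
          have := hPS.empty u huC hu v hv
          simp only [this, iff_false]
          simpa using hm
      · have hv' : inS s v = false := by
          rw [← Bool.not_eq_true, hS v]; exact hv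
        by_cases huC : u ∈ C
        · have huc := (hcC u).2 huC
          by_cases hvC : v ∈ C
          · have hvc := (hcC v).2 hvC
            simp only [mism, hu', hv', cond_true, cond_false, huc, hvc] at hm
            have := hPS.clique u huC v hvC huv
            simp only [this, iff_true]
            simpa using hm
          · have hvc : c v = false := by rw [← Bool.not_eq_true, hcC v]; exact hvC
            simp [mism, hu', hv', huc, hvc] at hm
        · have huc : c u = false := by rw [← Bool.not_eq_true, hcC u]; exact huC
          by_cases hvC : v ∈ C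
          · have hvc := (hcC v).2 hvC
            simp [mism, hu', hv', huc, hvc] at hm
          · have hvc : c v = false := by rw [← Bool.not_eq_true, hcC v]; exact hvC
            simp only [mism, hu', hv', cond_false, huc, hvc] at hm
            have := hPS.indep u huC hu v hvC hv
            simp only [this, iff_false]
            simpa using hm
  have hT : {p : Fin n × Fin n | ¬ (G.Adj p.1 p.2 ↔ G'.Adj p.1 p.2)} =
      ((Finset.univ.filter (fun p : Fin n × Fin n => ¬ (G.Adj p.1 p.2 ↔ G'.Adj p.1 p.2)) :
        Finset (Fin n × Fin n)) : Set (Fin n × Fin n)) := by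
    ext p; simp
  rw [hT, Set.ncard_coe_finset]
  refine le_trans (Finset.card_le_card (t := (Finset.univ.filter
    (fun p : Fin n × Fin n => ¬ (G.Adj p.1 p.2 ↔ G'.Adj p.1 p.2))).image
      (fun p => ((p.1 : ℕ), (p.2 : ℕ)))) ?_) Finset.card_image_le
  rintro ⟨u, v⟩ hp
  simp only [Finset.mem_filter, Finset.mem_product, Finset.mem_range] at hp
  obtain ⟨⟨hu, hv⟩, hne, hm⟩ := hp
  rw [Finset.mem_image]
  refine ⟨(⟨u, hu⟩, ⟨v, hv⟩), ?_, rfl⟩
  rw [Finset.mem_filter]
  refine ⟨Finset.mem_univ _, hmis ⟨u, hu⟩ ⟨v, hv⟩ ?_ hm⟩
  intro h
  exact hne (Fin.mk.inj_iff.1 h)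

/- Statement AC2 (completeness of the algorithm). Plain proof. By split_of_noC5 / ps_of_C5 there are S, C with IsPS G' S C and S = ∅ or S the
range of an induced five-cycle x : Fin 5 → Fin n. Let s := [] or s := [x 0, ..., x 4] (as naturals): s ∈ [] :: fives n, s.dedup = s.
Let c v := decide (v < n and v ∈ C) (classically). For v in S c v = false.
(1) costF n (ent A) (yy s) (inS s) c ≤ #{p : Fin n × Fin n | ¬ (G.Adj p.1 p.2 ↔ G'.Adj p.1 p.2)}: if u ≠ v < n and
    mism (ent A) (yy s) (inS s) c u v = true then ent A u v ≠ (what G' has for this pair), by IsPS and, for u, v ∈ S, because G' is the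
    cycle x on S (yy s (x i) (x j) iff j = i + 1 or i = j + 1, 25 cases).
(2) costL A s = costF n (ent A) (yy s) (inS s) (inC A s) (lists versus finsets), and by costF_eq and opt_le with
    U = {v < n : v ∉ s}, key = ky A s, sc = scL A s = scF n (ent A) (inS s), b = #{v < n : v ∈ s}, C0 = {v < n : inC A s v}, this is
    ≤ costF n (ent A) (yy s) (inS s) c. (ky is injective on numbers < n + 1 and ky v < ky u implies scL v ≤ scL u, for u, v < n.
    hmono in opt_le is for all u v : ℕ; use sc' v := if v < n then scL A s v else 0 and a similar key, or restrict: choose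
    key' v := if v < n then ky A s v else 0 and sc' accordingly.)
(3) so costL A s ≤ 2 ncard ≤ 2 k by two_ncard, and acc = true. -/
theorem acc_complete {n : ℕ} (G : SimpleGraph (Fin n)) (A : List (List Bool)) (hn : A.length = n)
    (h1 : ∀ i j : Fin n, ent A i j = true ↔ G.Adj i j)
    (h0 : ∀ i j : ℕ, (n ≤ i ∨ n ≤ j) → ent A i j = false) (k : ℕ)
    (G' : SimpleGraph (Fin n)) (h4 : C4free G') (h2 : TKfree G')
    (hk : (symmDiff G.edgeSet G'.edgeSet).ncard ≤ k) :
    acc (A, List.replicate k ()) = true := by
  suffices H : ∃ s : List ℕ, s ∈ [] :: fives A.length ∧ s.dedup = s ∧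
      costL A s ≤ 2 * (symmDiff G.edgeSet G'.edgeSet).ncard by
    obtain ⟨s, hs1, hs2, hs3⟩ := H
    unfold acc
    rw [List.any_eq_true]
    refine ⟨s, hs1, ?_⟩
    simp only [Bool.and_eq_true, decide_eq_true_eq, List.length_replicate]
    exact ⟨hs2, by omega⟩
  by_cases h5 : ∃ x : Fin 5 → Fin n, IsC5 G' x
  · obtain ⟨x, hx⟩ := h5
    obtain ⟨C, hC⟩ := ps_of_C5 G' h4 h2 x hx
    have hinj : ∀ i j, (x i : ℕ) = (x j : ℕ) ↔ i = j := by
      intro i j
      constructor
      · intro h; exact hx.1 (Fin.ext h)
      · intro h; rw [h]
    refine ⟨[(x 0 : ℕ), x 1, x 2, x 3, x 4], ?_, ?_, ?_⟩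
    · rw [List.mem_cons]
      right
      simp only [fives, List.mem_flatMap, List.mem_map, List.mem_range, hn]
      exact ⟨x 0, (x 0).2, x 1, (x 1).2, x 2, (x 2).2, x 3, (x 3).2, x 4, (x 4).2, rfl⟩
    · rw [List.dedup_eq_self]
      simp [hinj]
    · refine core_cost G A hn h1 h0 G' _ C hC _ ?_ ?_ ?_
      · intro v
        simp only [inS, decide_eq_true_eq, Set.mem_range, List.mem_cons, List.not_mem_nil, or_false]
        constructor
        · rintro (h | h | h | h | h)
          · exact ⟨0, (Fin.ext h).symm⟩
          · exact ⟨1, (Fin.ext h).symm⟩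
          · exact ⟨2, (Fin.ext h).symm⟩
          · exact ⟨3, (Fin.ext h).symm⟩
          · exact ⟨4, (Fin.ext h).symm⟩
        · rintro ⟨i, rfl⟩
          fin_cases i <;> simp
      · intro v hv
        simp only [inS, decide_eq_true_eq, List.mem_cons, List.not_mem_nil, or_false] at hv
        rcases hv with (h | h | h | h | h) <;> rw [h] <;> exact Fin.isLt _
      · rintro _ _ ⟨i, rfl⟩ ⟨j, rfl⟩
        rw [hx.2 i j]
        simp only [yy, cycP, Bool.or_eq_true, decide_eq_true_eq]
        simp only [List.tail_cons, List.take_succ_cons, List.take_zero, List.cons_append,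
          List.nil_append, List.zip_cons_cons, List.zip_nil_left, List.mem_cons, Prod.mk.injEq,
          List.not_mem_nil, or_false, hinj]
        revert i j
        decide
  · push Not at h5
    obtain ⟨C, hC⟩ := split_of_noC5 G' h4 h2 h5
    refine ⟨[], by simp, by simp, ?_⟩
    refine core_cost G A hn h1 h0 G' ∅ C hC [] ?_ ?_ ?_
    · intro v; simp [inS]
    · intro v hv; simp [inS] at hv
    · intro u v hu; exact absurd hu (by simp)

end Pool.Agent.EK
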