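import Mathlib

/-!
# Gadget graphs: definitions
-/

namespace Pool.Agent.EK

/-- The graph given by a list of edges. -/
def lg {X : Type} (E : List (X × X)) : SimpleGraph X where
  Adj u w := u ≠ w ∧ ((u, w) ∈ E ∨ (w, u) ∈ E)
  symm := ⟨fun _ _ h => ⟨h.1.symm, h.2.symm⟩⟩
  loopless := ⟨fun _ h => h.1 rfl⟩

/-- All ends of the edges of a list. -/
def ends {X : Type} (E : List (X × X)) : List X := E.flatMap fun e => [e.1, e.2]

/-- Vertices of the gadget graph over a set `C` of core vertices: core vertices `inl c` and gadget
vertices `inr (κ, (u, v), i, b)`; `κ = true` for gadgets which protect the edge `u v`, `κ = false`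
for gadgets which protect the non-edge `u v`. -/
abbrev GV (C : Type) : Type := C ⊕ (Bool × (C × C) × ℕ × Bool)

/-- The edges of the gadget graph: the core edges `E0`; for each protected edge `u v` and each
`i < q` two vertices adjacent to `u` and `v`; for each protected non-edge `u v` and each `i < q` a
path with two inner vertices from `u` to `v`. -/
def gadE {C : Type} (E0 PE PN : List (C × C)) (q : ℕ) : List (GV C × GV C) :=
  (E0.map fun e => (Sum.inl e.1, Sum.inl e.2)) ++
  ((PE.flatMap fun p => (List.range q).flatMap fun i =>
    [(Sum.inr (true, p, i, false), Sum.inl p.1), (Sum.inr (true, p, i, false), Sum.inl p.2),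
      (Sum.inr (true, p, i, true), Sum.inl p.1), (Sum.inr (true, p, i, true), Sum.inl p.2)]) ++
  (PN.flatMap fun p => (List.range q).flatMap fun i =>
    [(Sum.inr (false, p, i, false), Sum.inl p.1), (Sum.inr (false, p, i, true), Sum.inl p.2),
      (Sum.inr (false, p, i, false), Sum.inr (false, p, i, true))]))

variable {X : Type}

/-- The core edges of the cone over the graph with edges `EH`: the apex `none` is adjacent to all
vertices except the root `r`. -/
def coneE0 [DecidableEq X] (EH : List (X × X)) (r : X) : List (Option X × Option X) :=
  (((ends EH).filter fun v => decide (v ≠ r)).map fun v => (none, some v)) ++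
    EH.map fun e => (some e.1, some e.2)

/-- The protected edges of the cone: the edges of `H`, and the edges from the apex to the vertices
of `R`. -/
def conePE (EH : List (X × X)) (R : List X) : List (Option X × Option X) :=
  (EH.map fun e => (some e.1, some e.2)) ++ R.map fun v => (none, some v)

/-- Both orientations of all edges. -/
def sym2 (EH : List (X × X)) : List (X × X) := EH ++ EH.map fun e => (e.2, e.1)

/-- The pairs of different vertices with a common neighbour. -/
def p2 [DecidableEq X] (EH : List (X × X)) : List (X × X) :=
  (sym2 EH).flatMap fun e => ((sym2 EH).filter fun f => decide (f.1 = e.1 ∧ f.2 ≠ e.2)).map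
    fun f => (e.2, f.2)

/-- The protected non-edges of the cone: the pairs of vertices of `H` with a common neighbour, and
the pair of the apex and the root. -/
def conePN [DecidableEq X] (EH : List (X × X)) (r : X) : List (Option X × Option X) :=
  ((p2 EH).map fun e => (some e.1, some e.2)) ++ [(none, some r)]

/-- The edges of the gadget graph over the cone. -/
def bigE [DecidableEq X] (EH : List (X × X)) (r : X) (R : List X) (q : ℕ) :
    List (GV (Option X) × GV (Option X)) :=
  gadE (coneE0 EH r) (conePE EH R) (conePN EH r) q

/-- `S` together with the root is a set of vertices disjoint from `R` such that every vertex of it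
has at most one neighbour outside it. -/
def Good (H : SimpleGraph X) (r : X) (R : List X) (S : Finset X) : Prop :=
  r ∉ S ∧ (∀ ρ ∈ R, ρ ∉ S) ∧ ∀ b, (b = r ∨ b ∈ S) → ∀ s t, s ≠ t → H.Adj b s → H.Adj b t →
    (s = r ∨ s ∈ S) ∨ (t = r ∨ t ∈ S)

/-- `H` has no triangle and no four-cycle. -/
def Girth5 (H : SimpleGraph X) : Prop :=
  (∀ x y z, H.Adj x y → H.Adj y z → ¬ H.Adj x z) ∧
  ∀ x x' y y', x ≠ x' → H.Adj x y → H.Adj x' y → H.Adj x y' → H.Adj x' y' → y = y'

end Pool.Agent.EK
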