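import Pool.Agent.H719.EK.Four
import Pool.Agent.H719.EK.GadDefs

/-!
Edge modification and kernels: part CO1
-/

set_option autoImplicit false

namespace Pool.Agent.EK

/- Statement CO1. Plain proof. Let S be the set of the vertices x ∈ ends EH, x ≠ r with ¬ B'.Adj none (some x) (a finset since
ends EH is a list). For x in S the pair none, some x is an edge of lg (coneE0 EH r) and not of B', so it is in the symmetric
difference: |S| ≤ K. r ∉ S. For ρ ∈ R: (none, some ρ) ∈ conePE so B'.Adj none (some ρ) and ρ ∉ S. Let b = r or b ∈ S, and
s ≠ t adjacent to b in H = lg EH, neither r nor in S. Then ¬ B'.Adj none (some b) (for b = r this is hPN for the pair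
(none, some r)), B'.Adj none (some s), B'.Adj none (some t) (s, t are in ends EH, different from r and not in S),
B'.Adj (some b) (some s), B'.Adj (some b) (some t) (hPE, for one of the orientations), ¬ B'.Adj (some s) (some t)
((s, t) ∈ p2 EH). So none, some s, some b, some t contradicts C4free B'. -/
theorem cone_mp {X : Type} [DecidableEq X] (EH : List (X × X)) (r : X) (R : List X) (K : ℕ)
    (B' : SimpleGraph (Option X)) (h4 : C4free B') (hPE : ∀ p ∈ conePE EH R, B'.Adj p.1 p.2)
    (hPN : ∀ p ∈ conePN EH r, ¬ B'.Adj p.1 p.2)
    (hK : (symmDiff (lg (coneE0 EH r)).edgeSet B'.edgeSet).encard ≤ K) :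
    ∃ S : Finset X, S.card ≤ K ∧ Good (lg EH) r R S := by
  classical
  have hends : ∀ b s, (lg EH).Adj b s → s ∈ ends EH := by
    intro b s h
    unfold ends
    rw [List.mem_flatMap]
    rcases h.2 with h | h
    · exact ⟨_, h, by simp⟩
    · exact ⟨_, h, by simp⟩
  have hsym : ∀ b s, (lg EH).Adj b s → (b, s) ∈ sym2 EH := by
    intro b s h
    unfold sym2
    rw [List.mem_append]
    rcases h.2 with h | h
    · exact Or.inl h
    · right
      rw [List.mem_map]
      exact ⟨_, h, rfl⟩
  have hadj : ∀ b s, (lg EH).Adj b s → B'.Adj (some b) (some s) := by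
    intro b s h
    have key : ∀ x y, (x, y) ∈ EH → B'.Adj (some x) (some y) := by
      intro x y hxy
      refine hPE (some x, some y) ?_
      unfold conePE
      rw [List.mem_append, List.mem_map]
      exact Or.inl ⟨_, hxy, rfl⟩
    rcases h.2 with h | h
    · exact key _ _ h
    · exact (key _ _ h).symm
  refine ⟨((ends EH).filter fun x => decide (x ≠ r ∧ ¬ B'.Adj none (some x))).toFinset, ?_, ?_⟩
  · set S := ((ends EH).filter fun x => decide (x ≠ r ∧ ¬ B'.Adj none (some x))).toFinset with hS
    have hinj : Function.Injective fun x : X => (s(none, some x) : Sym2 (Option X)) := by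
      intro x y hxy
      have h : (s(none, some x) : Sym2 (Option X)) = s(none, some y) := hxy
      rw [Sym2.eq_iff] at h
      rcases h with h | h
      · exact Option.some_injective _ h.2
      · exact absurd h.1 (by simp)
    have hsub : ((S.image fun x : X => (s(none, some x) : Sym2 (Option X))) : Set (Sym2 (Option X)))
        ⊆ symmDiff (lg (coneE0 EH r)).edgeSet B'.edgeSet := by
      intro e he
      rw [Finset.mem_coe, Finset.mem_image] at he
      obtain ⟨x, hx, rfl⟩ := he
      rw [hS, List.mem_toFinset, List.mem_filter, decide_eq_true_eq] at hx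
      rw [Set.mem_symmDiff]
      left
      refine ⟨?_, ?_⟩
      · rw [SimpleGraph.mem_edgeSet]
        refine ⟨by simp, Or.inl ?_⟩
        unfold coneE0
        rw [List.mem_append, List.mem_map]
        left
        refine ⟨x, ?_, rfl⟩
        rw [List.mem_filter, decide_eq_true_eq]
        exact ⟨hx.1, hx.2.1⟩
      · rw [SimpleGraph.mem_edgeSet]
        exact hx.2.2
    have h1 := Set.encard_le_encard hsub
    rw [Set.encard_coe_eq_coe_finsetCard, Finset.card_image_of_injective _ hinj] at h1
    exact_mod_cast h1.trans hK
  · refine ⟨?_, ?_, ?_⟩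
    · intro h
      rw [List.mem_toFinset, List.mem_filter, decide_eq_true_eq] at h
      exact h.2.1 rfl
    · intro ρ hρ h
      rw [List.mem_toFinset, List.mem_filter, decide_eq_true_eq] at h
      refine h.2.2 (hPE (none, some ρ) ?_)
      unfold conePE
      rw [List.mem_append, List.mem_map, List.mem_map]
      exact Or.inr ⟨ρ, hρ, rfl⟩
    · intro b hb s t hst hbs hbt
      by_contra hcon
      rw [not_or, not_or, not_or] at hcon
      obtain ⟨⟨hsr, hsS⟩, ⟨htr, htS⟩⟩ := hcon
      have hnb : ¬ B'.Adj none (some b) := by
        rcases hb with rfl | hb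
        · refine hPN (none, some b) ?_
          unfold conePN
          rw [List.mem_append]
          right
          simp
        · rw [List.mem_toFinset, List.mem_filter, decide_eq_true_eq] at hb
          exact hb.2.2
      have hns : ∀ x, (lg EH).Adj b x → x ≠ r → x ∉ ((ends EH).filter fun x =>
          decide (x ≠ r ∧ ¬ B'.Adj none (some x))).toFinset → B'.Adj none (some x) := by
        intro x hx hxr hxS
        by_contra hno
        refine hxS ?_
        rw [List.mem_toFinset, List.mem_filter, decide_eq_true_eq]
        exact ⟨hends _ _ hx, hxr, hno⟩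
      have h1 := hns s hbs hsr hsS
      have h2 := hns t hbt htr htS
      have h3 : ¬ B'.Adj (some s) (some t) := by
        refine hPN (some s, some t) ?_
        unfold conePN
        rw [List.mem_append, List.mem_map]
        left
        refine ⟨(s, t), ?_, rfl⟩
        unfold p2
        rw [List.mem_flatMap]
        refine ⟨(b, s), hsym _ _ hbs, ?_⟩
        rw [List.mem_map]
        refine ⟨(b, t), ?_, rfl⟩
        rw [List.mem_filter, decide_eq_true_eq]
        exact ⟨hsym _ _ hbt, rfl, fun h => hst h.symm⟩
      rcases h4 none (some s) (some b) (some t) (by simp) (fun h => hst (Option.some_injective _ h))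
        h1 (hadj _ _ hbs).symm (hadj _ _ hbt) h2.symm with h | h
      · exact hnb h
      · exact h3 h

end Pool.Agent.EK
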