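import Pool.Agent.H719.EK.Four
import Pool.Agent.H719.EK.GadDefs

/-!
Edge modification and kernels: part CO2
-/

set_option autoImplicit false

namespace Pool.Agent.EK

/- Statement CO2. Plain proof. Let B' be the graph on Option X with: none ~ some x iff x ∈ ends EH, x ≠ r, x ∉ S; some x ~ some y iff
(lg EH).Adj x y. Compared to lg (coneE0 EH r) only edges none, some x with x ∈ S are removed, so the symmetric difference has
at most |S| ≤ K elements. The pairs of conePE are edges (for ρ ∈ R: ρ ∈ ends EH, ρ ≠ r, ρ ∉ S). The pairs of conePN are not edges: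
(s, t) ∈ p2 EH have a common neighbour, so they are not adjacent as H has no triangle; none, some r is not an edge.
C4free: an induced four-cycle inside some X is a four-cycle of H, impossible by Girth5. If the cycle contains none, say it
is none, some s, some b, some t with none not adjacent to some b; b is in ends EH (it has a neighbour in H), so b = r or b ∈ S; s, t are
neighbours of b, s ≠ t, and s, t are not r and not in S: contradiction to Good. -/
theorem cm_lg {X : Type} (E : List (X × X)) (x y : X) :
    (lg E).Adj x y ↔ x ≠ y ∧ ((x, y) ∈ E ∨ (y, x) ∈ E) := Iff.rfl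

theorem cm_ends {X : Type} (E : List (X × X)) (x y : X) (h : (lg E).Adj x y) : x ∈ ends E := by
  rw [cm_lg] at h
  unfold ends
  rw [List.mem_flatMap]
  rcases h.2 with h | h
  · exact ⟨_, h, by simp⟩
  · exact ⟨_, h, by simp⟩

theorem cm_none {X : Type} [DecidableEq X] (EH : List (X × X)) (r x : X) :
    (lg (coneE0 EH r)).Adj none (some x) ↔ x ∈ ends EH ∧ x ≠ r := by
  rw [cm_lg]
  simp [coneE0]

theorem cm_some {X : Type} [DecidableEq X] (EH : List (X × X)) (r x y : X) :
    (lg (coneE0 EH r)).Adj (some x) (some y) ↔ (lg EH).Adj x y := by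
  rw [cm_lg, cm_lg]
  simp [coneE0]

/-- the graph of the cone with the edges from the apex to `S` removed -/
def cmB {X : Type} (EH : List (X × X)) (r : X) (S : Finset X) : SimpleGraph (Option X) where
  Adj u v := match u, v with
    | none, none => False
    | none, some x => x ∈ ends EH ∧ x ≠ r ∧ x ∉ S
    | some x, none => x ∈ ends EH ∧ x ≠ r ∧ x ∉ S
    | some x, some y => (lg EH).Adj x y
  symm := ⟨by
    intro u v h
    cases u <;> cases v
    · exact h
    · exact h
    · exact h
    · exact SimpleGraph.Adj.symm h⟩
  loopless := ⟨by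
    intro u h
    cases u
    · exact h
    · exact (lg EH).loopless.irrefl _ h⟩

theorem cone_mpr {X : Type} [DecidableEq X] (EH : List (X × X)) (r : X) (R : List X) (K : ℕ)
    (hE : ∀ e ∈ EH, e.1 ≠ e.2) (hG : Girth5 (lg EH)) (hR : ∀ ρ ∈ R, ρ ∈ ends EH ∧ ρ ≠ r)
    (S : Finset X) (hS : S.card ≤ K) (hgood : Good (lg EH) r R S) :
    ∃ B' : SimpleGraph (Option X), C4free B' ∧ (∀ p ∈ conePE EH R, B'.Adj p.1 p.2) ∧
      (∀ p ∈ conePN EH r, ¬ B'.Adj p.1 p.2) ∧
      (symmDiff (lg (coneE0 EH r)).edgeSet B'.edgeSet).encard ≤ K := by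
  have hns : ∀ x, (cmB EH r S).Adj none (some x) ↔ x ∈ ends EH ∧ x ≠ r ∧ x ∉ S := fun x => Iff.rfl
  have hsn : ∀ x, (cmB EH r S).Adj (some x) none ↔ x ∈ ends EH ∧ x ≠ r ∧ x ∉ S := fun x => Iff.rfl
  have hss : ∀ x y, (cmB EH r S).Adj (some x) (some y) ↔ (lg EH).Adj x y := fun x y => Iff.rfl
  have hnn : ¬ (cmB EH r S).Adj none none := fun h => h
  have key : ∀ s m t : X, s ≠ t → (cmB EH r S).Adj none (some s) → (lg EH).Adj s m →
      (lg EH).Adj m t → (cmB EH r S).Adj none (some t) → (cmB EH r S).Adj none (some m) := by
    intro s m t hst h1 h2 h3 h4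
    rw [hns] at h1 h4 ⊢
    refine ⟨cm_ends EH m s h2.symm, ?_⟩
    by_contra hcon
    have hm : m = r ∨ m ∈ S := by
      by_cases hmr : m = r
      · exact Or.inl hmr
      · right
        by_contra hmS
        exact hcon ⟨hmr, hmS⟩
    rcases hgood.2.2 m hm s t hst h2.symm h3 with (h | h) | (h | h)
    · exact h1.2.1 h
    · exact h1.2.2 h
    · exact h4.2.1 h
    · exact h4.2.2 h
  have hadj : ∀ e ∈ sym2 EH, (lg EH).Adj e.1 e.2 := by
    intro e he
    unfold sym2 at he
    rw [List.mem_append] at he
    rcases he with he | he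
    · exact ⟨hE e he, Or.inl he⟩
    · rw [List.mem_map] at he
      obtain ⟨f, hf, rfl⟩ := he
      exact ⟨(hE f hf).symm, Or.inr hf⟩
  refine ⟨cmB EH r S, ?_, ?_, ?_, ?_⟩
  · intro a b c d hac hbd hab hbc hcd hda
    rcases a with _ | a
    · rcases b with _ | b
      · exact (hnn hab).elim
      rcases d with _ | d
      · exact (hnn hda).elim
      rcases c with _ | c
      · exact (hac rfl).elim
      left
      exact key b c d (fun h => hbd (by rw [h])) hab hbc hcd hda.symm
    rcases b with _ | b
    · rcases c with _ | c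
      · exact (hnn hbc).elim
      rcases d with _ | d
      · exact (hbd rfl).elim
      right
      exact key c d a (fun h => hac (by rw [h])) hbc hcd hda hab.symm
    rcases c with _ | c
    · rcases d with _ | d
      · exact (hnn hcd).elim
      left
      exact (key d a b (fun h => hbd (by rw [h])) hcd hda hab hbc.symm).symm
    rcases d with _ | d
    · right
      exact (key a b c (fun h => hac (by rw [h])) hda hab hbc hcd.symm).symm
    · exfalso
      rw [hss] at hab hbc hcd hda
      exact hbd (by rw [hG.2 a c b d (fun h => hac (by rw [h])) hab hbc.symm hda.symm hcd])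
  · intro p hp
    unfold conePE at hp
    rw [List.mem_append] at hp
    rcases hp with hp | hp
    · rw [List.mem_map] at hp
      obtain ⟨e, he, rfl⟩ := hp
      exact ⟨hE e he, Or.inl he⟩
    · rw [List.mem_map] at hp
      obtain ⟨v, hv, rfl⟩ := hp
      exact ⟨(hR v hv).1, (hR v hv).2, hgood.2.1 v hv⟩
  · intro p hp
    unfold conePN at hp
    rw [List.mem_append] at hp
    rcases hp with hp | hp
    · rw [List.mem_map] at hp
      obtain ⟨e, he, rfl⟩ := hp
      show ¬ (lg EH).Adj e.1 e.2
      unfold p2 at he
      rw [List.mem_flatMap] at he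
      obtain ⟨f, hf, he⟩ := he
      rw [List.mem_map] at he
      obtain ⟨g, hg, rfl⟩ := he
      rw [List.mem_filter, decide_eq_true_iff] at hg
      have h1 := hadj f hf
      have h2 := hadj g hg.1
      rw [hg.2.1] at h2
      exact hG.1 _ _ _ h1.symm h2
    · rw [List.mem_singleton] at hp
      rw [hp]
      show ¬ (cmB EH r S).Adj none (some r)
      rw [hns]
      exact fun h => h.2.1 rfl
  · have hsub : symmDiff (lg (coneE0 EH r)).edgeSet (cmB EH r S).edgeSet ⊆
        (fun x : X => (s(none, some x) : Sym2 (Option X))) '' (S : Set X) := by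
      intro e he
      have hcase : ∀ x : X, (((lg (coneE0 EH r)).Adj none (some x) ∧ ¬ (cmB EH r S).Adj none (some x)) ∨
          ((cmB EH r S).Adj none (some x) ∧ ¬ (lg (coneE0 EH r)).Adj none (some x))) → x ∈ S := by
        intro x hx
        rw [cm_none, hns] at hx
        by_contra hxS
        rcases hx with hx | hx
        · exact hx.2 ⟨hx.1.1, hx.1.2, hxS⟩
        · exact hx.2 ⟨hx.1.1, hx.1.2.1⟩
      rw [Set.mem_symmDiff] at he
      induction e using Sym2.ind with
      | _ u v =>
        simp only [SimpleGraph.mem_edgeSet] at he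
        rcases u with _ | u
        · rcases v with _ | v
          · rcases he with he | he
            · exact (he.1.1 rfl).elim
            · exact (hnn he.1).elim
          · exact ⟨v, Finset.mem_coe.2 (hcase v he), rfl⟩
        · rcases v with _ | v
          · refine ⟨u, Finset.mem_coe.2 (hcase u ?_), Sym2.eq_swap⟩
            rw [(lg (coneE0 EH r)).adj_comm none (some u), (cmB EH r S).adj_comm none (some u)]
            exact he
          · exfalso
            rw [cm_some, hss] at he
            rcases he with he | he
            · exact he.2 he.1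
            · exact he.2 he.1
    calc (symmDiff (lg (coneE0 EH r)).edgeSet (cmB EH r S).edgeSet).encard
        ≤ ((fun x : X => (s(none, some x) : Sym2 (Option X))) '' (S : Set X)).encard :=
          Set.encard_le_encard hsub
      _ ≤ (S : Set X).encard := Set.encard_image_le _ _
      _ = (S.card : ℕ∞) := Set.encard_coe_eq_coe_finsetCard S
      _ ≤ K := by exact_mod_cast hS

end Pool.Agent.EK
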