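import Pool.Agent.H719.EK.Hard

/-!
# Complements
-/

namespace Pool.Agent.EK

open Pool.Agent.NPC Pool.Agent.NPC.R671 Pool.Agent.CK Pool.Agent.H622R2

/-- The complement of an instance. -/
def Inst.compl (x : Inst) : Inst := ⟨x.n, x.Gᶜ, x.k⟩

theorem Inst.compl_compl (x : Inst) : x.compl.compl = x := by
  unfold Inst.compl
  simp

/-- The adjacency matrix of the complement. -/
def cmat (A : List (List Bool)) : List (List Bool) :=
  (List.range A.length).map fun i => (List.range A.length).map fun j =>
    decide (i ≠ j) && !(ent A i j)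

attribute [local fun_prop] p_rangeLen p_ent

theorem p_cmat : Poly cmat := by
  unfold cmat
  fun_prop

theorem cmat_adj {n : ℕ} (G : SimpleGraph (Fin n)) : cmat (adjMatrix G) = adjMatrix Gᶜ := by
  classical
  unfold cmat
  rw [adj_length]
  apply List.ext_getElem
  · simp [adjMatrix]
  · intro i h1 h2
    have hi : i < n := by simpa using h1
    apply List.ext_getElem
    · simp [adjMatrix]
    · intro j h3 h4
      have hj : j < n := by simpa using h3
      simp only [List.getElem_map, List.getElem_range]
      have h5 := adj_ent G ⟨i, hi⟩ ⟨j, hj⟩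
      have h6 : (adjMatrix Gᶜ)[i][j] = true ↔ (¬ i = j ∧ ¬ G.Adj ⟨i, hi⟩ ⟨j, hj⟩) := by
        simp [adjMatrix, SimpleGraph.compl_adj]
      rw [Bool.eq_iff_iff, h6, ← h5]
      simp

/-- The complement on codes. -/
def cc (x : List Bool) : List Bool :=
  match unbits (List (List Bool) × List Unit) x with
  | none => []
  | some y => bits (cmat y.1, y.2)

theorem p_cc : PolyTime cc := by
  refine polyTime_of_poly_list ?_
  have h2 := Poly.optCases (o := fun x => unbits (List (List Bool) × List Unit) x)
    (g := fun _ => ([] : List Bool)) (h := fun _ y => bits (cmat y.1, y.2))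
    poly_unbits (NPC.Poly.const _)
    (poly_bits.comp (NPC.Poly.pair (p_cmat.comp (NPC.Poly.fst (NPC.Poly.snd NPC.Poly.id)))
      (NPC.Poly.snd (NPC.Poly.snd NPC.Poly.id))))
  refine h2.congr fun x => ?_
  simp only [cc]
  cases unbits (List (List Bool) × List Unit) x <;> rfl

theorem cc_code (x : Inst) : cc x.code = x.compl.code := by
  simp only [cc, Inst.code, unbits_bits, Inst.compl, cmat_adj]

theorem sz_row (l l' : List Bool) (h : l.length = l'.length) : sz l ≤ 3 * sz l' := by
  induction l generalizing l' with
  | nil => have := sz_pos l'; simp; omega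
  | cons a l ih =>
    cases l' with
    | nil => simp at h
    | cons b l' =>
      have h1 := ih l' (by simpa using h)
      have h2 := sz_bool_le a
      have h3 := sz_pos b
      simp only [sz_list_cons]
      omega

theorem sz_mat (A A' : List (List Bool)) (h : A.map List.length = A'.map List.length) :
    sz A ≤ 3 * sz A' := by
  induction A generalizing A' with
  | nil => have := sz_pos A'; simp; omega
  | cons a A ih =>
    cases A' with
    | nil => simp at h
    | cons b A' =>
      simp only [List.map_cons, List.cons.injEq] at h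
      have h1 := ih A' h.2
      have h2 := sz_row a b h.1
      simp only [sz_list_cons]
      omega

theorem compl_size (x : Inst) : x.compl.size ≤ 3 * x.size := by
  obtain ⟨n, G, k⟩ := x
  change sz (adjMatrix Gᶜ, List.replicate k ()) ≤ 3 * sz (adjMatrix G, List.replicate k ())
  rw [sz_pair, sz_pair]
  have h := sz_mat (adjMatrix Gᶜ) (adjMatrix G) (by
    unfold adjMatrix
    simp [List.map_ofFn, Function.comp_def])
  omega

theorem symmDiff_compl {n : ℕ} (G G' : SimpleGraph (Fin n)) :
    (symmDiff Gᶜ.edgeSet G'ᶜ.edgeSet).ncard = (symmDiff G.edgeSet G'.edgeSet).ncard := by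
  congr 1
  ext e
  induction e using Sym2.ind with
  | _ u v =>
    simp only [Set.mem_symmDiff, SimpleGraph.mem_edgeSet, SimpleGraph.compl_adj]
    by_cases huv : u = v
    · subst huv
      simp
    · simp only [ne_eq, huv, not_false_eq_true, true_and, not_not]
      tauto

theorem compl_iff (x : Inst) : FreeMod Kind.editing {TwoK2} x.compl ↔
    FreeMod Kind.editing {C4} x := by
  rw [free_C4_iff, free_TwoK2_iff]
  obtain ⟨n, G, k⟩ := x
  change (∃ G' : SimpleGraph (Fin n), TKfree G' ∧ (symmDiff Gᶜ.edgeSet G'.edgeSet).ncard ≤ k) ↔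
    ∃ G' : SimpleGraph (Fin n), C4free G' ∧ (symmDiff G.edgeSet G'.edgeSet).ncard ≤ k
  constructor
  · rintro ⟨G', h1, h2⟩
    refine ⟨G'ᶜ, ?_, ?_⟩
    · rw [← tkfree_compl, _root_.compl_compl]
      exact h1
    · rw [← symmDiff_compl, _root_.compl_compl]
      exact h2
  · rintro ⟨G', h1, h2⟩
    refine ⟨G'ᶜ, (tkfree_compl G').2 h1, ?_⟩
    rw [← symmDiff_compl] at h2
    exact h2

/-- A kernel for `2 K2` gives one for `C4`. -/
theorem kernel_compl (h : HasPolyKernel (FreeMod Kind.editing {TwoK2})) :
    HasPolyKernel (FreeMod Kind.editing {C4}) := by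
  obtain ⟨F, p, hF, hker⟩ := h
  refine ⟨fun x => cc (F (cc x)), Polynomial.C 3 * p, ?_, fun x => ?_⟩
  · exact H642R2.TMSim.polyTime_comp p_cc (H642R2.TMSim.polyTime_comp hF p_cc)
  · obtain ⟨y, h1, h2, h3⟩ := hker x.compl
    refine ⟨y.compl, ?_, ?_, ?_⟩
    · simp only
      rw [cc_code, h1, cc_code]
    · rw [← compl_iff x, h2, ← compl_iff y.compl, Inst.compl_compl]
    · have h4 := compl_size y
      have h5 : x.compl.k = x.k := rfl
      rw [h5] at h3
      simp only [Polynomial.eval_mul, Polynomial.eval_C]
      omega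

end Pool.Agent.EK
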