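import Pool.Agent.NPC.Classes
import Pool.Agent.H671R2.ZDefs
import Pool.Agent.H671R2.CK.Defs

/-!
# Edge modification problems and polynomial kernels: definitions
-/

namespace Pool.Agent.EK

open Pool.Agent.NPC Pool.Agent.NPC.R671 Pool.Agent.CK

/-- An instance of an edge modification problem: a graph on the vertices `0, ..., n-1` and a
number `k`, the parameter. -/
structure Inst where
  /-- number of vertices -/
  n : ℕ
  /-- the graph -/
  G : SimpleGraph (Fin n)
  /-- the parameter -/
  k : ℕ

/-- The bit string coding an instance: the adjacency matrix, and `k` in unary. -/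
noncomputable def Inst.code (x : Inst) : List Bool := bits (adjMatrix x.G, List.replicate x.k ())

/-- The size of an instance: the length of its code. -/
noncomputable def Inst.size (x : Inst) : ℕ := x.code.length

/-- The three modification types. -/
inductive Kind
  | deletion
  | completion
  | editing

/-- Which modified graphs are allowed: for deletion only removing edges, for completion only
adding edges, for editing both. -/
def Kind.Allows {V : Type} : Kind → SimpleGraph V → SimpleGraph V → Prop
  | deletion, G, G' => G' ≤ G
  | completion, G, G' => G ≤ G'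
  | editing, _, _ => True

/-- A finite graph, on the vertices `0, ..., h-1`. -/
abbrev Pattern : Type := Σ h : ℕ, SimpleGraph (Fin h)

/-- No induced subgraph of `G` is isomorphic to a member of `𝓕`. -/
def IsFree (𝓕 : Set Pattern) {V : Type} (G : SimpleGraph V) : Prop :=
  ∀ H ∈ 𝓕, ¬ H.2.IsIndContained G

/-- The `𝓕`-free edge modification problem of type `M`: can `G` be made `𝓕`-free by changing at
most `k` edges? -/
def FreeMod (M : Kind) (𝓕 : Set Pattern) (x : Inst) : Prop :=
  ∃ G' : SimpleGraph (Fin x.n), M.Allows x.G G' ∧
    (symmDiff x.G.edgeSet G'.edgeSet).ncard ≤ x.k ∧ IsFree 𝓕 G'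

/-- A polynomial kernel: a polynomial-time algorithm which maps each instance to an equivalent
instance of the same problem whose size is bounded by a polynomial in `k`. -/
def HasPolyKernel (Q : Inst → Prop) : Prop :=
  ∃ (F : List Bool → List Bool) (p : Polynomial ℕ), PolyTime F ∧
    ∀ x : Inst, ∃ y : Inst, F x.code = y.code ∧ (Q x ↔ Q y) ∧ y.size ≤ p.eval x.k

/-- The cycle on four vertices. -/
def C4 : Pattern := ⟨4, SimpleGraph.cycleGraph 4⟩

/-- The complement of `C4`: two disjoint edges. -/
def TwoK2 : Pattern := ⟨4, (SimpleGraph.cycleGraph 4)ᶜ⟩

end Pool.Agent.EK
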