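import Pool.Agent.H719.EK.Four

/-!
Edge modification and kernels: part F4
-/

set_option autoImplicit false

namespace Pool.Agent.EK

/- Statement F4. Plain proof. An embedding of the four-cycle gives a b c d := images of 0 1 2 3; conversely, from a b c d violating
C4free define the map by ![a, b, c, d] (distinctness: a ≠ c, b ≠ d given, the others are adjacent), and check adjacency for the 16
pairs. For the second statement either argue in the same way (the complement of the four-cycle 0 1 2 3 has exactly the edges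
0 2 and 1 3) or use SimpleGraph.compl_isIndContained_compl. -/
theorem c4free_iff {V : Type} (G : SimpleGraph V) :
    ¬ (SimpleGraph.cycleGraph 4).IsIndContained G ↔ C4free G := by
  constructor
  · intro h a b c d hac hbd hab hbc hcd hda
    by_contra hcon
    push Not at hcon
    obtain ⟨h1, h2⟩ := hcon
    apply h
    have hab' := hab.ne
    have hbc' := hbc.ne
    have hcd' := hcd.ne
    have hda' := hda.ne
    have h1' : ¬ G.Adj c a := fun h => h1 h.symm
    have h2' : ¬ G.Adj d b := fun h => h2 h.symm
    refine ⟨⟨⟨![a, b, c, d], ?_⟩, ?_⟩⟩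
    · intro i j hij
      fin_cases i <;> fin_cases j <;> simp_all [hab'.symm, hbc'.symm, hcd'.symm, hda'.symm, hac.symm, hbd.symm]
    · intro i j
      show G.Adj (![a, b, c, d] i) (![a, b, c, d] j) ↔ _
      have e : ∀ i j : Fin 4, (SimpleGraph.cycleGraph 4).Adj i j ↔ (j = i + 1 ∨ i = j + 1) := by decide
      rw [e]
      fin_cases i <;> fin_cases j <;> simp [hab, hbc, hcd, hda, hab.symm, hbc.symm, hcd.symm, hda.symm, h1, h2, h1', h2']
  · rintro h ⟨f⟩
    have hA : ∀ i j, (SimpleGraph.cycleGraph 4).Adj i j → G.Adj (f i) (f j) := fun i j => f.map_rel_iff.2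
    have hN : ∀ i j, ¬ (SimpleGraph.cycleGraph 4).Adj i j → ¬ G.Adj (f i) (f j) := fun i j hn ha => hn (f.map_rel_iff.1 ha)
    rcases h (f 0) (f 1) (f 2) (f 3) (fun e => by have := f.injective e; revert this; decide)
      (fun e => by have := f.injective e; revert this; decide)
      (hA 0 1 (by decide)) (hA 1 2 (by decide)) (hA 2 3 (by decide)) (hA 3 0 (by decide)) with h1 | h1
    · exact hN 0 2 (by decide) h1
    · exact hN 1 3 (by decide) h1

theorem tkfree_compl {V : Type} (G : SimpleGraph V) : TKfree Gᶜ ↔ C4free G := by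
  constructor
  · intro h a b c d hac hbd hab hbc hcd hda
    by_contra hcon
    push Not at hcon
    obtain ⟨h1, h2⟩ := hcon
    have := h a c b d hab.ne hda.ne' hbc.ne' hcd.ne ((SimpleGraph.compl_adj G a c).2 ⟨hac, h1⟩)
      ((SimpleGraph.compl_adj G b d).2 ⟨hbd, h2⟩)
    simp only [SimpleGraph.compl_adj] at this
    rcases this with h3 | h3 | h3 | h3
    · exact h3.2 hab
    · exact h3.2 hda.symm
    · exact h3.2 hbc.symm
    · exact h3.2 hcd
  · intro h a b c d hac had hbc hbd hab hcd
    by_contra hcon
    simp only [SimpleGraph.compl_adj] at hcon hab hcd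
    push Not at hcon
    obtain ⟨h1, h2, h3, h4⟩ := hcon
    rcases h a c b d hab.1 hcd.1 (h1 hac) (h3 hbc).symm (h4 hbd) (h2 had).symm with h5 | h5
    · exact hab.2 h5
    · exact hcd.2 h5

theorem tkfree_iff {V : Type} (G : SimpleGraph V) :
    ¬ ((SimpleGraph.cycleGraph 4)ᶜ).IsIndContained G ↔ TKfree G := by
  have h1 : ((SimpleGraph.cycleGraph 4)ᶜ).IsIndContained G ↔ (SimpleGraph.cycleGraph 4).IsIndContained Gᶜ := by
    rw [← SimpleGraph.compl_isIndContained_compl, compl_compl]
  rw [h1, c4free_iff, ← tkfree_compl, compl_compl]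

end Pool.Agent.EK
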