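import Mathlib

/-!
# Four-vertex conditions
-/

namespace Pool.Agent.EK

/-- No induced four-cycle. -/
def C4free {V : Type} (G : SimpleGraph V) : Prop :=
  ∀ a b c d : V, a ≠ c → b ≠ d → G.Adj a b → G.Adj b c → G.Adj c d → G.Adj d a →
    G.Adj a c ∨ G.Adj b d

/-- No induced pair of disjoint edges. -/
def TKfree {V : Type} (G : SimpleGraph V) : Prop :=
  ∀ a b c d : V, a ≠ c → a ≠ d → b ≠ c → b ≠ d → G.Adj a b → G.Adj c d →
    G.Adj a c ∨ G.Adj a d ∨ G.Adj b c ∨ G.Adj b d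

/-- `s` is an induced five-cycle. -/
def IsC5 {V : Type} (G : SimpleGraph V) (s : Fin 5 → V) : Prop :=
  Function.Injective s ∧ ∀ i j, G.Adj (s i) (s j) ↔ (j = i + 1 ∨ i = j + 1)

/-- `C` is a clique and the vertices outside `C` and `S` are independent; the vertices of `C` are
adjacent to all vertices of `S` and the other vertices outside `S` to no vertex of `S`. -/
structure IsPS {V : Type} (G : SimpleGraph V) (S C : Set V) : Prop where
  disj : ∀ v ∈ C, v ∉ S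
  clique : ∀ u ∈ C, ∀ v ∈ C, u ≠ v → G.Adj u v
  indep : ∀ u, u ∉ C → u ∉ S → ∀ v, v ∉ C → v ∉ S → ¬ G.Adj u v
  full : ∀ u ∈ C, ∀ v ∈ S, G.Adj u v
  empty : ∀ u, u ∉ C → u ∉ S → ∀ v ∈ S, ¬ G.Adj u v

end Pool.Agent.EK
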