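import Pool.Agent.H719.EK.Four
import Pool.Agent.H719.EK.GadDefs

/-!
Edge modification and kernels: part G1
-/

set_option autoImplicit false

namespace Pool.Agent.EK

theorem mem_gadE_iff {C : Type} (E0 PE PN : List (C × C)) (q : ℕ) (e : GV C × GV C) :
    e ∈ gadE E0 PE PN q ↔ (∃ d ∈ E0, e = (Sum.inl d.1, Sum.inl d.2)) ∨
      (∃ p ∈ PE, ∃ i < q, e = (Sum.inr (true, p, i, false), Sum.inl p.1) ∨
        e = (Sum.inr (true, p, i, false), Sum.inl p.2) ∨
        e = (Sum.inr (true, p, i, true), Sum.inl p.1) ∨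
        e = (Sum.inr (true, p, i, true), Sum.inl p.2)) ∨
      (∃ p ∈ PN, ∃ i < q, e = (Sum.inr (false, p, i, false), Sum.inl p.1) ∨
        e = (Sum.inr (false, p, i, true), Sum.inl p.2) ∨
        e = (Sum.inr (false, p, i, false), Sum.inr (false, p, i, true))) := by
  unfold gadE
  rw [List.mem_append, List.mem_append]
  refine or_congr ?_ (or_congr ?_ ?_)
  · rw [List.mem_map]
    constructor
    · rintro ⟨d, hd, h⟩
      exact ⟨d, hd, h.symm⟩
    · rintro ⟨d, hd, h⟩
      exact ⟨d, hd, h.symm⟩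
  · simp only [List.mem_flatMap, List.mem_range, List.mem_cons, List.not_mem_nil, or_false]
  · simp only [List.mem_flatMap, List.mem_range, List.mem_cons, List.not_mem_nil, or_false]

theorem count_aux {C : Type} (A : Set (Sym2 (GV C))) (q : ℕ)
    (h : ∀ i, i < q → ∃ e ∈ A, (∃ w : Bool × (C × C) × ℕ × Bool, (Sum.inr w : GV C) ∈ e ∧
      w.2.2.1 = i) ∧ ∀ w : Bool × (C × C) × ℕ × Bool, (Sum.inr w : GV C) ∈ e → w.2.2.1 = i) :
    (q : ℕ∞) ≤ A.encard := by
  classical
  rcases Nat.eq_zero_or_pos q with h0 | hpos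
  · rw [h0]
    simp
  haveI : Nonempty (Sym2 (GV C)) := ⟨(h 0 hpos).choose⟩
  choose! e he using h
  have hinj : Set.InjOn e (↑(Finset.range q) : Set ℕ) := by
    intro i hi j hj hij
    have hi' : i < q := by simpa using hi
    have hj' : j < q := by simpa using hj
    obtain ⟨w, hw, hwi⟩ := (he i hi').2.1
    rw [hij] at hw
    have := (he j hj').2.2 w hw
    rw [← hwi, this]
  have h1 : (e '' (↑(Finset.range q) : Set ℕ)).encard = q := by
    rw [hinj.encard_image, Set.encard_coe_eq_coe_finsetCard, Finset.card_range]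
  rw [← h1]
  apply Set.encard_le_encard
  rintro x ⟨i, hi, rfl⟩
  have hi' : i < q := by simpa using hi
  exact (he i hi').1

theorem edit_left {V : Type} {G G' : SimpleGraph V} {a b : V} (h : G.Adj a b) (h' : ¬ G'.Adj a b) :
    s(a, b) ∈ symmDiff G.edgeSet G'.edgeSet := by
  rw [Set.mem_symmDiff]
  left
  exact ⟨h, h'⟩

theorem edit_right {V : Type} {G G' : SimpleGraph V} {a b : V} (h : ¬ G.Adj a b)
    (h' : G'.Adj a b) : s(a, b) ∈ symmDiff G.edgeSet G'.edgeSet := by
  rw [Set.mem_symmDiff]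
  right
  exact ⟨h', h⟩

theorem idx1 {C : Type} (c : C) (w0 : Bool × (C × C) × ℕ × Bool) (i : ℕ) (hi : w0.2.2.1 = i) :
    (∃ w : Bool × (C × C) × ℕ × Bool, (Sum.inr w : GV C) ∈ (s(Sum.inl c, Sum.inr w0) : Sym2 (GV C)) ∧
      w.2.2.1 = i) ∧ ∀ w : Bool × (C × C) × ℕ × Bool,
      (Sum.inr w : GV C) ∈ (s(Sum.inl c, Sum.inr w0) : Sym2 (GV C)) → w.2.2.1 = i := by
  refine ⟨⟨w0, Sym2.mem_mk_right _ _, hi⟩, ?_⟩
  intro w hw
  rw [Sym2.mem_iff] at hw
  rcases hw with hw | hw
  · exact absurd hw (by simp)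
  · rw [Sum.inr.injEq] at hw
    rw [hw, hi]

theorem idx2 {C : Type} (w1 w0 : Bool × (C × C) × ℕ × Bool) (i : ℕ) (hi1 : w1.2.2.1 = i)
    (hi : w0.2.2.1 = i) :
    (∃ w : Bool × (C × C) × ℕ × Bool, (Sum.inr w : GV C) ∈ (s(Sum.inr w1, Sum.inr w0) : Sym2 (GV C)) ∧
      w.2.2.1 = i) ∧ ∀ w : Bool × (C × C) × ℕ × Bool,
      (Sum.inr w : GV C) ∈ (s(Sum.inr w1, Sum.inr w0) : Sym2 (GV C)) → w.2.2.1 = i := by
  refine ⟨⟨w0, Sym2.mem_mk_right _ _, hi⟩, ?_⟩
  intro w hw
  rw [Sym2.mem_iff] at hw
  rcases hw with hw | hw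
  · rw [Sum.inr.injEq] at hw
    rw [hw, hi1]
  · rw [Sum.inr.injEq] at hw
    rw [hw, hi]

/- Statement G1. Plain proof. Let Γ be the gadget graph. Let p be in PE and suppose u = inl p.1, v = inl p.2 are not adjacent
in G'. For i < q let g0 = inr (true, p, i, false), g1 = inr (true, p, i, true). In Γ, g0 and g1 are adjacent to u and v and
not to each other. If none of the pairs u g0, v g0, u g1, v g1, g0 g1 is in the symmetric difference of the edge sets, then
u, g0, v, g1 is an induced four-cycle of G', contradiction. So for each i < q there is a pair e_i in the symmetric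
difference which contains g0 or g1 (index i) and no vertex inr (_, _, j, _) with j ≠ i. The map i ↦ e_i is injective, so the
symmetric difference has at least q elements, contradiction. The case of p in PN is similar: if u and v were adjacent in G',
then u - g0 - g1 - v - u would be an induced four-cycle of G' unless one of the pairs u g0, g0 g1, g1 v, u g1, v g0 is
edited (g0 = inr (false, p, i, false), g1 = inr (false, p, i, true)). -/
theorem protect {C : Type} (E0 PE PN : List (C × C)) (q : ℕ) (G' : SimpleGraph (GV C)) (h4 : C4free G')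
    (hq : (symmDiff (lg (gadE E0 PE PN q)).edgeSet G'.edgeSet).encard < q) :
    (∀ p ∈ PE, p.1 ≠ p.2 → G'.Adj (Sum.inl p.1) (Sum.inl p.2)) ∧
      ∀ p ∈ PN, p.1 ≠ p.2 → ¬ G'.Adj (Sum.inl p.1) (Sum.inl p.2) := by
  classical
  constructor
  · intro p hp hne
    by_contra hcon
    refine absurd (count_aux (symmDiff (lg (gadE E0 PE PN q)).edgeSet G'.edgeSet) q ?_)
      (not_le.mpr hq)
    intro i hi
    have a1 : (lg (gadE E0 PE PN q)).Adj (Sum.inl p.1) (Sum.inr (true, p, i, false)) := by
      refine ⟨by simp, Or.inr ?_⟩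
      rw [mem_gadE_iff]
      exact Or.inr (Or.inl ⟨p, hp, i, hi, Or.inl rfl⟩)
    have a2 : (lg (gadE E0 PE PN q)).Adj (Sum.inl p.2) (Sum.inr (true, p, i, false)) := by
      refine ⟨by simp, Or.inr ?_⟩
      rw [mem_gadE_iff]
      exact Or.inr (Or.inl ⟨p, hp, i, hi, Or.inr (Or.inl rfl)⟩)
    have a3 : (lg (gadE E0 PE PN q)).Adj (Sum.inl p.1) (Sum.inr (true, p, i, true)) := by
      refine ⟨by simp, Or.inr ?_⟩
      rw [mem_gadE_iff]
      exact Or.inr (Or.inl ⟨p, hp, i, hi, Or.inr (Or.inr (Or.inl rfl))⟩)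
    have a4 : (lg (gadE E0 PE PN q)).Adj (Sum.inl p.2) (Sum.inr (true, p, i, true)) := by
      refine ⟨by simp, Or.inr ?_⟩
      rw [mem_gadE_iff]
      exact Or.inr (Or.inl ⟨p, hp, i, hi, Or.inr (Or.inr (Or.inr rfl))⟩)
    have a5 : ¬ (lg (gadE E0 PE PN q)).Adj (Sum.inr (true, p, i, false))
        (Sum.inr (true, p, i, true)) := by
      rintro ⟨-, h | h⟩
      · rw [mem_gadE_iff] at h
        rcases h with ⟨d, _, h⟩ | ⟨p', _, i', _, h⟩ | ⟨p', _, i', _, h⟩
        · simp at h
        · rcases h with h | h | h | h <;> simp at h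
        · rcases h with h | h | h <;> simp at h
      · rw [mem_gadE_iff] at h
        rcases h with ⟨d, _, h⟩ | ⟨p', _, i', _, h⟩ | ⟨p', _, i', _, h⟩
        · simp at h
        · rcases h with h | h | h | h <;> simp at h
        · rcases h with h | h | h <;> simp at h
    by_cases b1 : G'.Adj (Sum.inl p.1) (Sum.inr (true, p, i, false))
    · by_cases b2 : G'.Adj (Sum.inl p.2) (Sum.inr (true, p, i, false))
      · by_cases b3 : G'.Adj (Sum.inl p.1) (Sum.inr (true, p, i, true))
        · by_cases b4 : G'.Adj (Sum.inl p.2) (Sum.inr (true, p, i, true))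
          · rcases h4 (Sum.inl p.1) (Sum.inr (true, p, i, false)) (Sum.inl p.2)
              (Sum.inr (true, p, i, true)) (by simpa using hne) (by simp) b1 b2.symm b4 b3.symm
              with h | h
            · exact absurd h hcon
            · exact ⟨_, edit_right a5 h, idx2 _ _ i rfl rfl⟩
          · exact ⟨_, edit_left a4 b4, idx1 _ _ i rfl⟩
        · exact ⟨_, edit_left a3 b3, idx1 _ _ i rfl⟩
      · exact ⟨_, edit_left a2 b2, idx1 _ _ i rfl⟩
    · exact ⟨_, edit_left a1 b1, idx1 _ _ i rfl⟩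
  · intro p hp hne hcon
    refine absurd (count_aux (symmDiff (lg (gadE E0 PE PN q)).edgeSet G'.edgeSet) q ?_)
      (not_le.mpr hq)
    intro i hi
    have a1 : (lg (gadE E0 PE PN q)).Adj (Sum.inl p.1) (Sum.inr (false, p, i, false)) := by
      refine ⟨by simp, Or.inr ?_⟩
      rw [mem_gadE_iff]
      exact Or.inr (Or.inr ⟨p, hp, i, hi, Or.inl rfl⟩)
    have a2 : (lg (gadE E0 PE PN q)).Adj (Sum.inl p.2) (Sum.inr (false, p, i, true)) := by
      refine ⟨by simp, Or.inr ?_⟩
      rw [mem_gadE_iff]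
      exact Or.inr (Or.inr ⟨p, hp, i, hi, Or.inr (Or.inl rfl)⟩)
    have a3 : (lg (gadE E0 PE PN q)).Adj (Sum.inr (false, p, i, false))
        (Sum.inr (false, p, i, true)) := by
      refine ⟨by simp, Or.inl ?_⟩
      rw [mem_gadE_iff]
      exact Or.inr (Or.inr ⟨p, hp, i, hi, Or.inr (Or.inr rfl)⟩)
    have a4 : ¬ (lg (gadE E0 PE PN q)).Adj (Sum.inl p.1) (Sum.inr (false, p, i, true)) := by
      rintro ⟨-, h | h⟩
      · rw [mem_gadE_iff] at h
        rcases h with ⟨d, _, h⟩ | ⟨p', _, i', _, h⟩ | ⟨p', _, i', _, h⟩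
        · simp at h
        · rcases h with h | h | h | h <;> simp at h
        · rcases h with h | h | h <;> simp at h
      · rw [mem_gadE_iff] at h
        rcases h with ⟨d, _, h⟩ | ⟨p', _, i', _, h⟩ | ⟨p', _, i', _, h⟩
        · simp at h
        · rcases h with h | h | h | h <;> simp at h
        · rcases h with h | h | h
          · simp at h
          · simp only [Prod.mk.injEq, Sum.inr.injEq, Sum.inl.injEq] at h
            obtain ⟨⟨_, hpp, _⟩, h2⟩ := h
            rw [← hpp] at h2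
            exact hne h2
          · simp at h
    have a5 : ¬ (lg (gadE E0 PE PN q)).Adj (Sum.inl p.2) (Sum.inr (false, p, i, false)) := by
      rintro ⟨-, h | h⟩
      · rw [mem_gadE_iff] at h
        rcases h with ⟨d, _, h⟩ | ⟨p', _, i', _, h⟩ | ⟨p', _, i', _, h⟩
        · simp at h
        · rcases h with h | h | h | h <;> simp at h
        · rcases h with h | h | h <;> simp at h
      · rw [mem_gadE_iff] at h
        rcases h with ⟨d, _, h⟩ | ⟨p', _, i', _, h⟩ | ⟨p', _, i', _, h⟩
        · simp at h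
        · rcases h with h | h | h | h <;> simp at h
        · rcases h with h | h | h
          · simp only [Prod.mk.injEq, Sum.inr.injEq, Sum.inl.injEq] at h
            obtain ⟨⟨_, hpp, _⟩, h2⟩ := h
            rw [← hpp] at h2
            exact hne h2.symm
          · simp at h
          · simp at h
    by_cases b1 : G'.Adj (Sum.inl p.1) (Sum.inr (false, p, i, false))
    · by_cases b2 : G'.Adj (Sum.inl p.2) (Sum.inr (false, p, i, true))
      · by_cases b3 : G'.Adj (Sum.inr (false, p, i, false)) (Sum.inr (false, p, i, true))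
        · rcases h4 (Sum.inl p.1) (Sum.inr (false, p, i, false)) (Sum.inr (false, p, i, true))
              (Sum.inl p.2) (by simp) (by simp) b1 b3 b2.symm hcon.symm
              with h | h
          · exact ⟨_, edit_right a4 h, idx1 _ _ i rfl⟩
          · exact ⟨_, edit_right a5 h.symm, idx1 _ _ i rfl⟩
        · exact ⟨_, edit_left a3 b3, idx2 _ _ i rfl rfl⟩
      · exact ⟨_, edit_left a2 b2, idx1 _ _ i rfl⟩
    · exact ⟨_, edit_left a1 b1, idx1 _ _ i rfl⟩

end Pool.Agent.EK
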