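import Pool.Agent.H719.EK.Four
import Pool.Agent.H719.EK.GadDefs

/-!
Edge modification and kernels: part G2
-/

set_option autoImplicit false

namespace Pool.Agent.EK

theorem g2_mem {C : Type} (E0 PE PN : List (C × C)) (q : ℕ) (x y : GV C) :
    (x, y) ∈ gadE E0 PE PN q ↔ (∃ e ∈ E0, x = Sum.inl e.1 ∧ y = Sum.inl e.2) ∨
      (∃ p ∈ PE, ∃ i < q, (∃ b, x = Sum.inr (true, p, i, b) ∧ (y = Sum.inl p.1 ∨ y = Sum.inl p.2))) ∨
      (∃ p ∈ PN, ∃ i < q, ((x = Sum.inr (false, p, i, false) ∧ y = Sum.inl p.1) ∨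
        (x = Sum.inr (false, p, i, true) ∧ y = Sum.inl p.2) ∨
        (x = Sum.inr (false, p, i, false) ∧ y = Sum.inr (false, p, i, true)))) := by
  rw [gadE, List.mem_append, List.mem_append, List.mem_map, List.mem_flatMap, List.mem_flatMap]
  apply or_congr
  · constructor
    · rintro ⟨e, he, h⟩
      rw [Prod.mk.injEq] at h
      exact ⟨e, he, h.1.symm, h.2.symm⟩
    · rintro ⟨e, he, h1, h2⟩
      exact ⟨e, he, by rw [h1, h2]⟩
  apply or_congr
  · apply exists_congr
    intro p
    apply and_congr_right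
    intro _
    rw [List.mem_flatMap]
    apply exists_congr
    intro i
    rw [List.mem_range]
    apply and_congr_right
    intro _
    simp only [List.mem_cons, Prod.mk.injEq, List.not_mem_nil, or_false, Bool.exists_bool]
    tauto
  · apply exists_congr
    intro p
    apply and_congr_right
    intro _
    rw [List.mem_flatMap]
    apply exists_congr
    intro i
    rw [List.mem_range]
    apply and_congr_right
    intro _
    simp only [List.mem_cons, Prod.mk.injEq, List.not_mem_nil, or_false]

theorem g2_core {C : Type} (E0 PE PN : List (C × C)) (q : ℕ) (u w : C) :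
    (lg (gadE E0 PE PN q)).Adj (Sum.inl u) (Sum.inl w) ↔ (lg E0).Adj u w := by
  have h : ∀ u w : C, ((Sum.inl u : GV C), (Sum.inl w : GV C)) ∈ gadE E0 PE PN q ↔ (u, w) ∈ E0 := by
    intro u w
    rw [g2_mem]
    constructor
    · rintro (⟨e, he, h1, h2⟩ | ⟨p, hp, i, hi, b, h1, h2⟩ | ⟨p, hp, i, hi, h1 | h1 | h1⟩)
      · rw [Sum.inl.injEq] at h1 h2
        rw [h1, h2]
        exact he
      · exact absurd h1 (by simp)
      · exact absurd h1.1 (by simp)
      · exact absurd h1.1 (by simp)
      · exact absurd h1.1 (by simp)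
    · intro h
      exact Or.inl ⟨(u, w), h, rfl, rfl⟩
  change (Sum.inl u : GV C) ≠ Sum.inl w ∧ _ ↔ u ≠ w ∧ _
  rw [h, h, ne_eq, Sum.inl.injEq]

/-- neighbours of the vertices of a gadget which protects an edge -/
theorem g2_true {C : Type} {E0 PE PN : List (C × C)} {q : ℕ} {p : C × C} {i : ℕ} {b : Bool}
    {y : GV C} (h : (lg (gadE E0 PE PN q)).Adj (Sum.inr (true, p, i, b)) y) :
    p ∈ PE ∧ (y = Sum.inl p.1 ∨ y = Sum.inl p.2) := by
  rcases h.2 with h | h
  · rw [g2_mem] at h
    rcases h with ⟨e, he, h1, h2⟩ | ⟨p', hp, i', hi, b', h1, h2⟩ | ⟨p', hp, i', hi, h1 | h1 | h1⟩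
    · exact absurd h1 (by simp)
    · simp only [Sum.inr.injEq, Prod.mk.injEq, true_and] at h1
      obtain ⟨rfl, rfl, rfl⟩ := h1
      exact ⟨hp, h2⟩
    · exact absurd h1.1 (by simp)
    · exact absurd h1.1 (by simp)
    · exact absurd h1.1 (by simp)
  · rw [g2_mem] at h
    rcases h with ⟨e, he, h1, h2⟩ | ⟨p', hp, i', hi, b', h1, h2 | h2⟩ | ⟨p', hp, i', hi, h1 | h1 | h1⟩
    · exact absurd h2 (by simp)
    · exact absurd h2 (by simp)
    · exact absurd h2 (by simp)
    · exact absurd h1.2 (by simp)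
    · exact absurd h1.2 (by simp)
    · exact absurd h1.2 (by simp)

/-- neighbours of the first vertex of a gadget which protects a non-edge -/
theorem g2_ff {C : Type} {E0 PE PN : List (C × C)} {q : ℕ} {p : C × C} {i : ℕ}
    {y : GV C} (h : (lg (gadE E0 PE PN q)).Adj (Sum.inr (false, p, i, false)) y) :
    p ∈ PN ∧ (y = Sum.inl p.1 ∨ y = Sum.inr (false, p, i, true)) := by
  rcases h.2 with h | h
  · rw [g2_mem] at h
    rcases h with ⟨e, he, h1, h2⟩ | ⟨p', hp, i', hi, b', h1, h2⟩ | ⟨p', hp, i', hi, h1 | h1 | h1⟩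
    · exact absurd h1 (by simp)
    · exact absurd h1 (by simp)
    · obtain ⟨h1, h2⟩ := h1
      simp only [Sum.inr.injEq, Prod.mk.injEq, true_and, and_true] at h1
      obtain ⟨rfl, rfl⟩ := h1
      exact ⟨hp, Or.inl h2⟩
    · exact absurd h1.1 (by simp)
    · obtain ⟨h1, h2⟩ := h1
      simp only [Sum.inr.injEq, Prod.mk.injEq, true_and, and_true] at h1
      obtain ⟨rfl, rfl⟩ := h1
      exact ⟨hp, Or.inr h2⟩
  · rw [g2_mem] at h
    rcases h with ⟨e, he, h1, h2⟩ | ⟨p', hp, i', hi, b', h1, h2 | h2⟩ | ⟨p', hp, i', hi, h1 | h1 | h1⟩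
    · exact absurd h2 (by simp)
    · exact absurd h2 (by simp)
    · exact absurd h2 (by simp)
    · exact absurd h1.2 (by simp)
    · exact absurd h1.2 (by simp)
    · exact absurd h1.2 (by simp)

/-- neighbours of the second vertex of a gadget which protects a non-edge -/
theorem g2_ft {C : Type} {E0 PE PN : List (C × C)} {q : ℕ} {p : C × C} {i : ℕ}
    {y : GV C} (h : (lg (gadE E0 PE PN q)).Adj (Sum.inr (false, p, i, true)) y) :
    p ∈ PN ∧ (y = Sum.inl p.2 ∨ y = Sum.inr (false, p, i, false)) := by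
  rcases h.2 with h | h
  · rw [g2_mem] at h
    rcases h with ⟨e, he, h1, h2⟩ | ⟨p', hp, i', hi, b', h1, h2⟩ | ⟨p', hp, i', hi, h1 | h1 | h1⟩
    · exact absurd h1 (by simp)
    · exact absurd h1 (by simp)
    · exact absurd h1.1 (by simp)
    · obtain ⟨h1, h2⟩ := h1
      simp only [Sum.inr.injEq, Prod.mk.injEq, true_and, and_true] at h1
      obtain ⟨rfl, rfl⟩ := h1
      exact ⟨hp, Or.inl h2⟩
    · exact absurd h1.1 (by simp)
  · rw [g2_mem] at h
    rcases h with ⟨e, he, h1, h2⟩ | ⟨p', hp, i', hi, b', h1, h2 | h2⟩ | ⟨p', hp, i', hi, h1 | h1 | h1⟩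
    · exact absurd h2 (by simp)
    · exact absurd h2 (by simp)
    · exact absurd h2 (by simp)
    · exact absurd h1.2 (by simp)
    · exact absurd h1.2 (by simp)
    · obtain ⟨h1, h2⟩ := h1
      simp only [Sum.inr.injEq, Prod.mk.injEq, true_and, and_true] at h2
      obtain ⟨rfl, rfl⟩ := h2
      exact ⟨hp, Or.inr h1⟩

/-- adjacency of the extended graph -/
def g2_Adj {C : Type} (E0 PE PN : List (C × C)) (q : ℕ) (B' : SimpleGraph C) (x y : GV C) : Prop :=
  match x, y with
  | Sum.inl u, Sum.inl w => B'.Adj u w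
  | Sum.inl u, Sum.inr z => (lg (gadE E0 PE PN q)).Adj (Sum.inl u) (Sum.inr z)
  | Sum.inr z, y => (lg (gadE E0 PE PN q)).Adj (Sum.inr z) y

/-- the extended graph -/
def g2_G {C : Type} (E0 PE PN : List (C × C)) (q : ℕ) (B' : SimpleGraph C) : SimpleGraph (GV C) where
  Adj := g2_Adj E0 PE PN q B'
  symm := ⟨fun x y h => by
    rcases x with u | z <;> rcases y with w | z'
    · exact SimpleGraph.Adj.symm (G := B') h
    · exact SimpleGraph.Adj.symm (G := lg (gadE E0 PE PN q)) h
    · exact SimpleGraph.Adj.symm (G := lg (gadE E0 PE PN q)) h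
    · exact SimpleGraph.Adj.symm (G := lg (gadE E0 PE PN q)) h⟩
  loopless := ⟨fun x h => by
    rcases x with u | z
    · exact B'.irrefl h
    · exact (lg (gadE E0 PE PN q)).irrefl h⟩

theorem g2_cyc {C : Type} {E0 PE PN : List (C × C)} {q : ℕ} {B' : SimpleGraph C}
    (hPE : ∀ p ∈ PE, B'.Adj p.1 p.2) (hPN : ∀ p ∈ PN, ¬ B'.Adj p.1 p.2)
    (z : Bool × (C × C) × ℕ × Bool) (b c d : GV C) (hac : Sum.inr z ≠ c) (hbd : b ≠ d)
    (h1 : (g2_G E0 PE PN q B').Adj (Sum.inr z) b) (h2 : (g2_G E0 PE PN q B').Adj b c)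
    (h3 : (g2_G E0 PE PN q B').Adj c d) (h4 : (g2_G E0 PE PN q B').Adj d (Sum.inr z)) :
    (g2_G E0 PE PN q B').Adj b d := by
  have h1' : (lg (gadE E0 PE PN q)).Adj (Sum.inr z) b := h1
  have h4' : (lg (gadE E0 PE PN q)).Adj (Sum.inr z) d := SimpleGraph.Adj.symm (G := g2_G E0 PE PN q B') h4
  obtain ⟨κ, p, i, s⟩ := z
  rcases κ with _ | _
  · rcases s with _ | _
    · obtain ⟨hp, hb⟩ := g2_ff h1'
      obtain ⟨-, hd⟩ := g2_ff h4'
      exfalso
      rcases hb with rfl | rfl
      · rcases hd with rfl | rfl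
        · exact hbd rfl
        · have h5 : (lg (gadE E0 PE PN q)).Adj (Sum.inr (false, p, i, true)) c :=
            SimpleGraph.Adj.symm (G := g2_G E0 PE PN q B') h3
          obtain ⟨-, hc⟩ := g2_ft h5
          rcases hc with rfl | rfl
          · exact hPN p hp h2
          · exact hac rfl
      · rcases hd with rfl | rfl
        · have h5 : (lg (gadE E0 PE PN q)).Adj (Sum.inr (false, p, i, true)) c := h2
          obtain ⟨-, hc⟩ := g2_ft h5
          rcases hc with rfl | rfl
          · exact hPN p hp (SimpleGraph.Adj.symm (G := B') h3)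
          · exact hac rfl
        · exact hbd rfl
    · obtain ⟨hp, hb⟩ := g2_ft h1'
      obtain ⟨-, hd⟩ := g2_ft h4'
      exfalso
      rcases hb with rfl | rfl
      · rcases hd with rfl | rfl
        · exact hbd rfl
        · have h5 : (lg (gadE E0 PE PN q)).Adj (Sum.inr (false, p, i, false)) c :=
            SimpleGraph.Adj.symm (G := g2_G E0 PE PN q B') h3
          obtain ⟨-, hc⟩ := g2_ff h5
          rcases hc with rfl | rfl
          · exact hPN p hp (SimpleGraph.Adj.symm (G := B') h2)
          · exact hac rfl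
      · rcases hd with rfl | rfl
        · have h5 : (lg (gadE E0 PE PN q)).Adj (Sum.inr (false, p, i, false)) c := h2
          obtain ⟨-, hc⟩ := g2_ff h5
          rcases hc with rfl | rfl
          · exact hPN p hp h3
          · exact hac rfl
        · exact hbd rfl
  · obtain ⟨hp, hb⟩ := g2_true h1'
    obtain ⟨-, hd⟩ := g2_true h4'
    rcases hb with rfl | rfl
    · rcases hd with rfl | rfl
      · exact absurd rfl hbd
      · exact hPE p hp
    · rcases hd with rfl | rfl
      · exact SimpleGraph.Adj.symm (G := B') (hPE p hp)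
      · exact absurd rfl hbd

/- Statement G2. Plain proof. Define G' on GV C by: two core vertices inl u, inl w are adjacent iff B'.Adj u w; other
pairs are adjacent iff they are adjacent in Γ = lg (gadE E0 PE PN q). The symmetric difference of the edge sets is the image
of that of lg E0 and B' under inl (Γ.Adj (inl u) (inl w) ↔ (lg E0).Adj u w). C4free: a gadget vertex inr (true, p, i, b) is
adjacent in G' exactly to inl p.1 and inl p.2 (if p ∈ PE, i < q), which are adjacent in G'; in an induced four-cycle the two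
neighbours of a vertex are different and not adjacent, so such a vertex is in no induced four-cycle. g0 = inr (false, p, i, false) is
adjacent exactly to inl p.1 and g1 = inr (false, p, i, true), and g1 exactly to inl p.2 and g0; if g0 or g1 is in an induced
four-cycle then this cycle is inl p.1, g0, g1, inl p.2, hence inl p.1 and inl p.2 are adjacent, contradiction to hPN. An induced
four-cycle of core vertices contradicts C4free B'. -/
theorem extend {C : Type} (E0 PE PN : List (C × C)) (q : ℕ) (B' : SimpleGraph C) (h4 : C4free B')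
    (hPE : ∀ p ∈ PE, B'.Adj p.1 p.2) (hPN : ∀ p ∈ PN, ¬ B'.Adj p.1 p.2) :
    ∃ G' : SimpleGraph (GV C), C4free G' ∧
      (symmDiff (lg (gadE E0 PE PN q)).edgeSet G'.edgeSet).encard ≤
        (symmDiff (lg E0).edgeSet B'.edgeSet).encard := by
  refine ⟨g2_G E0 PE PN q B', ?_, ?_⟩
  · intro a b c d hac hbd h1 h2 h3 h5
    rcases a with a | z
    · rcases b with b | z
      · rcases c with c | z
        · rcases d with d | z
          · exact h4 a b c d (fun h => hac (by rw [h])) (fun h => hbd (by rw [h])) h1 h2 h3 h5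
          · exact Or.inl (g2_cyc hPE hPN z (Sum.inl a) (Sum.inl b) (Sum.inl c) hbd.symm hac h5 h1 h2 h3)
        · exact Or.inr (SimpleGraph.Adj.symm (G := g2_G E0 PE PN q B')
            (g2_cyc hPE hPN z d (Sum.inl a) (Sum.inl b) hac.symm hbd.symm h3 h5 h1 h2))
      · exact Or.inl (SimpleGraph.Adj.symm (G := g2_G E0 PE PN q B')
          (g2_cyc hPE hPN z c d (Sum.inl a) hbd hac.symm h2 h3 h5 h1))
    · exact Or.inr (g2_cyc hPE hPN z b c d hac hbd h1 h2 h3 h5)
  · have hsub : symmDiff (lg (gadE E0 PE PN q)).edgeSet (g2_G E0 PE PN q B').edgeSet ⊆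
        Sym2.map Sum.inl '' symmDiff (lg E0).edgeSet B'.edgeSet := by
      intro e he
      induction e with
      | _ x y =>
        rw [Set.mem_symmDiff, SimpleGraph.mem_edgeSet, SimpleGraph.mem_edgeSet] at he
        rcases x with u | z
        · rcases y with w | z'
          · refine ⟨s(u, w), ?_, rfl⟩
            rw [Set.mem_symmDiff, SimpleGraph.mem_edgeSet, SimpleGraph.mem_edgeSet]
            rw [g2_core] at he
            exact he
          · exfalso
            rcases he with he | he
            · exact he.2 he.1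
            · exact he.2 he.1
        · exfalso
          rcases he with he | he
          · exact he.2 he.1
          · exact he.2 he.1
    exact (Set.encard_le_encard hsub).trans (Set.encard_image_le _ _)

end Pool.Agent.EK
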