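import Pool.Agent.H719.EK.Four
import Pool.Agent.H719.EK.GadDefs
import Pool.Agent.H719.EK.G1
import Pool.Agent.H719.EK.G2

/-!
Edge modification and kernels: part GI
-/

set_option autoImplicit false

namespace Pool.Agent.EK



theorem gad_adj {C : Type} (E0 PE PN : List (C × C)) (q : ℕ) (u w : C) :
    (lg (gadE E0 PE PN q)).Adj (Sum.inl u) (Sum.inl w) ↔ (lg E0).Adj u w := by
  have key : ∀ a b : C, ((Sum.inl a : GV C), (Sum.inl b : GV C)) ∈ gadE E0 PE PN q ↔
      (a, b) ∈ E0 := by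
    intro a b
    unfold gadE
    simp only [List.mem_append, List.mem_map, List.mem_flatMap, List.mem_range, List.mem_cons,
      Prod.mk.injEq, Sum.inl.injEq, reduceCtorEq, false_and, and_false, or_false, List.not_mem_nil,
      exists_false]
    constructor
    · rintro ⟨e, he, rfl, rfl⟩
      exact he
    · intro h
      exact ⟨(a, b), h, rfl, rfl⟩
  show ((Sum.inl u : GV C) ≠ Sum.inl w ∧ _) ↔ (u ≠ w ∧ _)
  rw [key, key]
  simp

/- Statement GI. Plain proof. (←) is `extend` with q = K + 1. (→) Let B' := G'.comap Sum.inl; it is C4free, respects PE and PN by `protect`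
with q = K + 1 (K < K + 1), and the injective map Sym2.map Sum.inl maps symmDiff (lg E0).edgeSet B'.edgeSet into
symmDiff (lg (gadE E0 PE PN (K + 1))).edgeSet G'.edgeSet because (lg (gadE ..)).Adj (inl u) (inl w) ↔ (lg E0).Adj u w. -/
theorem gad_iff {C : Type} (E0 PE PN : List (C × C)) (K : ℕ) (hPE : ∀ p ∈ PE, p.1 ≠ p.2)
    (hPN : ∀ p ∈ PN, p.1 ≠ p.2) :
    (∃ G' : SimpleGraph (GV C), C4free G' ∧
      (symmDiff (lg (gadE E0 PE PN (K + 1))).edgeSet G'.edgeSet).encard ≤ K) ↔
    ∃ B' : SimpleGraph C, C4free B' ∧ (∀ p ∈ PE, B'.Adj p.1 p.2) ∧ (∀ p ∈ PN, ¬ B'.Adj p.1 p.2) ∧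
      (symmDiff (lg E0).edgeSet B'.edgeSet).encard ≤ K := by
  constructor
  · rintro ⟨G', h4, hK⟩
    have hlt : (symmDiff (lg (gadE E0 PE PN (K + 1))).edgeSet G'.edgeSet).encard <
        ((K + 1 : ℕ) : ℕ∞) := by
      refine lt_of_le_of_lt hK ?_
      exact_mod_cast Nat.lt_succ_self K
    obtain ⟨p1, p2⟩ := protect E0 PE PN (K + 1) G' h4 hlt
    refine ⟨G'.comap Sum.inl, ?_, ?_, ?_, ?_⟩
    · intro a b c d hac hbd hab hbc hcd hda
      exact h4 (Sum.inl a) (Sum.inl b) (Sum.inl c) (Sum.inl d)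
        (fun h => hac (Sum.inl_injective h)) (fun h => hbd (Sum.inl_injective h)) hab hbc hcd hda
    · intro p hp
      exact p1 p hp (hPE p hp)
    · intro p hp
      exact p2 p hp (hPN p hp)
    · refine le_trans ?_ hK
      rw [← (Sym2.map.injective (Sum.inl_injective (α := C)
        (β := Bool × (C × C) × ℕ × Bool))).encard_image]
      refine Set.encard_le_encard ?_
      rintro _ ⟨e, he, rfl⟩
      induction e using Sym2.ind with
      | _ u w =>
        rw [Set.mem_symmDiff] at he ⊢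
        simp only [Sym2.map_mk, SimpleGraph.mem_edgeSet, gad_adj, SimpleGraph.comap_adj] at he ⊢
        exact he
  · rintro ⟨B', h4, h1, h2, hK⟩
    obtain ⟨G', hG, hle⟩ := extend E0 PE PN (K + 1) B' h4 h1 h2
    exact ⟨G', hG, hle.trans hK⟩

end Pool.Agent.EK
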