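import Pool.Agent.H719.EK.HDefs

/-!
Edge modification and kernels: part H1
-/

set_option autoImplicit false

namespace Pool.Agent.EK

open HV

/- Statement H1 (two statements plus their consequences; all by unfolding List.mem_append, List.mem_flatMap, List.mem_map,
List.mem_zipIdx_iff_getElem?, List.mem_range and case distinction). -/
theorem mem_EHl (l : List Fm) (x y : HV) : (x, y) ∈ EHl l ↔ HE l x y := by
  unfold EHl
  rw [List.mem_append, List.mem_flatMap, List.mem_flatMap]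
  constructor
  · rintro (⟨i, hi, h⟩ | ⟨⟨φ, j⟩, hq, h⟩)
    · rw [List.mem_range] at hi
      split_ifs at h with h0
      · simp at h
      · simp only [List.mem_cons, Prod.mk.injEq, List.not_mem_nil, or_false] at h
        rcases h with ⟨rfl, rfl⟩ | ⟨rfl, rfl⟩
        · exact HE.tree0 i (by omega) hi
        · exact HE.tree1 i (by omega) hi
    · have hq' : l[j]? = some φ := List.mem_zipIdx_iff_getElem?.1 hq
      simp only [List.mem_append, List.mem_flatMap, List.mem_map, List.mem_range, List.mem_cons,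
        Prod.mk.injEq, List.not_mem_nil, or_false] at h
      rcases h with ⟨rfl, rfl⟩ | ⟨e, he, h⟩ | ⟨i, hi, h⟩
      · exact HE.rho j φ hq'
      · rcases h with ⟨rfl, rfl⟩ | ⟨rfl, rfl⟩ | ⟨rfl, rfl⟩ | ⟨rfl, rfl⟩ | ⟨rfl, rfl⟩
        · exact HE.z j φ e hq' he
        · exact HE.rz j φ e hq' he
        · exact HE.p j φ e hq' he
        · exact HE.c1 j φ e hq' he
        · exact HE.c2 j φ e hq' he
      · obtain ⟨rfl, rfl⟩ := h
        exact HE.w j φ i hq' hi
  · intro h
    have key : ∀ (j : ℕ) (φ : Fm), l[j]? = some φ → (φ, j) ∈ l.zipIdx := fun j φ h =>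
      List.mem_zipIdx_iff_getElem?.2 h
    cases h with
    | tree0 i h1 h2 =>
      refine Or.inl ⟨i, List.mem_range.2 h2, ?_⟩
      rw [if_neg (by omega)]
      simp
    | tree1 i h1 h2 =>
      refine Or.inl ⟨i, List.mem_range.2 h2, ?_⟩
      rw [if_neg (by omega)]
      simp
    | rho j φ h => exact Or.inr ⟨(φ, j), key j φ h, by simp⟩
    | z j φ e h he =>
      refine Or.inr ⟨(φ, j), key j φ h, ?_⟩
      refine List.mem_append_right _ (List.mem_append_left _ (List.mem_flatMap.2 ⟨e, he, ?_⟩))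
      simp
    | rz j φ e h he =>
      refine Or.inr ⟨(φ, j), key j φ h, ?_⟩
      refine List.mem_append_right _ (List.mem_append_left _ (List.mem_flatMap.2 ⟨e, he, ?_⟩))
      simp
    | p j φ e h he =>
      refine Or.inr ⟨(φ, j), key j φ h, ?_⟩
      refine List.mem_append_right _ (List.mem_append_left _ (List.mem_flatMap.2 ⟨e, he, ?_⟩))
      simp
    | c1 j φ e h he =>
      refine Or.inr ⟨(φ, j), key j φ h, ?_⟩
      refine List.mem_append_right _ (List.mem_append_left _ (List.mem_flatMap.2 ⟨e, he, ?_⟩))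
      simp
    | c2 j φ e h he =>
      refine Or.inr ⟨(φ, j), key j φ h, ?_⟩
      refine List.mem_append_right _ (List.mem_append_left _ (List.mem_flatMap.2 ⟨e, he, ?_⟩))
      simp
    | w j φ i h hi =>
      refine Or.inr ⟨(φ, j), key j φ h, ?_⟩
      refine List.mem_append_right _ (List.mem_append_right _ (List.mem_map.2
        ⟨i, List.mem_range.2 hi, rfl⟩))

theorem HE_ne {l : List Fm} {x y : HV} (h : HE l x y) : x ≠ y := by
  intro h'
  cases h <;> simp at h' <;> omega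

theorem lg_EHl (l : List Fm) : lg (EHl l) = hg l := by
  ext x y
  change (x ≠ y ∧ ((x, y) ∈ EHl l ∨ (y, x) ∈ EHl l)) ↔ (HE l x y ∨ HE l y x)
  rw [mem_EHl, mem_EHl]
  constructor
  · exact fun h => h.2
  · intro h
    refine ⟨?_, h⟩
    rcases h with h | h
    · exact HE_ne h
    · exact (HE_ne h).symm

theorem EHl_ne (l : List Fm) : ∀ e ∈ EHl l, e.1 ≠ e.2 := fun e he =>
  HE_ne ((mem_EHl l e.1 e.2).1 he)

theorem mem_Rl (l : List Fm) (v : HV) : v ∈ Rl l ↔ ∃ j φ, l[j]? = some φ ∧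
    (v = HV.rho j ∨ ∃ e ∈ vcE φ, v = HV.rz j e) := by
  unfold Rl
  rw [List.mem_flatMap]
  constructor
  · rintro ⟨⟨φ, j⟩, hq, h⟩
    refine ⟨j, φ, List.mem_zipIdx_iff_getElem?.1 hq, ?_⟩
    rw [List.mem_cons, List.mem_map] at h
    rcases h with h | ⟨e, he, h⟩
    · exact Or.inl h
    · exact Or.inr ⟨e, he, h.symm⟩
  · rintro ⟨j, φ, h, h'⟩
    refine ⟨(φ, j), List.mem_zipIdx_iff_getElem?.2 h, ?_⟩
    rw [List.mem_cons, List.mem_map]
    rcases h' with h' | ⟨e, he, h'⟩
    · exact Or.inl h'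
    · exact Or.inr ⟨e, he, h'.symm⟩

theorem Rl_ends (l : List Fm) : ∀ ρ ∈ Rl l, ρ ∈ ends (EHl l) ∧ ρ ≠ node 1 := by
  intro ρ hρ
  obtain ⟨j, φ, h, h'⟩ := (mem_Rl l ρ).1 hρ
  have key : ∀ x y, HE l x y → y ∈ ends (EHl l) := by
    intro x y hxy
    unfold ends
    exact List.mem_flatMap.2 ⟨(x, y), (mem_EHl l x y).2 hxy, by simp⟩
  rcases h' with rfl | ⟨e, he, rfl⟩
  · exact ⟨key _ _ (HE.rho j φ h), by simp⟩
  · exact ⟨key _ _ (HE.rz j φ e h he), by simp⟩

end Pool.Agent.EK
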