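import Pool.Agent.H719.EK.HDefs

/-!
Edge modification and kernels: part H2
-/

set_option autoImplicit false

namespace Pool.Agent.EK

open HV

/-- An asymmetric relation which holds for the two ends of every edge of `vcE φ`. -/
def bf : UU → UU → Prop
  | Sum.inl a, Sum.inl b => a.1 = true ∧ b.1 = false
  | Sum.inr a, Sum.inr b => a.2 < b.2
  | Sum.inr _, Sum.inl _ => True
  | Sum.inl _, Sum.inr _ => False

theorem bf_asymm (a b : UU) (h : bf a b) (h' : bf b a) : False := by
  rcases a with a | a <;> rcases b with b | b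
  · obtain ⟨h1, h2⟩ := h
    obtain ⟨h3, h4⟩ := h'
    rw [h2] at h3
    exact absurd h3 (by decide)
  · exact h
  · exact h'
  · exact absurd h' (Nat.lt_asymm h)

theorem bf_vcE {φ : Fm} {e : UU × UU} (he : e ∈ vcE φ) : bf e.1 e.2 := by
  unfold vcE at he
  simp only [List.mem_append, List.mem_map, List.mem_flatMap, List.mem_cons, List.not_mem_nil,
    or_false] at he
  rcases he with ⟨x, -, rfl⟩ | ⟨k, -, rfl | rfl | rfl⟩ | ⟨q, -, rfl | rfl | rfl⟩ <;>
    simp [bf]

/-- Two edges of `vcE φ` with two ends in common are equal. -/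
theorem vcE_eq {φ φ' : Fm} {e e' : UU × UU} (he : e ∈ vcE φ) (he' : e' ∈ vcE φ') {u v : UU}
    (huv : u ≠ v) (hu : u = e.1 ∨ u = e.2) (hv : v = e.1 ∨ v = e.2) (hu' : u = e'.1 ∨ u = e'.2)
    (hv' : v = e'.1 ∨ v = e'.2) : e = e' := by
  have h1 := bf_vcE he
  have h2 := bf_vcE he'
  obtain ⟨a, b⟩ := e
  obtain ⟨a', b'⟩ := e'
  simp only at hu hv hu' hv' h1 h2
  rcases hu with hu | hu <;> rcases hv with hv | hv <;> rcases hu' with hu' | hu' <;>
    rcases hv' with hv' | hv' <;>
    first
      | exact absurd (hu.trans hv.symm) huv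
      | exact absurd (hu'.trans hv'.symm) huv
      | (rw [← hu, ← hv, ← hu', ← hv']; done)
      | (rw [← hu, ← hv] at h1
         rw [← hu', ← hv'] at h2
         exact absurd h2 (fun h => bf_asymm _ _ h1 h))

/-- A rank which increases along the edges. -/
def rk (t : ℕ) : HV → ℕ
  | node i => i
  | HV.rho _ => 2 * t + 1
  | HV.z _ _ => 2 * t + 1
  | HV.w _ _ => 2 * t + 1
  | HV.rz _ _ => 2 * t + 2
  | HV.p _ _ => 2 * t + 2
  | HV.c _ _ => 2 * t + 3

theorem rk_lt {l : List Fm} {x y : HV} (h : HE l x y) : rk l.length x < rk l.length y := by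
  have key : ∀ (j : ℕ) (φ : Fm), l[j]? = some φ → j < l.length := by
    intro j φ h
    exact (List.getElem?_eq_some_iff.1 h).1
  cases h with
  | tree0 i h1 h2 => simp only [rk]; omega
  | tree1 i h1 h2 => simp only [rk]; omega
  | rho j φ h => have := key _ _ h; simp only [rk]; omega
  | z j φ e h h' => have := key _ _ h; simp only [rk]; omega
  | rz j φ e h h' => simp only [rk]; omega
  | p j φ e h h' => simp only [rk]; omega
  | c1 j φ e h h' => simp only [rk]; omega
  | c2 j φ e h h' => simp only [rk]; omega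
  | w j φ i h h' => have := key _ _ h; simp only [rk]; omega

/-- The parents of a vertex `c j u`. -/
theorem par_c {l : List Fm} {x : HV} {j : ℕ} {u : UU} (h : HE l x (HV.c j u)) :
    ∃ φ e, e ∈ vcE φ ∧ (u = e.1 ∨ u = e.2) ∧ x = HV.p j e := by
  cases h with
  | c1 _ φ e h h' => exact ⟨φ, e, h', Or.inl rfl, rfl⟩
  | c2 _ φ e h h' => exact ⟨φ, e, h', Or.inr rfl, rfl⟩

/-- The parent is unique, except for the vertices `c j u`. -/
theorem par {l : List Fm} {x x' v : HV} (h : HE l x v) (h' : HE l x' v) :
    x = x' ∨ ∃ j u, v = HV.c j u := by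
  cases h with
  | tree0 i h1 h2 =>
    left
    generalize hm : 2 * i = m at h'
    cases h' with
    | tree0 i' h3 h4 => rw [show i = i' by omega]
    | tree1 i' h3 h4 => omega
  | tree1 i h1 h2 =>
    left
    generalize hm : 2 * i + 1 = m at h'
    cases h' with
    | tree0 i' h3 h4 => omega
    | tree1 i' h3 h4 => rw [show i = i' by omega]
  | rho j φ h => left; cases h'; rfl
  | z j φ e h _ => left; cases h'; rfl
  | rz j φ e h _ => left; cases h'; rfl
  | p j φ e h _ => left; cases h'; rfl
  | c1 j φ e h _ => exact Or.inr ⟨_, _, rfl⟩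
  | c2 j φ e h _ => exact Or.inr ⟨_, _, rfl⟩
  | w j φ i h _ => left; cases h'; rfl

/-- The neighbours of `p j e`. -/
theorem nb_p {l : List Fm} {y : HV} {j : ℕ} {e : UU × UU} (h : (hg l).Adj (HV.p j e) y) :
    y = HV.z j e ∨ ∃ u, (u = e.1 ∨ u = e.2) ∧ y = HV.c j u := by
  rcases h with h | h
  · cases h with
    | c1 _ φ _ h h' => exact Or.inr ⟨_, Or.inl rfl, rfl⟩
    | c2 _ φ _ h h' => exact Or.inr ⟨_, Or.inr rfl, rfl⟩
  · cases h
    exact Or.inl rfl

/-- A vertex with two different parents `x`, `x'` which have one more common neighbour. -/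
theorem sink {l : List Fm} {x x' v y : HV} (h : HE l x v) (h' : HE l x' v) (hx : x ≠ x')
    (hy : (hg l).Adj x y) (hy' : (hg l).Adj x' y) : v = y := by
  rcases par h h' with h1 | ⟨j, u, rfl⟩
  · exact absurd h1 hx
  · obtain ⟨φ, e, he, hu, rfl⟩ := par_c h
    obtain ⟨φ', e', he', hu', rfl⟩ := par_c h'
    rcases nb_p hy with rfl | ⟨w, hw, rfl⟩
    · rcases nb_p hy' with h2 | ⟨w', hw', h2⟩
      · simp only [HV.z.injEq, true_and] at h2
        exact absurd (by rw [h2]) hx
      · cases h2
    · rcases nb_p hy' with h2 | ⟨w', hw', h2⟩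
      · cases h2
      · simp only [HV.c.injEq, true_and] at h2
        subst h2
        by_contra hne
        have huw : u ≠ w := fun h => hne (by rw [h])
        exact hx (by rw [vcE_eq he he' huw hu hw hu' hw'])

/-- A vertex with two different parents which are adjacent. -/
theorem sink3 {l : List Fm} {x x' v : HV} (h : HE l x v) (h' : HE l x' v)
    (hx : (hg l).Adj x x') : False := by
  rcases par h h' with h1 | ⟨j, u, rfl⟩
  · exact hx.ne h1
  · obtain ⟨φ, e, he, hu, rfl⟩ := par_c h
    obtain ⟨φ', e', he', hu', rfl⟩ := par_c h'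
    rcases nb_p hx with h2 | ⟨w, hw, h2⟩ <;> cases h2

/- Statement H2. Plain proof: case analysis. H.Adj x y means HE l x y or HE l y x. Neighbours:
 node i: node (i/2), node (2i), node (2i+1), and, if i = t + j with j < t (t = l.length): rho j, z j e, w j i';
 rho j: node (t+j);  z j e: node (t+j), rz j e, p j e;  rz j e: z j e;  p j e: z j e, c j e.1, c j e.2;
 c j u: p j e with u ∈ {e.1, e.2};  w j i: node (t+j).
Two different vertices have at most one common neighbour: for two nodes this is arithmetic (omega); for p j e, p j e' with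
e ≠ e' and for c j u, c j u' with u ≠ u' use that two different elements of vcE φ have at most one end in common (the
elements of vcE φ are (inl (true, x), inl (false, x)); (inr (k,0), inr (k,1)), (inr (k,1), inr (k,2)), (inr (k,0), inr (k,2));
(inr (k, r), inl lit_r(k)); prove first a lemma: e, e' ∈ vcE φ, {e.1, e.2} = {e'.1, e'.2} as unordered pairs implies e = e', and
e.1 ≠ e.2). -/
theorem girth (l : List Fm) : Girth5 (hg l) := by
  refine ⟨fun x y z h1 h2 h3 => ?_, fun x x' y y' hx h1 h2 h3 h4 => ?_⟩
  · rcases id h1 with a | a <;> rcases id h2 with b | b <;> rcases id h3 with c | c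
    · exact sink3 b c h1.symm
    · have := rk_lt a; have := rk_lt b; have := rk_lt c; omega
    · exact sink3 a b h3
    · exact sink3 a b h3
    · exact sink3 b c h1.symm
    · exact sink3 a c h2
    · have := rk_lt a; have := rk_lt b; have := rk_lt c; omega
    · exact sink3 a c h2
  · by_contra hy
    rcases id h1 with a | a <;> rcases id h2 with b | b <;> rcases id h3 with c | c <;>
      rcases id h4 with d | d <;>
      first
        | exact hy (sink a b hx h3 h4)
        | exact hy (sink c d hx h1 h2).symm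
        | exact hx (sink a c hy h2.symm h4.symm)
        | exact hx (sink b d hy h1.symm h3.symm).symm
        | (have := rk_lt a; have := rk_lt b; have := rk_lt c; have := rk_lt d; omega)

end Pool.Agent.EK
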