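import Pool.Agent.H719.EK.HDefs

/-!
Edge modification and kernels: part H5
-/

set_option autoImplicit false

namespace Pool.Agent.EK

open HV

/- Statement H5. -/
theorem vcE_length (φ : Fm) : (vcE φ).length = 9 * φ.length := by
  have h1 : ((List.range φ.length).flatMap fun k => [((Sum.inr (k, 0) : UU), (Sum.inr (k, 1) : UU)),
      (Sum.inr (k, 1), Sum.inr (k, 2)), (Sum.inr (k, 0), Sum.inr (k, 2))]).length = φ.length * 3 := by
    rw [List.length_flatMap]
    simp
  have h2 : (φ.zipIdx.flatMap fun q => [((Sum.inr (q.2, 0) : UU), (Sum.inl q.1.1 : UU)),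
      (Sum.inr (q.2, 1), Sum.inl q.1.2.1), (Sum.inr (q.2, 2), Sum.inl q.1.2.2)]).length
      = φ.length * 3 := by
    rw [List.length_flatMap]
    simp
  unfold vcE
  rw [List.length_append, List.length_append, h1, h2, List.length_map, List.length_range]
  omega

theorem vcE_nodup (φ : Fm) : (vcE φ).Nodup := by
  unfold vcE
  rw [List.nodup_append', List.nodup_append']
  refine ⟨?_, ⟨?_, ?_, ?_⟩, ?_⟩
  · refine List.Nodup.map ?_ List.nodup_range
    intro a b h
    simpa using h
  · rw [List.nodup_flatMap]
    refine ⟨?_, ?_⟩
    · intro k _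
      simp
    · refine List.nodup_range.imp ?_
      intro a b hab
      simp only [Function.onFun, List.disjoint_left]
      intro x hx hx'
      simp only [List.mem_cons, List.not_mem_nil, or_false] at hx hx'
      rcases hx with rfl | rfl | rfl <;> simp [hab] at hx'
  · rw [List.nodup_flatMap]
    refine ⟨?_, ?_⟩
    · intro q _
      simp
    · have hz : φ.zipIdx.Pairwise fun a b => a.2 ≠ b.2 := by
        rw [← List.pairwise_map (f := Prod.snd) (R := fun a b => a ≠ b)]
        rw [List.zipIdx_map_snd]
        exact List.nodup_range'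
      refine hz.imp ?_
      intro a b hab
      simp only [Function.onFun, List.disjoint_left]
      intro x hx hx'
      simp only [List.mem_cons, List.not_mem_nil, or_false] at hx hx'
      rcases hx with rfl | rfl | rfl <;> simp [hab] at hx'
  · rw [List.disjoint_left]
    intro x hx hx'
    simp only [List.mem_flatMap, List.mem_cons, List.not_mem_nil, or_false] at hx hx'
    obtain ⟨k, _, hk⟩ := hx
    obtain ⟨q, _, hq⟩ := hx'
    rcases hk with rfl | rfl | rfl <;> simp at hq
  · rw [List.disjoint_left]
    intro x hx hx'
    simp only [List.mem_map, List.mem_append, List.mem_flatMap, List.mem_cons, List.not_mem_nil,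
      or_false] at hx hx'
    obtain ⟨k, _, rfl⟩ := hx
    rcases hx' with ⟨q, _, hq⟩ | ⟨q, _, hq⟩ <;> simp at hq

end Pool.Agent.EK
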