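import Pool.Agent.H719.EK.HDefs
import Pool.Agent.H719.EK.H5

/-!
Edge modification and kernels: part H3
-/

set_option autoImplicit false

namespace Pool.Agent.EK

open HV



namespace H3

/-- the values `{0, 1, 2}` different from `a` -/
def skp (a i : ℕ) : ℕ := if i < a then i else i + 1

/-- the good set -/
def SS (l : List Fm) (j : ℕ) (φ : Fm) (τ : ℕ → Bool) (r : ℕ → ℕ) : Finset HV :=
  ((Finset.range ((l.length + j).size - 1)).image fun m => node ((l.length + j) / 2 ^ m)) ∪
  (((vcE φ).toFinset.image (HV.z j)) ∪ (((vcE φ).toFinset.image (HV.p j)) ∪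
  (((Finset.range (padN l j φ)).image (HV.w j)) ∪
  (((Finset.range (3 * φ.length)).image fun x => HV.c j (Sum.inl (τ x, x))) ∪
  ((Finset.range φ.length ×ˢ Finset.range 2).image fun kr => HV.c j (Sum.inr (kr.1, skp (r kr.1) kr.2)))))))

theorem mem_SS (l : List Fm) (j : ℕ) (φ : Fm) (τ : ℕ → Bool) (r : ℕ → ℕ) (v : HV) :
    v ∈ SS l j φ τ r ↔ (∃ m, m < (l.length + j).size - 1 ∧ node ((l.length + j) / 2 ^ m) = v) ∨
      (∃ e, e ∈ vcE φ ∧ HV.z j e = v) ∨ (∃ e, e ∈ vcE φ ∧ HV.p j e = v) ∨
      (∃ i, i < padN l j φ ∧ HV.w j i = v) ∨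
      (∃ x, x < 3 * φ.length ∧ HV.c j (Sum.inl (τ x, x)) = v) ∨
      (∃ k i, k < φ.length ∧ i < 2 ∧ HV.c j (Sum.inr (k, skp (r k) i)) = v) := by
  unfold SS
  simp only [Finset.mem_union, Finset.mem_image, Finset.mem_range, List.mem_toFinset,
    Finset.mem_product, Prod.exists, and_assoc]

theorem card_SS (l : List Fm) (j : ℕ) (φ : Fm) (τ : ℕ → Bool) (r : ℕ → ℕ) (h1 : 1 ≤ l.length + j)
    (h2 : j < l.length) (h3 : φ.length ≤ mxl l) : (SS l j φ τ r).card ≤ KN l := by
  unfold SS
  have hs : 1 ≤ (l.length + j).size := Nat.lt_size.mpr (by simpa using h1)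
  have hs2 : (l.length + j).size ≤ (2 * l.length).size := Nat.size_le_size (by omega)
  refine (Finset.card_union_le _ _).trans ?_
  refine (Nat.add_le_add Finset.card_image_le (Finset.card_union_le _ _)).trans ?_
  refine (Nat.add_le_add le_rfl (Nat.add_le_add Finset.card_image_le (Finset.card_union_le _ _))).trans ?_
  refine (Nat.add_le_add le_rfl (Nat.add_le_add le_rfl (Nat.add_le_add Finset.card_image_le
    (Finset.card_union_le _ _)))).trans ?_
  refine (Nat.add_le_add le_rfl (Nat.add_le_add le_rfl (Nat.add_le_add le_rfl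
    (Nat.add_le_add Finset.card_image_le (Finset.card_union_le _ _))))).trans ?_
  refine (Nat.add_le_add le_rfl (Nat.add_le_add le_rfl (Nat.add_le_add le_rfl
    (Nat.add_le_add le_rfl (Nat.add_le_add Finset.card_image_le Finset.card_image_le))))).trans ?_
  rw [Finset.card_range, Finset.card_range, Finset.card_range, Finset.card_product, Finset.card_range,
    Finset.card_range]
  have h4 : (vcE φ).toFinset.card ≤ 9 * φ.length := by
    rw [← vcE_length]; exact List.toFinset_card_le _
  unfold padN KN
  omega

theorem le_foldl (l : List Fm) (a : ℕ) : a ≤ l.foldl (fun a φ => max a φ.length) a ∧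
    ∀ φ ∈ l, φ.length ≤ l.foldl (fun a φ => max a φ.length) a := by
  induction l generalizing a with
  | nil => simp
  | cons b l ih =>
    simp only [List.foldl_cons, List.mem_cons, forall_eq_or_imp]
    obtain ⟨h1, h2⟩ := ih (max a b.length)
    exact ⟨(le_max_left _ _).trans h1, (le_max_right _ _).trans h1, h2⟩

/-- `T`-membership of nodes -/
theorem node_T (l : List Fm) (j : ℕ) (φ : Fm) (τ : ℕ → Bool) (r : ℕ → ℕ) (h1 : 1 ≤ l.length + j)
    (i : ℕ) : (node i = node 1 ∨ node i ∈ SS l j φ τ r) ↔
      ∃ m, 2 ^ m ≤ l.length + j ∧ (l.length + j) / 2 ^ m = i := by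
  have e1 : node i ∈ SS l j φ τ r ↔ ∃ m, 2 ^ (m + 1) ≤ l.length + j ∧ (l.length + j) / 2 ^ m = i := by
    rw [mem_SS]
    constructor
    · rintro (⟨m, hm, h⟩ | ⟨e, he, h⟩ | ⟨e, he, h⟩ | ⟨e, he, h⟩ | ⟨e, he, h⟩ | ⟨k, e, he, he', h⟩)
      · refine ⟨m, Nat.lt_size.mp (by omega), ?_⟩
        simpa using h
      all_goals simp at h
    · rintro ⟨m, hm, h⟩
      left
      have := Nat.lt_size.mpr hm
      exact ⟨m, by omega, by rw [h]⟩
  rw [e1]
  constructor
  · rintro (h | ⟨m, hm, h⟩)
    · have h' : i = 1 := by simpa using h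
      subst h'
      refine ⟨Nat.log 2 (l.length + j), Nat.pow_log_le_self 2 (by omega), ?_⟩
      have h2 := Nat.lt_pow_succ_log_self (b := 2) (by norm_num) (l.length + j)
      have h3 := Nat.pow_log_le_self 2 (x := l.length + j) (by omega)
      apply Nat.div_eq_of_lt_le
      · omega
      · rw [pow_succ] at h2; omega
    · exact ⟨m, le_trans (Nat.pow_le_pow_right (by norm_num) (Nat.le_succ m)) hm, h⟩
  · rintro ⟨m, hm, h⟩
    by_cases h2 : 2 ^ (m + 1) ≤ l.length + j
    · exact Or.inr ⟨m, h2, h⟩
    · left
      have : (l.length + j) / 2 ^ m = 1 := by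
        rw [pow_succ] at h2
        apply Nat.div_eq_of_lt_le
        · omega
        · omega
      rw [← h, this]

theorem skp_mem (a b : ℕ) (ha : a < 3) (hb : b < 3) (hab : b ≠ a) : ∃ i, i < 2 ∧ skp a i = b := by
  by_cases h : b < a
  · exact ⟨b, by omega, by simp [skp, h]⟩
  · exact ⟨b - 1, by omega, by unfold skp; split_ifs <;> omega⟩

theorem cov (l : List Fm) (j : ℕ) (φ : Fm) (hb : Bdd φ) (τ : ℕ → Bool) (r : ℕ → ℕ)
    (hr : ∀ k, r k < 3) (hr' : ∀ k c, φ[k]? = some c → (r k = 0 → τ c.1.2 = c.1.1) ∧
      (r k = 1 → τ c.2.1.2 = c.2.1.1) ∧ (r k = 2 → τ c.2.2.2 = c.2.2.1)) (e : UU × UU)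
    (he : e ∈ vcE φ) : HV.c j e.1 ∈ SS l j φ τ r ∨ HV.c j e.2 ∈ SS l j φ τ r := by
  have hlit : ∀ x, x < 3 * φ.length → HV.c j (Sum.inl (τ x, x)) ∈ SS l j φ τ r := fun x hx => by
    rw [mem_SS]; exact Or.inr (Or.inr (Or.inr (Or.inr (Or.inl ⟨x, hx, rfl⟩))))
  have hcor : ∀ k a, k < φ.length → a < 3 → a ≠ r k → HV.c j (Sum.inr (k, a)) ∈ SS l j φ τ r := by
    intro k a hk ha hne
    obtain ⟨i, hi, hi'⟩ := skp_mem (r k) a (hr k) ha hne
    rw [mem_SS]; exact Or.inr (Or.inr (Or.inr (Or.inr (Or.inr ⟨k, i, hk, hi, by rw [hi']⟩))))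
  unfold vcE at he
  rw [List.mem_append, List.mem_append] at he
  rcases he with he | he | he
  · rw [List.mem_map] at he
    obtain ⟨x, hx, rfl⟩ := he
    rw [List.mem_range] at hx
    have := hlit x hx
    cases h : τ x with
    | true => left; rw [h] at this; exact this
    | false => right; rw [h] at this; exact this
  · rw [List.mem_flatMap] at he
    obtain ⟨k, hk, he⟩ := he
    rw [List.mem_range] at hk
    simp only [List.mem_cons, List.not_mem_nil, or_false] at he
    rcases he with rfl | rfl | rfl
    · by_cases h : r k = 0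
      · exact Or.inr (hcor k 1 hk (by norm_num) (by omega))
      · exact Or.inl (hcor k 0 hk (by norm_num) (by omega))
    · by_cases h : r k = 1
      · exact Or.inr (hcor k 2 hk (by norm_num) (by omega))
      · exact Or.inl (hcor k 1 hk (by norm_num) (by omega))
    · by_cases h : r k = 0
      · exact Or.inr (hcor k 2 hk (by norm_num) (by omega))
      · exact Or.inl (hcor k 0 hk (by norm_num) (by omega))
  · rw [List.mem_flatMap] at he
    obtain ⟨⟨c, k⟩, hk, he⟩ := he
    rw [List.mem_zipIdx_iff_getElem?] at hk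
    have hk' : k < φ.length := by
      by_contra hh
      rw [List.getElem?_eq_none (by simpa using hh)] at hk
      exact absurd hk (by simp)
    have hmem : c ∈ φ := List.mem_of_getElem? hk
    obtain ⟨b1, b2, b3⟩ := hb c hmem
    obtain ⟨r0, r1, r2⟩ := hr' k c hk
    simp only [List.mem_cons, List.not_mem_nil, or_false] at he
    rcases he with rfl | rfl | rfl
    · by_cases h : r k = 0
      · right
        have h2 := hlit _ b1
        rw [r0 h] at h2
        exact h2
      · exact Or.inl (hcor k 0 hk' (by norm_num) (by omega))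
    · by_cases h : r k = 1
      · right
        have h2 := hlit _ b2
        rw [r1 h] at h2
        exact h2
      · exact Or.inl (hcor k 1 hk' (by norm_num) (by omega))
    · by_cases h : r k = 2
      · right
        have h2 := hlit _ b3
        rw [r2 h] at h2
        exact h2
      · exact Or.inl (hcor k 2 hk' (by norm_num) (by omega))

/-- one exceptional neighbour is enough -/
theorem good_of (l : List Fm) (S : Finset HV)
    (h : ∀ b, (b = node 1 ∨ b ∈ S) → ∃ e, ∀ s, (hg l).Adj b s → s = e ∨ (s = node 1 ∨ s ∈ S)) :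
    ∀ b, (b = node 1 ∨ b ∈ S) → ∀ s t, s ≠ t → (hg l).Adj b s → (hg l).Adj b t →
    (s = node 1 ∨ s ∈ S) ∨ (t = node 1 ∨ t ∈ S) := by
  intro b hb s t hst h1 h2
  obtain ⟨e, he⟩ := h b hb
  rcases he s h1 with h3 | h3
  · rcases he t h2 with h4 | h4
    · exact absurd (h3.trans h4.symm) hst
    · exact Or.inr h4
  · exact Or.inl h3

theorem node_case (l : List Fm) (j : ℕ) (φ : Fm) (hj : l[j]? = some φ) (hjl : j < l.length)
    (τ : ℕ → Bool) (r : ℕ → ℕ) (m : ℕ) (hm : 2 ^ m ≤ l.length + j) :
    ∃ e, ∀ s, (hg l).Adj (node ((l.length + j) / 2 ^ m)) s →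
      s = e ∨ (s = node 1 ∨ s ∈ SS l j φ τ r) := by
  have hq : 1 ≤ l.length + j := by omega
  have hT := node_T l j φ τ r hq
  have hpos : 0 < 2 ^ m := by positivity
  have hge : 1 ≤ (l.length + j) / 2 ^ m := by
    rw [Nat.le_div_iff_mul_le hpos]; omega
  -- the parent
  have hpar : ∀ i, 1 ≤ i → ((l.length + j) / 2 ^ m = 2 * i ∨ (l.length + j) / 2 ^ m = 2 * i + 1) →
      (node i = node 1 ∨ node i ∈ SS l j φ τ r) := by
    intro i hi h
    rw [hT i]
    have h2 : (l.length + j) / 2 ^ (m + 1) = i := by
      rw [pow_succ, ← Nat.div_div_eq_div_mul]; omega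
    refine ⟨m + 1, ?_, h2⟩
    have h3 : 1 ≤ (l.length + j) / 2 ^ (m + 1) := by omega
    rw [Nat.le_div_iff_mul_le (by positivity)] at h3
    omega
  rcases Nat.eq_zero_or_pos m with h0 | h0
  · subst h0
    refine ⟨HV.rho j, ?_⟩
    intro s hs
    simp only [pow_zero, Nat.div_one] at hs hpar ⊢
    rcases hs with hs | hs
    · generalize hb : node (l.length + j) = b at hs
      cases hs with
      | tree0 i h1 h2 => simp at hb; omega
      | tree1 i h1 h2 => simp at hb; omega
      | rho j' φ' h1 =>
        simp at hb; subst hb; exact Or.inl rfl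
      | z j' φ' e h1 h2 =>
        simp at hb; subst hb
        right; right
        rw [hj] at h1
        simp only [Option.some.injEq] at h1
        subst h1
        rw [mem_SS]; exact Or.inr (Or.inl ⟨e, h2, rfl⟩)
      | rz j' φ' e h1 h2 => simp at hb
      | p j' φ' e h1 h2 => simp at hb
      | c1 j' φ' e h1 h2 => simp at hb
      | c2 j' φ' e h1 h2 => simp at hb
      | w j' φ' i h1 h2 =>
        simp at hb; subst hb
        right; right
        rw [hj] at h1
        simp only [Option.some.injEq] at h1
        subst h1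
        rw [mem_SS]; exact Or.inr (Or.inr (Or.inr (Or.inl ⟨i, h2, rfl⟩)))
    · generalize hb : node (l.length + j) = b at hs
      cases hs with
      | tree0 i h1 h2 =>
        simp at hb
        exact Or.inr (hpar i h1 (Or.inl hb))
      | tree1 i h1 h2 =>
        simp at hb
        exact Or.inr (hpar i h1 (Or.inr hb))
      | rho j' φ' h1 => simp at hb
      | z j' φ' e h1 h2 => simp at hb
      | rz j' φ' e h1 h2 => simp at hb
      | p j' φ' e h1 h2 => simp at hb
      | c1 j' φ' e h1 h2 => simp at hb
      | c2 j' φ' e h1 h2 => simp at hb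
      | w j' φ' i h1 h2 => simp at hb
  · obtain ⟨m, rfl⟩ := Nat.exists_eq_succ_of_ne_zero h0.ne'
    have hchild : (l.length + j) / 2 ^ m = 2 * ((l.length + j) / 2 ^ (m + 1)) ∨
        (l.length + j) / 2 ^ m = 2 * ((l.length + j) / 2 ^ (m + 1)) + 1 := by
      rw [pow_succ, ← Nat.div_div_eq_div_mul]; omega
    have hTc : node ((l.length + j) / 2 ^ m) = node 1 ∨ node ((l.length + j) / 2 ^ m) ∈ SS l j φ τ r := by
      rw [hT]
      exact ⟨m, le_trans (Nat.pow_le_pow_right (by norm_num) (Nat.le_succ m)) hm, rfl⟩
    have hlt : (l.length + j) / 2 ^ (m + 1) < l.length := by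
      rw [pow_succ, mul_comm, ← Nat.div_div_eq_div_mul]
      exact lt_of_le_of_lt (Nat.div_le_self _ _) (by omega)
    refine ⟨node (4 * ((l.length + j) / 2 ^ (m + 1)) + 1 - (l.length + j) / 2 ^ m), ?_⟩
    intro s hs
    rcases hs with hs | hs
    · generalize hb : node ((l.length + j) / 2 ^ (m + 1)) = b at hs
      cases hs with
      | tree0 i h1 h2 =>
        simp only [HV.node.injEq] at hb
        rcases hchild with h | h
        · right; rw [← hb, ← h]; exact hTc
        · left; rw [h, hb]; congr 1; omega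
      | tree1 i h1 h2 =>
        simp only [HV.node.injEq] at hb
        rcases hchild with h | h
        · left; rw [h, hb]; congr 1; omega
        · right; rw [← hb, ← h]; exact hTc
      | rho j' φ' h1 => simp only [HV.node.injEq] at hb; omega
      | z j' φ' e h1 h2 => simp only [HV.node.injEq] at hb; omega
      | rz j' φ' e h1 h2 => simp at hb
      | p j' φ' e h1 h2 => simp at hb
      | c1 j' φ' e h1 h2 => simp at hb
      | c2 j' φ' e h1 h2 => simp at hb
      | w j' φ' i h1 h2 => simp only [HV.node.injEq] at hb; omega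
    · generalize hb : node ((l.length + j) / 2 ^ (m + 1)) = b at hs
      cases hs with
      | tree0 i h1 h2 =>
        simp only [HV.node.injEq] at hb
        exact Or.inr (hpar i h1 (Or.inl hb))
      | tree1 i h1 h2 =>
        simp only [HV.node.injEq] at hb
        exact Or.inr (hpar i h1 (Or.inr hb))
      | rho j' φ' h1 => simp at hb
      | z j' φ' e h1 h2 => simp at hb
      | rz j' φ' e h1 h2 => simp at hb
      | p j' φ' e h1 h2 => simp at hb
      | c1 j' φ' e h1 h2 => simp at hb
      | c2 j' φ' e h1 h2 => simp at hb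
      | w j' φ' i h1 h2 => simp at hb

end H3

/- Statement H3. Plain proof. Let t = l.length, l[j]? = some φ, M = φ.length, τ a satisfying assignment; for each clause number k < M
choose r k < 3 such that the literal number r k of the clause is true. Let q = t + j (the leaf), 1 ≤ q < 2 t, and
S = {node (q / 2^m) : m < size q - 1}  (these are the ids q, q/2, ..., larger than 1; size = Nat.size)
  ∪ {z j e, p j e : e ∈ vcE φ} ∪ {w j i : i < padN l j φ}
  ∪ {c j (inl (τ x, x)) : x < 3 M} ∪ {c j (inr (k, r)) : k < M, r < 3, r ≠ r k}.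
Its cardinality is at most (size q - 1) + 2 * 9 M + padN l j φ + 3 M + 2 M ≤ KN l since padN l j φ = 23 (mxl l - M) +
(size (2t) - size q), M ≤ mxl l and size q ≤ size (2 t) (it suffices to bound cardinalities of images by those of the index sets).
Good: node 1 ∉ S (q / 2^m > 1 for m < size q - 1); no rho, rz in S. Let b = node 1 or b ∈ S; call T = S ∪ {node 1}:
 * b = node i with i = q / 2^m, m ≤ size q - 1: if i < t its neighbours are node (i/2) (in T, if i > 1), node (2i), node (2i+1), one of
   which is node (q / 2^(m-1)) ∈ T (m ≥ 1 since i < t ≤ q); if i ≥ t then i = q (because q < 2t), its neighbours are node (q/2) ∈ T,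
   rho j ∉ S, z j e ∈ S, w j i' ∈ S (note that t + j' = t + j implies j' = j).
 * z j e: node q ∈ T, rz j e, p j e ∈ S.   * p j e: z j e ∈ S, c j e.1, c j e.2, one of which is in S: for e = (inl (true,x), inl (false,x)) the one
   with τ x; for the edges between corners of the clause k at least one end is not (k, r k); for e = (inr (k,r), inl lit) either r ≠ r k or
   lit = (τ x, x) where x < 3 M by hb.
 * c j u: all its neighbours p j e are in S.   * w j i: its only neighbour is node q ∈ T.
So every b in T has at most one neighbour outside T. -/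
theorem sat_good (l : List Fm) (hb : ∀ φ ∈ l, Bdd φ) (j : ℕ) (φ : Fm) (hj : l[j]? = some φ) (hs : Sat φ) :
    ∃ S : Finset HV, S.card ≤ KN l ∧ Good (hg l) (node 1) (Rl l) S := by
  obtain ⟨τ, hτ⟩ := hs
  have hjl : j < l.length := by
    by_contra hh
    rw [List.getElem?_eq_none (by simpa using hh)] at hj
    exact absurd hj (by simp)
  have hφ : φ ∈ l := List.mem_of_getElem? hj
  have hbφ := hb φ hφ
  have hex : ∀ k : ℕ, ∃ a, a < 3 ∧ ∀ c : Lt × Lt × Lt, φ[k]? = some c → (a = 0 → τ c.1.2 = c.1.1) ∧
      (a = 1 → τ c.2.1.2 = c.2.1.1) ∧ (a = 2 → τ c.2.2.2 = c.2.2.1) := by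
    intro k
    cases hk : φ[k]? with
    | none => exact ⟨0, by norm_num, fun c hc => absurd hc (by simp)⟩
    | some c =>
      rcases hτ c (List.mem_of_getElem? hk) with h | h | h
      · refine ⟨0, by norm_num, fun c' hc => ?_⟩
        simp only [Option.some.injEq] at hc
        subst hc
        exact ⟨fun _ => h, fun h' => absurd h' (by norm_num), fun h' => absurd h' (by norm_num)⟩
      · refine ⟨1, by norm_num, fun c' hc => ?_⟩
        simp only [Option.some.injEq] at hc
        subst hc
        exact ⟨fun h' => absurd h' (by norm_num), fun _ => h, fun h' => absurd h' (by norm_num)⟩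
      · refine ⟨2, by norm_num, fun c' hc => ?_⟩
        simp only [Option.some.injEq] at hc
        subst hc
        exact ⟨fun h' => absurd h' (by norm_num), fun h' => absurd h' (by norm_num), fun _ => h⟩
  choose r hr hr' using hex
  have hq : 1 ≤ l.length + j := by omega
  refine ⟨H3.SS l j φ τ r, H3.card_SS l j φ τ r hq hjl ((H3.le_foldl l 1).2 φ hφ), ?_, ?_,
    H3.good_of l _ ?_⟩
  · intro h
    rw [H3.mem_SS] at h
    rcases h with ⟨m, hm, h⟩ | ⟨e, he, h⟩ | ⟨e, he, h⟩ | ⟨e, he, h⟩ | ⟨e, he, h⟩ | ⟨k, e, he, he', h⟩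
    · simp only [HV.node.injEq] at h
      have h2 : 2 ^ (m + 1) ≤ l.length + j := Nat.lt_size.mp (by omega)
      have h3 : 2 ≤ (l.length + j) / 2 ^ m := by
        rw [Nat.le_div_iff_mul_le (by positivity)]
        rw [pow_succ] at h2; omega
      omega
    all_goals simp at h
  · intro ρ hρ h
    unfold Rl at hρ
    rw [List.mem_flatMap] at hρ
    obtain ⟨q, -, hρ⟩ := hρ
    rw [H3.mem_SS] at h
    rw [List.mem_cons, List.mem_map] at hρ
    rcases hρ with rfl | ⟨e0, -, rfl⟩ <;>
    rcases h with ⟨m, hm, h⟩ | ⟨e, he, h⟩ | ⟨e, he, h⟩ | ⟨e, he, h⟩ | ⟨e, he, h⟩ | ⟨k, e, he, he', h⟩ <;>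
    simp at h
  · intro b hb1
    have hleaf : node (l.length + j) = node 1 ∨ node (l.length + j) ∈ H3.SS l j φ τ r := by
      rw [H3.node_T l j φ τ r hq]
      exact ⟨0, by simpa using hq, by simp⟩
    have hp : ∀ e ∈ vcE φ, HV.p j e ∈ H3.SS l j φ τ r := fun e he => by
      rw [H3.mem_SS]; exact Or.inr (Or.inr (Or.inl ⟨e, he, rfl⟩))
    have hz : ∀ e ∈ vcE φ, HV.z j e ∈ H3.SS l j φ τ r := fun e he => by
      rw [H3.mem_SS]; exact Or.inr (Or.inl ⟨e, he, rfl⟩)
    have hcN : ∀ u, ∃ e, ∀ s, (hg l).Adj (HV.c j u) s →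
        s = e ∨ (s = node 1 ∨ s ∈ H3.SS l j φ τ r) := by
      intro u
      refine ⟨node 0, fun s hs => Or.inr (Or.inr ?_)⟩
      rcases hs with hs | hs
      · cases hs
      · generalize hb : HV.c j u = b at hs
        cases hs with
        | c1 j' φ' e' h1 h2 =>
          simp only [HV.c.injEq] at hb
          obtain ⟨rfl, -⟩ := hb
          rw [hj] at h1
          simp only [Option.some.injEq] at h1
          subst h1
          exact hp e' h2
        | c2 j' φ' e' h1 h2 =>
          simp only [HV.c.injEq] at hb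
          obtain ⟨rfl, -⟩ := hb
          rw [hj] at h1
          simp only [Option.some.injEq] at h1
          subst h1
          exact hp e' h2
        | _ => simp at hb
    by_cases hnode : ∃ i, b = node i
    · obtain ⟨i, rfl⟩ := hnode
      rw [H3.node_T l j φ τ r hq] at hb1
      obtain ⟨m, hm, rfl⟩ := hb1
      exact H3.node_case l j φ hj hjl τ r m hm
    · rcases hb1 with rfl | hb1
      · exact absurd ⟨1, rfl⟩ hnode
      rw [H3.mem_SS] at hb1
      rcases hb1 with ⟨m, hm, rfl⟩ | ⟨e, he, rfl⟩ | ⟨e, he, rfl⟩ | ⟨i, hi, rfl⟩ | ⟨x, hx, rfl⟩ |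
        ⟨k, i, hk, hi, rfl⟩
      · exact absurd ⟨_, rfl⟩ hnode
      · refine ⟨HV.rz j e, fun s hs => ?_⟩
        rcases hs with hs | hs
        · generalize hb : HV.z j e = b at hs
          cases hs with
          | rz j' φ' e' h1 h2 =>
            simp only [HV.z.injEq] at hb
            obtain ⟨rfl, rfl⟩ := hb
            exact Or.inl rfl
          | p j' φ' e' h1 h2 =>
            simp only [HV.z.injEq] at hb
            obtain ⟨rfl, rfl⟩ := hb
            exact Or.inr (Or.inr (hp _ he))
          | _ => simp at hb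
        · generalize hb : HV.z j e = b at hs
          cases hs with
          | z j' φ' e' h1 h2 =>
            simp only [HV.z.injEq] at hb
            obtain ⟨rfl, rfl⟩ := hb
            exact Or.inr hleaf
          | _ => simp at hb
      · rcases H3.cov l j φ hbφ τ r hr hr' e he with hc | hc
        · refine ⟨HV.c j e.2, fun s hs => ?_⟩
          rcases hs with hs | hs
          · generalize hb : HV.p j e = b at hs
            cases hs with
            | c1 j' φ' e' h1 h2 =>
              simp only [HV.p.injEq] at hb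
              obtain ⟨rfl, rfl⟩ := hb
              exact Or.inr (Or.inr hc)
            | c2 j' φ' e' h1 h2 =>
              simp only [HV.p.injEq] at hb
              obtain ⟨rfl, rfl⟩ := hb
              exact Or.inl rfl
            | _ => simp at hb
          · generalize hb : HV.p j e = b at hs
            cases hs with
            | p j' φ' e' h1 h2 =>
              simp only [HV.p.injEq] at hb
              obtain ⟨rfl, rfl⟩ := hb
              exact Or.inr (Or.inr (hz _ he))
            | _ => simp at hb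
        · refine ⟨HV.c j e.1, fun s hs => ?_⟩
          rcases hs with hs | hs
          · generalize hb : HV.p j e = b at hs
            cases hs with
            | c1 j' φ' e' h1 h2 =>
              simp only [HV.p.injEq] at hb
              obtain ⟨rfl, rfl⟩ := hb
              exact Or.inl rfl
            | c2 j' φ' e' h1 h2 =>
              simp only [HV.p.injEq] at hb
              obtain ⟨rfl, rfl⟩ := hb
              exact Or.inr (Or.inr hc)
            | _ => simp at hb
          · generalize hb : HV.p j e = b at hs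
            cases hs with
            | p j' φ' e' h1 h2 =>
              simp only [HV.p.injEq] at hb
              obtain ⟨rfl, rfl⟩ := hb
              exact Or.inr (Or.inr (hz _ he))
            | _ => simp at hb
      · refine ⟨node 0, fun s hs => Or.inr ?_⟩
        rcases hs with hs | hs
        · cases hs
        · generalize hb : HV.w j i = b at hs
          cases hs with
          | w j' φ' i' h1 h2 =>
            simp only [HV.w.injEq] at hb
            obtain ⟨rfl, rfl⟩ := hb
            exact hleaf
          | _ => simp at hb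
      · exact hcN _
      · exact hcN _

end Pool.Agent.EK
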