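import Pool.Agent.H719.EK.HDefs
import Pool.Agent.H719.EK.H5

/-!
Edge modification and kernels: part H4
-/

set_option autoImplicit false

namespace Pool.Agent.EK

open HV



namespace J4156

theorem vcE_ne (φ : Fm) (e : UU × UU) (he : e ∈ vcE φ) : e.1 ≠ e.2 := by
  simp only [vcE, List.mem_append, List.mem_map, List.mem_flatMap, List.mem_cons, List.not_mem_nil,
    or_false] at he
  rcases he with ⟨x, _, rfl⟩ | ⟨k, _, h⟩ | ⟨q, _, h⟩
  · simp
  · rcases h with rfl | rfl | rfl <;> simp
  · rcases h with rfl | rfl | rfl <;> simp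

theorem vcE_lit (φ : Fm) (x : ℕ) (hx : x < 3 * φ.length) :
    ((Sum.inl (true, x), Sum.inl (false, x)) : UU × UU) ∈ vcE φ := by
  simp only [vcE, List.mem_append, List.mem_map]
  exact Or.inl ⟨x, List.mem_range.2 hx, rfl⟩

theorem vcE_cor (φ : Fm) (k : ℕ) (hk : k < φ.length) (e : UU × UU)
    (he : e = (Sum.inr (k, 0), Sum.inr (k, 1)) ∨ e = (Sum.inr (k, 1), Sum.inr (k, 2)) ∨
      e = (Sum.inr (k, 0), Sum.inr (k, 2))) : e ∈ vcE φ := by
  simp only [vcE, List.mem_append, List.mem_flatMap, List.mem_cons, List.not_mem_nil, or_false]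
  exact Or.inr (Or.inl ⟨k, List.mem_range.2 hk, he⟩)

theorem vcE_cla (φ : Fm) (k : ℕ) (c : Lt × Lt × Lt) (hk : φ[k]? = some c) (e : UU × UU)
    (he : e = (Sum.inr (k, 0), Sum.inl c.1) ∨ e = (Sum.inr (k, 1), Sum.inl c.2.1) ∨
      e = (Sum.inr (k, 2), Sum.inl c.2.2)) : e ∈ vcE φ := by
  simp only [vcE, List.mem_append, List.mem_flatMap, List.mem_cons, List.not_mem_nil, or_false]
  exact Or.inr (Or.inr ⟨(c, k), List.mk_mem_zipIdx_iff_getElem?.2 hk, he⟩)

theorem rho_mem (l : List Fm) (j : ℕ) (φ : Fm) (h : l[j]? = some φ) : HV.rho j ∈ Rl l := by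
  simp only [Rl, List.mem_flatMap]
  exact ⟨(φ, j), List.mk_mem_zipIdx_iff_getElem?.2 h, by simp⟩

theorem rz_mem (l : List Fm) (j : ℕ) (φ : Fm) (h : l[j]? = some φ) (e : UU × UU) (he : e ∈ vcE φ) :
    HV.rz j e ∈ Rl l := by
  simp only [Rl, List.mem_flatMap]
  refine ⟨(φ, j), List.mk_mem_zipIdx_iff_getElem?.2 h, ?_⟩
  simp only [List.mem_cons, List.mem_map]
  exact Or.inr ⟨e, he, rfl⟩

/-- the leaf -/
theorem leaf (l : List Fm) (S : Finset HV)
    (hgood : Good (hg l) (node 1) (Rl l) S) :
    ∀ n i : ℕ, 2 * l.length - i = n → 1 ≤ i → i < 2 * l.length →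
      (∀ m, 2 ^ m ≤ i → (node (i / 2 ^ m) = node 1 ∨ node (i / 2 ^ m) ∈ S)) →
      ∃ q, l.length ≤ q ∧ q < 2 * l.length ∧
        ∀ m, 2 ^ m ≤ q → (node (q / 2 ^ m) = node 1 ∨ node (q / 2 ^ m) ∈ S) := by
  intro n
  induction n using Nat.strong_induction_on with
  | _ n ih =>
    intro i hn h1 h2 hT
    by_cases hi : l.length ≤ i
    · exact ⟨i, hi, h2, hT⟩
    · push Not at hi
      have hstep : ∀ i' : ℕ, i' / 2 = i → i < i' → i' < 2 * l.length →
          (node i' = node 1 ∨ node i' ∈ S) →
          ∃ q, l.length ≤ q ∧ q < 2 * l.length ∧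
            ∀ m, 2 ^ m ≤ q → (node (q / 2 ^ m) = node 1 ∨ node (q / 2 ^ m) ∈ S) := by
        intro i' he hlt hlt' hin
        refine ih (2 * l.length - i') (by omega) i' rfl (by omega) hlt' ?_
        intro m hm
        rcases m with _ | m
        · simpa using hin
        · have h3 : i' / 2 ^ (m + 1) = i / 2 ^ m := by
            rw [pow_succ', ← Nat.div_div_eq_div_mul, he]
          rw [h3]
          refine hT m ?_
          rw [← he, Nat.le_div_iff_mul_le (by norm_num)]
          rw [pow_succ] at hm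
          exact hm
      have h0 := hT 0 (by simpa using h1)
      simp only [pow_zero, Nat.div_one] at h0
      have := hgood.2.2 (node i) h0 (node (2 * i)) (node (2 * i + 1)) (by simp)
        (Or.inl (HE.tree0 i h1 hi)) (Or.inl (HE.tree1 i h1 hi))
      rcases this with h | h
      · exact hstep (2 * i) (by omega) (by omega) (by omega) h
      · exact hstep (2 * i + 1) (by omega) (by omega) (by omega) h

theorem mxl_aux (l : List Fm) : ∀ a : ℕ, a ≤ l.foldl (fun a φ => max a φ.length) a ∧
    ∀ φ ∈ l, φ.length ≤ l.foldl (fun a φ => max a φ.length) a := by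
  induction l with
  | nil => intro a; simp
  | cons ψ l ih =>
    intro a
    obtain ⟨h1, h2⟩ := ih (max a ψ.length)
    simp only [List.foldl_cons]
    refine ⟨(le_max_left _ _).trans h1, ?_⟩
    intro φ hφ
    rcases List.mem_cons.1 hφ with rfl | hφ
    · exact (le_max_right _ _).trans h1
    · exact h2 φ hφ

theorem div_inj (q a b : ℕ) (ha : 2 ^ a ≤ q) (hb : 2 ^ b ≤ q) (h : q / 2 ^ a = q / 2 ^ b) :
    a = b := by
  have key : ∀ a b : ℕ, 2 ^ a ≤ q → a < b → q / 2 ^ a ≠ q / 2 ^ b := by
    intro a b ha hab h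
    have h1 : 0 < q / 2 ^ a := Nat.div_pos ha (by positivity)
    have h2 : q / 2 ^ b ≤ q / 2 ^ (a + 1) :=
      Nat.div_le_div_left (Nat.pow_le_pow_right (by norm_num) hab) (by positivity)
    have h3 : q / 2 ^ (a + 1) = (q / 2 ^ a) / 2 := by
      rw [pow_succ, Nat.div_div_eq_div_mul]
    omega
  rcases lt_trichotomy a b with hab | hab | hab
  · exact absurd h (key a b ha hab)
  · exact hab
  · exact absurd h.symm (key b a hb hab)

theorem card_le (S : Finset HV) (j q N : ℕ) (E : List (UU × UU)) (hE : E.Nodup) (U : Finset UU)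
    (hq1 : ∀ m, m + 1 < q.size → node (q / 2 ^ m) ∈ S)
    (hz : ∀ e ∈ E, HV.z j e ∈ S) (hp : ∀ e ∈ E, HV.p j e ∈ S)
    (hw : ∀ i < N, HV.w j i ∈ S) (hU : ∀ u ∈ U, HV.c j u ∈ S) :
    (q.size - 1) + E.length + E.length + N + U.card ≤ S.card := by
  classical
  let A : Finset HV := (Finset.range (q.size - 1)).image fun m => node (q / 2 ^ m)
  let B : Finset HV := E.toFinset.image fun e => HV.z j e
  let C : Finset HV := E.toFinset.image fun e => HV.p j e
  let D : Finset HV := (Finset.range N).image fun i => HV.w j i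
  let G : Finset HV := U.image fun u => HV.c j u
  have hA : A.card = q.size - 1 := by
    rw [Finset.card_image_of_injOn, Finset.card_range]
    intro a ha b hb h
    simp only [Finset.coe_range, Set.mem_Iio] at ha hb
    simp only [node.injEq] at h
    exact div_inj q a b (Nat.lt_size.1 (by omega)) (Nat.lt_size.1 (by omega)) h
  have hB : B.card = E.length := by
    rw [Finset.card_image_of_injective _ (fun a b h => by simpa using h), List.toFinset_card_of_nodup hE]
  have hC : C.card = E.length := by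
    rw [Finset.card_image_of_injective _ (fun a b h => by simpa using h), List.toFinset_card_of_nodup hE]
  have hD : D.card = N := by
    rw [Finset.card_image_of_injective _ (fun a b h => by simpa using h), Finset.card_range]
  have hG : G.card = U.card := by
    rw [Finset.card_image_of_injective _ (fun a b h => by simpa using h)]
  have h1 : Disjoint A B := by
    rw [Finset.disjoint_left]
    intro x hx hy
    simp only [A, B, Finset.mem_image] at hx hy
    obtain ⟨_, _, rfl⟩ := hx
    obtain ⟨_, _, h⟩ := hy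
    exact absurd h (by simp)
  have h2 : Disjoint (A ∪ B) C := by
    rw [Finset.disjoint_left]
    intro x hx hy
    simp only [A, B, C, Finset.mem_union, Finset.mem_image] at hx hy
    obtain ⟨_, _, rfl⟩ := hy
    rcases hx with ⟨_, _, h⟩ | ⟨_, _, h⟩ <;> exact absurd h (by simp)
  have h3 : Disjoint (A ∪ B ∪ C) D := by
    rw [Finset.disjoint_left]
    intro x hx hy
    simp only [A, B, C, D, Finset.mem_union, Finset.mem_image] at hx hy
    obtain ⟨_, _, rfl⟩ := hy
    rcases hx with (⟨_, _, h⟩ | ⟨_, _, h⟩) | ⟨_, _, h⟩ <;> exact absurd h (by simp)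
  have h4 : Disjoint (A ∪ B ∪ C ∪ D) G := by
    rw [Finset.disjoint_left]
    intro x hx hy
    simp only [A, B, C, D, G, Finset.mem_union, Finset.mem_image] at hx hy
    obtain ⟨_, _, rfl⟩ := hy
    rcases hx with ((⟨_, _, h⟩ | ⟨_, _, h⟩) | ⟨_, _, h⟩) | ⟨_, _, h⟩ <;> exact absurd h (by simp)
  have hsub : A ∪ B ∪ C ∪ D ∪ G ⊆ S := by
    intro x hx
    simp only [A, B, C, D, G, Finset.mem_union, Finset.mem_image, Finset.mem_range,
      List.mem_toFinset] at hx
    rcases hx with (((⟨m, hm, rfl⟩ | ⟨e, he, rfl⟩) | ⟨e, he, rfl⟩) | ⟨i, hi, rfl⟩) | ⟨u, hu, rfl⟩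
    · exact hq1 m (by omega)
    · exact hz e he
    · exact hp e he
    · exact hw i hi
    · exact hU u hu
  have h5 := Finset.card_le_card hsub
  rw [Finset.card_union_of_disjoint h4, Finset.card_union_of_disjoint h3,
    Finset.card_union_of_disjoint h2, Finset.card_union_of_disjoint h1, hA, hB, hC, hD, hG] at h5
  exact h5

end J4156

/- Statement H4. Plain proof. Let t = l.length ≥ 1, T = S ∪ {node 1}.
(1) There is a leaf q, t ≤ q < 2t, such that all node (q / 2^m), m < size q (Nat.size), are in T: start with i = 1; if 1 ≤ i < t and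
    node i and all its ancestors node (i / 2^m) (m < size i) are in T, then node (2i) or node (2i+1) is in T because they are
    different neighbours of node i, and its ancestors are itself and those of i. (induction on 2 t - i)
(2) Let q = t + j, l[j]? = some φ, M = φ.length. rho j ∈ Rl l is a neighbour of node q outside T, so all other neighbours of node q are in
    T: z j e ∈ S for e ∈ vcE φ and w j i ∈ S for i < padN l j φ. Similarly rz j e is a neighbour of z j e outside T, so p j e ∈ S.
    And p j e has neighbours c j e.1, c j e.2 (different since e.1 ≠ e.2): at least one of them is in S.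
(3) S contains the disjoint sets {node (q / 2^m) : m < size q - 1} (cardinality size q - 1), {z j e}, {p j e} (cardinality 9 M each),
    {w j i : i < padN} and {c j u : c j u ∈ S}. So the number of u with c j u ∈ S is at most
    KN l - (size q - 1) - 18 M - padN l j φ = 5 M  (M ≤ mxl l).
(4) For x < 3 M let a x be the number of b ∈ {true, false} with c j (inl (b, x)) ∈ S: a x ≥ 1 by the edge (inl (true,x), inl (false,x)).
    For k < M let d k be the number of r < 3 with c j (inr (k, r)) ∈ S: d k ≥ 2 by the three edges between corners. The sum of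
    all a x and d k is at most 5 M, so a x = 1 and d k = 2 for all x < 3 M, k < M.
(5) Let τ x = true iff c j (inl (true, x)) ∈ S. Clause number k: there is r < 3 with c j (inr (k, r)) ∉ S; the edge
    (inr (k, r), inl (b, x)) where (b, x) is its literal number r gives c j (inl (b, x)) ∈ S, x < 3 M by hb, and since a x = 1, τ x = b. -/
theorem good_sat (l : List Fm) (hne : l ≠ []) (hb : ∀ φ ∈ l, Bdd φ) (S : Finset HV) (hS : S.card ≤ KN l)
    (hgood : Good (hg l) (node 1) (Rl l) S) : ∃ φ ∈ l, Sat φ := by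
  classical
  have ht : 1 ≤ l.length := by
    rcases l with _ | ⟨a, l⟩
    · exact absurd rfl hne
    · simp
  obtain ⟨q, hq1, hq2, hqT⟩ := J4156.leaf l S hgood _ 1 rfl le_rfl (by omega) (by
    intro m hm
    have : m = 0 := by
      by_contra h
      have h2 : 2 ^ 1 ≤ 2 ^ m := Nat.pow_le_pow_right (by norm_num) (Nat.one_le_iff_ne_zero.2 h)
      omega
    subst this
    left
    simp)
  obtain ⟨j, rfl⟩ := Nat.exists_eq_add_of_le hq1
  have hj : j < l.length := by omega
  obtain ⟨φ, hφ⟩ : ∃ φ, l[j]? = some φ := ⟨l[j], List.getElem?_eq_getElem hj⟩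
  have hφl : φ ∈ l := List.mem_of_getElem? hφ
  obtain ⟨hr, hR, hG⟩ := hgood
  have hqin : node (l.length + j) = node 1 ∨ node (l.length + j) ∈ S := by
    have := hqT 0 (by simp; omega)
    simpa using this
  have hrho : ¬ (HV.rho j = node 1 ∨ HV.rho j ∈ S) := by
    rintro (h | h)
    · exact absurd h (by simp)
    · exact hR _ (J4156.rho_mem l j φ hφ) h
  have hz : ∀ e ∈ vcE φ, HV.z j e ∈ S := by
    intro e he
    rcases hG _ hqin (HV.rho j) (HV.z j e) (by simp) (Or.inl (HE.rho j φ hφ))
      (Or.inl (HE.z j φ e hφ he)) with h | h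
    · exact absurd h hrho
    · rcases h with h | h
      · exact absurd h (by simp)
      · exact h
  have hw : ∀ i < padN l j φ, HV.w j i ∈ S := by
    intro i hi
    rcases hG _ hqin (HV.rho j) (HV.w j i) (by simp) (Or.inl (HE.rho j φ hφ))
      (Or.inl (HE.w j φ i hφ hi)) with h | h
    · exact absurd h hrho
    · rcases h with h | h
      · exact absurd h (by simp)
      · exact h
  have hp : ∀ e ∈ vcE φ, HV.p j e ∈ S := by
    intro e he
    rcases hG _ (Or.inr (hz e he)) (HV.rz j e) (HV.p j e) (by simp) (Or.inl (HE.rz j φ e hφ he))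
      (Or.inl (HE.p j φ e hφ he)) with h | h
    · rcases h with h | h
      · exact absurd h (by simp)
      · exact absurd h (hR _ (J4156.rz_mem l j φ hφ e he))
    · rcases h with h | h
      · exact absurd h (by simp)
      · exact h
  have hc : ∀ e ∈ vcE φ, HV.c j e.1 ∈ S ∨ HV.c j e.2 ∈ S := by
    intro e he
    rcases hG _ (Or.inr (hp e he)) (HV.c j e.1) (HV.c j e.2)
      (by simpa using J4156.vcE_ne φ e he) (Or.inl (HE.c1 j φ e hφ he))
      (Or.inl (HE.c2 j φ e hφ he)) with h | h
    · rcases h with h | h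
      · exact absurd h (by simp)
      · exact Or.inl h
    · rcases h with h | h
      · exact absurd h (by simp)
      · exact Or.inr h
  set M := φ.length with hM
  have hMx : M ≤ mxl l := (J4156.mxl_aux l 1).2 φ hφl
  let P : Finset UU := ((Finset.univ : Finset Bool) ×ˢ Finset.range (3 * M)).disjSum
    (Finset.range M ×ˢ Finset.range 3)
  let U : Finset UU := P.filter fun u => HV.c j u ∈ S
  have hnode : ∀ m, m + 1 < (l.length + j).size → node ((l.length + j) / 2 ^ m) ∈ S := by
    intro m hm
    have h1 : 2 ^ (m + 1) ≤ l.length + j := Nat.lt_size.1 hm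
    have h2 : 2 ^ m ≤ l.length + j :=
      (Nat.pow_le_pow_right (by norm_num) (Nat.le_succ m)).trans h1
    rcases hqT m h2 with h | h
    · exfalso
      simp only [node.injEq] at h
      have h3 : 2 ≤ (l.length + j) / 2 ^ m := by
        rw [Nat.le_div_iff_mul_le (by positivity)]
        rw [pow_succ] at h1
        linarith
      omega
    · exact h
  have hcard := J4156.card_le S j (l.length + j) (padN l j φ) (vcE φ) (vcE_nodup φ) U hnode hz hp hw
    (fun u hu => (Finset.mem_filter.1 hu).2)
  rw [vcE_length] at hcard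
  have hs1 : (l.length + j).size ≤ (2 * l.length).size := Nat.size_le_size (by omega)
  have hs2 : 1 ≤ (l.length + j).size := Nat.lt_size.2 (by simp; omega)
  have hU5 : U.card ≤ 5 * M := by
    unfold padN at hcard
    unfold KN at hS
    omega
  let F : UU → ℕ := fun u => if HV.c j u ∈ S then 1 else 0
  have hUF : U.card = ∑ x ∈ Finset.range (3 * M), (F (Sum.inl (true, x)) + F (Sum.inl (false, x))) +
      ∑ k ∈ Finset.range M, (F (Sum.inr (k, 0)) + F (Sum.inr (k, 1)) + F (Sum.inr (k, 2))) := by
    rw [Finset.card_filter]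
    change ∑ u ∈ P, F u = _
    rw [Finset.sum_disjSum, Finset.sum_product_right, Finset.sum_product]
    congr 1
    refine Finset.sum_congr rfl fun k _ => ?_
    rw [Finset.sum_range_succ, Finset.sum_range_succ, Finset.sum_range_succ, Finset.sum_range_zero,
      zero_add]
  have hF1 : ∀ e ∈ vcE φ, 1 ≤ F e.1 + F e.2 := by
    intro e he
    rcases hc e he with h | h <;> simp [F, h]
  have hFle : ∀ u, F u ≤ 1 := by
    intro u
    simp only [F]
    split_ifs <;> simp
  have ha : ∀ x ∈ Finset.range (3 * M), 1 ≤ F (Sum.inl (true, x)) + F (Sum.inl (false, x)) := by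
    intro x hx
    exact hF1 _ (J4156.vcE_lit φ x (Finset.mem_range.1 hx))
  have hd : ∀ k ∈ Finset.range M,
      2 ≤ F (Sum.inr (k, 0)) + F (Sum.inr (k, 1)) + F (Sum.inr (k, 2)) := by
    intro k hk
    have hk' := Finset.mem_range.1 hk
    have h1 := hF1 _ (J4156.vcE_cor φ k hk' _ (Or.inl rfl))
    have h2 := hF1 _ (J4156.vcE_cor φ k hk' _ (Or.inr (Or.inl rfl)))
    have h3 := hF1 _ (J4156.vcE_cor φ k hk' _ (Or.inr (Or.inr rfl)))
    simp only at h1 h2 h3
    omega
  have hsa : ∑ x ∈ Finset.range (3 * M), 1 ≤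
      ∑ x ∈ Finset.range (3 * M), (F (Sum.inl (true, x)) + F (Sum.inl (false, x))) :=
    Finset.sum_le_sum ha
  have hsd : ∑ k ∈ Finset.range M, 2 ≤
      ∑ k ∈ Finset.range M, (F (Sum.inr (k, 0)) + F (Sum.inr (k, 1)) + F (Sum.inr (k, 2))) :=
    Finset.sum_le_sum hd
  have e1 : ∑ x ∈ Finset.range (3 * M), 1 = 3 * M := by simp
  have e2 : ∑ k ∈ Finset.range M, 2 = 2 * M := by simp [mul_comm]
  have ha' : ∀ x ∈ Finset.range (3 * M), 1 = F (Sum.inl (true, x)) + F (Sum.inl (false, x)) :=
    (Finset.sum_eq_sum_iff_of_le ha).1 (by omega)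
  have hd' : ∀ k ∈ Finset.range M,
      2 = F (Sum.inr (k, 0)) + F (Sum.inr (k, 1)) + F (Sum.inr (k, 2)) :=
    (Finset.sum_eq_sum_iff_of_le hd).1 (by omega)
  refine ⟨φ, hφl, fun x => decide (HV.c j (Sum.inl (true, x)) ∈ S), ?_⟩
  have hlit : ∀ (b : Bool) (x : ℕ), x < 3 * M → F (Sum.inl (b, x)) = 1 →
      decide (HV.c j (Sum.inl (true, x)) ∈ S) = b := by
    intro b x hx hb1
    have hax := ha' x (Finset.mem_range.2 hx)
    rcases b with _ | _
    · rw [decide_eq_false_iff_not]
      intro h
      have : F (Sum.inl (true, x)) = 1 := by simp [F, h]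
      omega
    · rw [decide_eq_true_iff]
      by_contra h
      have : F (Sum.inl (true, x)) = 0 := by simp [F, h]
      omega
  intro c hcφ
  obtain ⟨k, hk, hkc⟩ := List.mem_iff_getElem.1 hcφ
  have hk2 : φ[k]? = some c := by rw [List.getElem?_eq_getElem hk, hkc]
  have hdk := hd' k (Finset.mem_range.2 hk)
  obtain ⟨b1, b2, b3⟩ := hb φ hφl c hcφ
  have g1 := hF1 _ (J4156.vcE_cla φ k c hk2 _ (Or.inl rfl))
  have g2 := hF1 _ (J4156.vcE_cla φ k c hk2 _ (Or.inr (Or.inl rfl)))
  have g3 := hF1 _ (J4156.vcE_cla φ k c hk2 _ (Or.inr (Or.inr rfl)))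
  simp only at g1 g2 g3
  have f1 := hFle (Sum.inl c.1)
  have f2 := hFle (Sum.inl c.2.1)
  have f3 := hFle (Sum.inl c.2.2)
  have f4 := hFle (Sum.inr (k, 0))
  have f5 := hFle (Sum.inr (k, 1))
  have f6 := hFle (Sum.inr (k, 2))
  have hcase : F (Sum.inr (k, 0)) = 0 ∨ F (Sum.inr (k, 1)) = 0 ∨ F (Sum.inr (k, 2)) = 0 := by omega
  rcases hcase with h | h | h
  · exact Or.inl (hlit c.1.1 c.1.2 b1 (by
      have : F (Sum.inl c.1) = 1 := by omega
      exact this))
  · exact Or.inr (Or.inl (hlit c.2.1.1 c.2.1.2 b2 (by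
      have : F (Sum.inl c.2.1) = 1 := by omega
      exact this)))
  · exact Or.inr (Or.inr (hlit c.2.2.1 c.2.2.2 b3 (by
      have : F (Sum.inl c.2.2) = 1 := by omega
      exact this)))

end Pool.Agent.EK

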