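import Pool.Agent.H719.EK.GadDefs

/-!
# The graph of a list of formulas: definitions
-/

namespace Pool.Agent.EK

/-- Literals: `(true, x)` is `x` and `(false, x)` its negation. -/
abbrev Lt : Type := Bool × ℕ

/-- Formulas in conjunctive normal form with three literals per clause. -/
abbrev Fm : Type := List (Lt × Lt × Lt)

/-- Satisfiability. -/
def Sat (φ : Fm) : Prop :=
  ∃ τ : ℕ → Bool, ∀ c ∈ φ, τ c.1.2 = c.1.1 ∨ τ c.2.1.2 = c.2.1.1 ∨ τ c.2.2.2 = c.2.2.1

/-- The variables are below three times the number of clauses. -/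
def Bdd (φ : Fm) : Prop :=
  ∀ c ∈ φ, c.1.2 < 3 * φ.length ∧ c.2.1.2 < 3 * φ.length ∧ c.2.2.2 < 3 * φ.length

/-- Vertices of the vertex cover instance of a formula: literals `inl (b, x)`, and corners
`inr (k, r)` (clause number `k`, `r < 3`). -/
abbrev UU : Type := (Bool × ℕ) ⊕ (ℕ × ℕ)

/-- The edges of the vertex cover instance of a formula. -/
def vcE (φ : Fm) : List (UU × UU) :=
  ((List.range (3 * φ.length)).map fun x => (Sum.inl (true, x), Sum.inl (false, x))) ++
  (((List.range φ.length).flatMap fun k => [(Sum.inr (k, 0), Sum.inr (k, 1)),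
    (Sum.inr (k, 1), Sum.inr (k, 2)), (Sum.inr (k, 0), Sum.inr (k, 2))]) ++
  (φ.zipIdx.flatMap fun q => [(Sum.inr (q.2, 0), Sum.inl q.1.1),
    (Sum.inr (q.2, 1), Sum.inl q.1.2.1), (Sum.inr (q.2, 2), Sum.inl q.1.2.2)]))

/-- The vertices of the graph of a list of formulas: nodes of a binary tree, and for each formula
number `j`: `rho j`; for each edge `e` of its vertex cover instance `z j e`, `rz j e`, `p j e`; for each
vertex `u` of its vertex cover instance `c j u`; and `w j i` for padding. -/
inductive HV : Type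
  | node (i : ℕ)
  | rho (j : ℕ)
  | z (j : ℕ) (e : UU × UU)
  | rz (j : ℕ) (e : UU × UU)
  | p (j : ℕ) (e : UU × UU)
  | c (j : ℕ) (u : UU)
  | w (j i : ℕ)
  deriving DecidableEq

/-- The maximal number of clauses, and at least one. -/
def mxl (l : List Fm) : ℕ := l.foldl (fun a φ => max a φ.length) 1

/-- The number of padding vertices of the formula `φ`, number `j` of the list. -/
def padN (l : List Fm) (j : ℕ) (φ : Fm) : ℕ :=
  23 * (mxl l - φ.length) + ((2 * l.length).size - (l.length + j).size)

/-- The budget. -/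
def KN (l : List Fm) : ℕ := ((2 * l.length).size - 1) + 23 * mxl l

open HV

/-- The edges of the graph of a list `l` of `t` formulas: the binary tree with nodes
`1, ..., 2 t - 1`, whose leaf `t + j` belongs to the formula number `j`; the leaf is adjacent to `rho j`, to all
`z j e` and to all `w j i`; `z j e` is adjacent to `rz j e` and `p j e`; and `p j e` is adjacent to `c j u` and `c j v`
for `e = (u, v)`. -/
inductive HE (l : List Fm) : HV → HV → Prop
  | tree0 (i : ℕ) : 1 ≤ i → i < l.length → HE l (node i) (node (2 * i))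
  | tree1 (i : ℕ) : 1 ≤ i → i < l.length → HE l (node i) (node (2 * i + 1))
  | rho (j : ℕ) (φ : Fm) : l[j]? = some φ → HE l (node (l.length + j)) (rho j)
  | z (j : ℕ) (φ : Fm) (e : UU × UU) : l[j]? = some φ → e ∈ vcE φ →
      HE l (node (l.length + j)) (z j e)
  | rz (j : ℕ) (φ : Fm) (e : UU × UU) : l[j]? = some φ → e ∈ vcE φ → HE l (z j e) (rz j e)
  | p (j : ℕ) (φ : Fm) (e : UU × UU) : l[j]? = some φ → e ∈ vcE φ → HE l (z j e) (p j e)
  | c1 (j : ℕ) (φ : Fm) (e : UU × UU) : l[j]? = some φ → e ∈ vcE φ → HE l (p j e) (c j e.1)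
  | c2 (j : ℕ) (φ : Fm) (e : UU × UU) : l[j]? = some φ → e ∈ vcE φ → HE l (p j e) (c j e.2)
  | w (j : ℕ) (φ : Fm) (i : ℕ) : l[j]? = some φ → i < padN l j φ →
      HE l (node (l.length + j)) (w j i)

/-- The graph of a list of formulas. -/
def hg (l : List Fm) : SimpleGraph HV where
  Adj x y := HE l x y ∨ HE l y x
  symm := ⟨fun _ _ h => h.symm⟩
  loopless := ⟨fun x h => by
    have key : ∀ y, HE l x y → x = y → False := by
      intro y h h'
      cases h <;> simp at h' <;> omega
    rcases h with h | h <;> exact key x h rfl⟩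

/-- The list of the edges of the graph of a list of formulas. -/
def EHl (l : List Fm) : List (HV × HV) :=
  ((List.range l.length).flatMap fun i =>
    if i = 0 then [] else [(node i, node (2 * i)), (node i, node (2 * i + 1))]) ++
  l.zipIdx.flatMap fun q =>
    [(node (l.length + q.2), HV.rho q.2)] ++
    (((vcE q.1).flatMap fun e => [(node (l.length + q.2), HV.z q.2 e), (HV.z q.2 e, HV.rz q.2 e),
      (HV.z q.2 e, HV.p q.2 e), (HV.p q.2 e, HV.c q.2 e.1), (HV.p q.2 e, HV.c q.2 e.2)]) ++
    ((List.range (padN l q.2 q.1)).map fun i => (node (l.length + q.2), HV.w q.2 i)))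

/-- The vertices which may not be taken. -/
def Rl (l : List Fm) : List HV :=
  l.zipIdx.flatMap fun q => HV.rho q.2 :: (vcE q.1).map fun e => HV.rz q.2 e

end Pool.Agent.EK
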