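import Pool.Agent.H719.EK.Four

/-!
Edge modification and kernels: part M
-/

set_option autoImplicit false

namespace Pool.Agent.EK

/- Statement M. Plain proof. (→) Given G'' let G' := G''.map ⟨f, hf⟩. An induced four-cycle of G' has all its vertices in the range of f
and comes from one of G''. B = G.map ⟨f, hf⟩ (by hB, hG), and the edge set of a map is the image of the edge set under Sym2.map f
(injective), so the symmetric difference is the image of symmDiff G.edgeSet G''.edgeSet and its encard equals the ncard (finite).
(←) Given G' let G'' := G'.comap f. An induced four-cycle of G'' is mapped to one of G'. The injective map Sym2.map f maps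
symmDiff G.edgeSet G''.edgeSet into symmDiff B.edgeSet G'.edgeSet. -/
theorem mat_iff {Λ : Type} {m : ℕ} (f : Fin m → Λ) (hf : Function.Injective f) (B : SimpleGraph Λ)
    (hB : ∀ x y, B.Adj x y → x ∈ Set.range f ∧ y ∈ Set.range f) (G : SimpleGraph (Fin m))
    (hG : ∀ i j, G.Adj i j ↔ B.Adj (f i) (f j)) (K : ℕ) :
    (∃ G'' : SimpleGraph (Fin m), C4free G'' ∧ (symmDiff G.edgeSet G''.edgeSet).ncard ≤ K) ↔
      ∃ G' : SimpleGraph Λ, C4free G' ∧ (symmDiff B.edgeSet G'.edgeSet).encard ≤ K := by
  have hsym : Function.Injective (Sym2.map f) := Sym2.map.injective hf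
  have hmapB : Sym2.map f '' G.edgeSet = B.edgeSet := by
    ext e
    induction e using Sym2.ind with
    | _ x y =>
      constructor
      · rintro ⟨e, he, h⟩
        induction e using Sym2.ind with
        | _ i j =>
          rw [← h, Sym2.map_mk, SimpleGraph.mem_edgeSet]
          exact (hG i j).1 he
      · intro h
        obtain ⟨⟨i, rfl⟩, ⟨j, rfl⟩⟩ := hB x y h
        exact ⟨s(i, j), (hG i j).2 h, rfl⟩
  constructor
  · rintro ⟨G'', h4, hK⟩
    let F : Fin m ↪ Λ := ⟨f, hf⟩
    have hadj : ∀ i j, (G''.map F).Adj (f i) (f j) ↔ G''.Adj i j := fun i j =>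
      SimpleGraph.map_adj_apply (f := F)
    refine ⟨G''.map F, ?_, ?_⟩
    · intro a b c d hac hbd hab hbc hcd hda
      obtain ⟨a, b, -, rfl, rfl⟩ := (SimpleGraph.map_adj F G'' a b).1 hab
      obtain ⟨c, d, -, rfl, rfl⟩ := (SimpleGraph.map_adj F G'' c d).1 hcd
      have := h4 a b c d (fun h => hac (by rw [h])) (fun h => hbd (by rw [h]))
        ((hadj a b).1 hab) ((hadj b c).1 hbc) ((hadj c d).1 hcd) ((hadj d a).1 hda)
      rcases this with h | h
      · exact Or.inl ((hadj a c).2 h)
      · exact Or.inr ((hadj b d).2 h)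
    · have h1 : (G''.map F).edgeSet = Sym2.map f '' G''.edgeSet := by
        ext e
        induction e using Sym2.ind with
        | _ x y =>
          constructor
          · intro h
            obtain ⟨i, j, h', rfl, rfl⟩ := (SimpleGraph.map_adj F G'' x y).1 h
            exact ⟨s(i, j), h', rfl⟩
          · rintro ⟨e, he, h⟩
            induction e using Sym2.ind with
            | _ i j =>
              rw [← h, Sym2.map_mk, SimpleGraph.mem_edgeSet]
              exact (hadj i j).2 he
      rw [h1, ← hmapB, ← Set.image_symmDiff hsym, hsym.encard_image,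
        ← (Set.toFinite (symmDiff G.edgeSet G''.edgeSet)).cast_ncard_eq]
      exact_mod_cast hK
  · rintro ⟨G', h4, hK⟩
    refine ⟨G'.comap f, ?_, ?_⟩
    · intro a b c d hac hbd hab hbc hcd hda
      exact h4 (f a) (f b) (f c) (f d) (hf.ne hac) (hf.ne hbd) hab hbc hcd hda
    · have h1 : Sym2.map f '' symmDiff G.edgeSet (G'.comap f).edgeSet ⊆
          symmDiff B.edgeSet G'.edgeSet := by
        rintro _ ⟨e, he, rfl⟩
        induction e using Sym2.ind with
        | _ i j =>
          rw [Set.mem_symmDiff] at he ⊢
          simp only [Sym2.map_mk, SimpleGraph.mem_edgeSet, SimpleGraph.comap_adj, hG] at he ⊢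
          exact he
      have h2 := Set.encard_le_encard h1
      rw [hsym.encard_image,
        ← (Set.toFinite (symmDiff G.edgeSet (G'.comap f).edgeSet)).cast_ncard_eq] at h2
      exact_mod_cast h2.trans hK

end Pool.Agent.EK
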