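import Pool.Agent.H719.EK.HDefs
import Pool.Agent.H671R2.CK.K13
import Pool.Agent.H671R2.PolyAuto
import Pool.Agent.R544.Util2

/-!
# The composition runs in polynomial time
-/

namespace Pool.Agent.EK

open Pool.Agent.NPC Pool.Agent.R544

/-- Vertices as elements of a sum type. -/
def HV.toSum : HV → ℕ ⊕ (ℕ ⊕ ((ℕ × (UU × UU)) ⊕ ((ℕ × (UU × UU)) ⊕ ((ℕ × (UU × UU)) ⊕
    ((ℕ × UU) ⊕ (ℕ × ℕ))))))
  | .node i => Sum.inl i
  | .rho j => Sum.inr (Sum.inl j)
  | .z j e => Sum.inr (Sum.inr (Sum.inl (j, e)))
  | .rz j e => Sum.inr (Sum.inr (Sum.inr (Sum.inl (j, e))))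
  | .p j e => Sum.inr (Sum.inr (Sum.inr (Sum.inr (Sum.inl (j, e)))))
  | .c j u => Sum.inr (Sum.inr (Sum.inr (Sum.inr (Sum.inr (Sum.inl (j, u))))))
  | .w j i => Sum.inr (Sum.inr (Sum.inr (Sum.inr (Sum.inr (Sum.inr (j, i))))))

theorem HV.toSum_injective : Function.Injective HV.toSum := by
  intro x y h
  cases x <;> cases y <;> simp [HV.toSum] at h <;> simp [h]

instance : TEnc HV := ⟨fun v => toT v.toSum, fun _ _ h => HV.toSum_injective (TEnc.inj h)⟩

variable {α : Type} [TEnc α]

theorem p_node {i : α → ℕ} (hi : Poly i) : Poly (fun a => HV.node (i a)) :=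
  show Poly (fun a => (HV.node (i a)).toSum) from NPC.Poly.inl hi

theorem p_rho {i : α → ℕ} (hi : Poly i) : Poly (fun a => HV.rho (i a)) :=
  show Poly (fun a => (HV.rho (i a)).toSum) from NPC.Poly.inr (NPC.Poly.inl hi)

theorem p_z {i : α → ℕ} {e : α → UU × UU} (hi : Poly i) (he : Poly e) :
    Poly (fun a => HV.z (i a) (e a)) :=
  show Poly (fun a => (HV.z (i a) (e a)).toSum) from
    NPC.Poly.inr (NPC.Poly.inr (NPC.Poly.inl (NPC.Poly.pair hi he)))

theorem p_rz {i : α → ℕ} {e : α → UU × UU} (hi : Poly i) (he : Poly e) :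
    Poly (fun a => HV.rz (i a) (e a)) :=
  show Poly (fun a => (HV.rz (i a) (e a)).toSum) from
    NPC.Poly.inr (NPC.Poly.inr (NPC.Poly.inr (NPC.Poly.inl (NPC.Poly.pair hi he))))

theorem p_p {i : α → ℕ} {e : α → UU × UU} (hi : Poly i) (he : Poly e) :
    Poly (fun a => HV.p (i a) (e a)) :=
  show Poly (fun a => (HV.p (i a) (e a)).toSum) from
    NPC.Poly.inr (NPC.Poly.inr (NPC.Poly.inr (NPC.Poly.inr (NPC.Poly.inl (NPC.Poly.pair hi he)))))

theorem p_c {i : α → ℕ} {e : α → UU} (hi : Poly i) (he : Poly e) :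
    Poly (fun a => HV.c (i a) (e a)) :=
  show Poly (fun a => (HV.c (i a) (e a)).toSum) from
    NPC.Poly.inr (NPC.Poly.inr (NPC.Poly.inr (NPC.Poly.inr (NPC.Poly.inr
      (NPC.Poly.inl (NPC.Poly.pair hi he))))))

theorem p_w {i j : α → ℕ} (hi : Poly i) (hj : Poly j) :
    Poly (fun a => HV.w (i a) (j a)) :=
  show Poly (fun a => (HV.w (i a) (j a)).toSum) from
    NPC.Poly.inr (NPC.Poly.inr (NPC.Poly.inr (NPC.Poly.inr (NPC.Poly.inr
      (NPC.Poly.inr (NPC.Poly.pair hi hj))))))

attribute [local fun_prop] p_node p_rho p_z p_rz p_p p_c p_w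

theorem p_rangeLen' {β : Type} [TEnc β] {l : α → List β} (hl : Poly l) :
    Poly (fun a => List.range (l a).length) := (UPoly.length hl).range

theorem p_range3 {β : Type} [TEnc β] {l : α → List β} (hl : Poly l) :
    Poly (fun a => List.range (3 * (l a).length)) :=
  ((UPoly.const 3).mul (UPoly.length hl)).range

attribute [local fun_prop] p_rangeLen' p_range3

theorem p_vcE {φ : α → Fm} (hφ : Poly φ) : Poly (fun a => vcE (φ a)) := by
  unfold vcE
  fun_prop

attribute [local fun_prop] p_vcE

theorem u_mxl {l : α → List Fm} (hl : Poly l) : UPoly (fun a => mxl (l a)) :=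
  CK.upoly_maxLen hl

theorem u_size2 {l : α → List Fm} (hl : Poly l) : UPoly (fun a => (2 * (l a).length).size) := by
  refine UPoly.of_le (n := fun a => 2 * (l a).length) ?_ ((UPoly.const 2).mul (UPoly.length hl))
    (fun a => NPC.Poly.size_le_self _)
  have h : Poly (fun a => (2 * (l a).length).bits.length) :=
    NPC.Poly.length (NPC.Poly.natBits (by fun_prop))
  exact h.congr fun a => by rw [Nat.size_eq_bits_len]

theorem u_KN {l : α → List Fm} (hl : Poly l) : UPoly (fun a => KN (l a)) := by
  unfold KN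
  refine UPoly.add ?_ ((UPoly.const 23).mul (u_mxl hl))
  exact UPoly.of_le (NPC.Poly.sub (u_size2 hl).toPoly (NPC.Poly.const 1)) (u_size2 hl)
    (fun a => Nat.sub_le _ _)

theorem u_padN {l : α → List Fm} {j : α → ℕ} {φ : α → Fm} (hl : Poly l) (hj : Poly j)
    (hφ : Poly φ) : UPoly (fun a => padN (l a) (j a) (φ a)) := by
  refine UPoly.of_le (n := fun a => 23 * mxl (l a) + (2 * (l a).length).size) ?_
    (UPoly.add ((UPoly.const 23).mul (u_mxl hl)) (u_size2 hl)) ?_
  · unfold padN
    have h1 : Poly (fun a => mxl (l a)) := (u_mxl hl).toPoly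
    have h2 : Poly (fun a => (2 * (l a).length).size) := (u_size2 hl).toPoly
    have h3 : Poly (fun a => ((l a).length + j a).size) :=
      (NPC.Poly.length (NPC.Poly.natBits (NPC.Poly.add (NPC.Poly.length hl) hj))).congr
        fun a => by rw [Nat.size_eq_bits_len]
    fun_prop
  · intro a
    unfold padN
    omega

theorem p_rangePad {l : α → List Fm} {j : α → ℕ} {φ : α → Fm} (hl : Poly l) (hj : Poly j)
    (hφ : Poly φ) : Poly (fun a => List.range (padN (l a) (j a) (φ a))) := (u_padN hl hj hφ).range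

attribute [local fun_prop] p_rangePad

theorem p_EHl {l : α → List Fm} (hl : Poly l) : Poly (fun a => EHl (l a)) := by
  unfold EHl
  fun_prop

theorem p_Rl {l : α → List Fm} (hl : Poly l) : Poly (fun a => Rl (l a)) := by
  unfold Rl
  fun_prop

attribute [local fun_prop] p_EHl p_Rl

section Generic

variable {X : Type} [TEnc X]

theorem p_ends {E : α → List (X × X)} (hE : Poly E) : Poly (fun a => ends (E a)) := by
  unfold ends
  fun_prop

theorem p_gadE {E0 PE PN : α → List (X × X)} {q : α → ℕ} (h0 : Poly E0) (hE : Poly PE)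
    (hN : Poly PN) (hq : UPoly q) : Poly (fun a => gadE (E0 a) (PE a) (PN a) (q a)) := by
  have key : ∀ rr : α → List ℕ, Poly rr → Poly (fun a =>
      ((E0 a).map fun e => ((Sum.inl e.1, Sum.inl e.2) : GV X × GV X)) ++
      (((PE a).flatMap fun p => (rr a).flatMap fun i =>
        [((Sum.inr (true, p, i, false), Sum.inl p.1) : GV X × GV X),
          (Sum.inr (true, p, i, false), Sum.inl p.2),
          (Sum.inr (true, p, i, true), Sum.inl p.1), (Sum.inr (true, p, i, true), Sum.inl p.2)]) ++
      ((PN a).flatMap fun p => (rr a).flatMap fun i =>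
        [((Sum.inr (false, p, i, false), Sum.inl p.1) : GV X × GV X),
          (Sum.inr (false, p, i, true), Sum.inl p.2),
          (Sum.inr (false, p, i, false), Sum.inr (false, p, i, true))]))) := by
    intro rr hrr
    fun_prop
  exact key _ hq.range

theorem p_conePE {EH : α → List (X × X)} {R : α → List X} (hE : Poly EH) (hR : Poly R) :
    Poly (fun a => conePE (EH a) (R a)) := by
  unfold conePE
  fun_prop

attribute [local fun_prop] p_ends

variable [DecidableEq X]

theorem p_coneE0 {EH : α → List (X × X)} {r : X} (hE : Poly EH) :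
    Poly (fun a => coneE0 (EH a) r) := by
  unfold coneE0
  fun_prop

theorem p_p2 {EH : α → List (X × X)} (hE : Poly EH) : Poly (fun a => p2 (EH a)) := by
  unfold p2 sym2
  fun_prop

attribute [local fun_prop] p_p2

theorem p_conePN {EH : α → List (X × X)} {r : X} (hE : Poly EH) :
    Poly (fun a => conePN (EH a) r) := by
  unfold conePN
  fun_prop

theorem p_bigE {EH : α → List (X × X)} {r : X} {R : α → List X} {q : α → ℕ} (hE : Poly EH)
    (hR : Poly R) (hq : UPoly q) : Poly (fun a => bigE (EH a) r (R a) (q a)) := by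
  unfold bigE
  exact p_gadE (p_coneE0 hE) (p_conePE hE hR) (p_conePN hE) hq

/-- The vertices of a graph given by its edges. -/
def verts (E : List (X × X)) : List X := (ends E).dedup

/-- Adjacency in a graph given by its edges. -/
def adE (E : List (X × X)) (u w : X) : Bool :=
  decide (u ≠ w) && (decide ((u, w) ∈ E) || decide ((w, u) ∈ E))

/-- The adjacency matrix of a graph given by its edges. -/
def mat (E : List (X × X)) : List (List Bool) :=
  (verts E).map fun u => (verts E).map fun w => adE E u w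

theorem p_mat {E : α → List (X × X)} (hE : Poly E) : Poly (fun a => mat (E a)) := by
  unfold mat adE verts
  fun_prop

end Generic

/-- The instance for a list of formulas. -/
def instM (l : List Fm) : List (List Bool) × List Unit :=
  (mat (bigE (EHl l) (HV.node 1) (Rl l) (KN l + 1)), List.replicate (KN l) ())

theorem p_instM {l : α → List Fm} (hl : Poly l) : Poly (fun a => instM (l a)) := by
  unfold instM
  exact NPC.Poly.pair (p_mat (p_bigE (p_EHl hl) (p_Rl hl) ((u_KN hl).add (UPoly.const 1)))) (u_KN hl)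

end Pool.Agent.EK
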