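import Pool.Agent.H719.EK.Pair
import Pool.Agent.H719.EK.PolyComp
import Pool.Agent.H719.EK.M
import Pool.Agent.H719.EK.GI
import Pool.Agent.H719.EK.CO1
import Pool.Agent.H719.EK.CO2
import Pool.Agent.H719.EK.H1
import Pool.Agent.H719.EK.H2
import Pool.Agent.H719.EK.H3
import Pool.Agent.H719.EK.H4
import Pool.Agent.H671R2.CK.K3
import Pool.Agent.NPC.Sat2

/-!
# `C4`-free edge editing has no polynomial kernel unless `coNP ⊆ NP/poly`
-/

namespace Pool.Agent.EK

open Pool.Agent.NPC Pool.Agent.NPC.R671 Pool.Agent.CK Pool.Agent.H622R2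

theorem p2_ne {X : Type} [DecidableEq X] (EH : List (X × X)) : ∀ p ∈ p2 EH, p.1 ≠ p.2 := by
  intro p hp
  unfold p2 at hp
  simp only [List.mem_flatMap, List.mem_map, List.mem_filter, decide_eq_true_eq] at hp
  obtain ⟨e, -, f, ⟨-, -, h⟩, rfl⟩ := hp
  exact fun h' => h h'.symm

theorem conePE_ne (l : List Fm) : ∀ p ∈ conePE (EHl l) (Rl l), p.1 ≠ p.2 := by
  intro p hp
  unfold conePE at hp
  rw [List.mem_append] at hp
  rcases hp with hp | hp
  · rw [List.mem_map] at hp
    obtain ⟨e, he, rfl⟩ := hp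
    intro h
    exact EHl_ne l e he (Option.some.inj h)
  · rw [List.mem_map] at hp
    obtain ⟨e, he, rfl⟩ := hp
    simp

theorem conePN_ne {X : Type} [DecidableEq X] (EH : List (X × X)) (r : X) :
    ∀ p ∈ conePN EH r, p.1 ≠ p.2 := by
  intro p hp
  unfold conePN at hp
  rw [List.mem_append] at hp
  rcases hp with hp | hp
  · rw [List.mem_map] at hp
    obtain ⟨e, he, rfl⟩ := hp
    intro h
    exact p2_ne EH e he (Option.some.inj h)
  · simp only [List.mem_singleton] at hp
    subst hp
    simp

/-- The gadget graph of a list of formulas has a good editing iff one of the formulas is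
satisfiable. -/
theorem big_iff (l : List Fm) (hne : l ≠ []) (hb : ∀ φ ∈ l, Bdd φ) :
    (∃ G' : SimpleGraph (GV (Option HV)), C4free G' ∧
      (symmDiff (lg (bigE (EHl l) (HV.node 1) (Rl l) (KN l + 1))).edgeSet G'.edgeSet).encard
        ≤ KN l) ↔ ∃ φ ∈ l, Sat φ := by
  unfold bigE
  rw [gad_iff _ _ _ _ (conePE_ne l) (conePN_ne _ _)]
  constructor
  · rintro ⟨B', h4, hPE, hPN, hK⟩
    obtain ⟨S, hS, hgood⟩ := cone_mp _ _ _ _ B' h4 hPE hPN hK
    rw [lg_EHl] at hgood
    exact good_sat l hne hb S hS hgood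
  · rintro ⟨φ, hφ, hs⟩
    obtain ⟨j, hj⟩ := List.mem_iff_getElem?.1 hφ
    obtain ⟨S, hS, hgood⟩ := sat_good l hb j φ hj hs
    refine cone_mpr _ _ _ _ (EHl_ne l) ?_ (Rl_ends l) S hS ?_
    · rw [lg_EHl]
      exact girth l
    · rw [lg_EHl]
      exact hgood

section Inst

variable {X : Type} [DecidableEq X]

theorem adE_symm (E : List (X × X)) (u w : X) : adE E u w = adE E w u := by
  unfold adE
  rw [Bool.or_comm]
  congr 1
  simp [eq_comm]

theorem adE_irrefl (E : List (X × X)) (u : X) : adE E u u = false := by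
  simp [adE]

theorem adE_iff (E : List (X × X)) (u w : X) : adE E u w = true ↔ (lg E).Adj u w := by
  simp [adE, lg]

/-- The graph on `0, ..., m-1` of a list of edges. -/
def grE (E : List (X × X)) : SimpleGraph (Fin (verts E).length) :=
  listGraph (verts E) (adE E) (adE_symm E) (adE_irrefl E)

theorem adjMatrix_grE (E : List (X × X)) : adjMatrix (grE E) = mat E :=
  adjMatrix_listGraph _ _ _ _

theorem mem_verts {E : List (X × X)} {x y : X} (h : (lg E).Adj x y) : x ∈ verts E := by
  unfold verts ends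
  rw [List.mem_dedup, List.mem_flatMap]
  rcases h.2 with h | h
  · exact ⟨_, h, by simp⟩
  · exact ⟨_, h, by simp⟩

theorem grE_iff (E : List (X × X)) (K : ℕ) :
    FreeMod Kind.editing {C4} ⟨(verts E).length, grE E, K⟩ ↔
      ∃ G' : SimpleGraph X, C4free G' ∧ (symmDiff (lg E).edgeSet G'.edgeSet).encard ≤ K := by
  rw [free_C4_iff]
  refine mat_iff (fun i => (verts E)[i]) ?_ (lg E) ?_ (grE E) ?_ K
  · intro i j hij
    exact Fin.ext ((List.Nodup.getElem_inj_iff (List.nodup_dedup _)).1 hij)
  · intro x y h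
    have h1 := mem_verts h
    have h2 := mem_verts h.symm
    obtain ⟨i, hi, hi'⟩ := List.getElem_of_mem h1
    obtain ⟨j, hj, hj'⟩ := List.getElem_of_mem h2
    exact ⟨⟨⟨i, hi⟩, hi'⟩, ⟨⟨j, hj⟩, hj'⟩⟩
  · intro i j
    exact adE_iff E _ _

end Inst

/-- The instance of a list of formulas. -/
noncomputable def instI (l : List Fm) : Inst :=
  ⟨_, grE (bigE (EHl l) (HV.node 1) (Rl l) (KN l + 1)), KN l⟩

theorem instI_code (l : List Fm) : (instI l).code = bits (instM l) := by
  unfold Inst.code instM instI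
  rw [adjMatrix_grE]

theorem instI_iff (l : List Fm) (hne : l ≠ []) (hb : ∀ φ ∈ l, Bdd φ) :
    FreeMod Kind.editing {C4} (instI l) ↔ ∃ φ ∈ l, Sat φ := by
  unfold instI
  rw [grE_iff]
  exact big_iff l hne hb

theorem mxl_le (l : List Fm) (m : ℕ) (h : ∀ φ ∈ l, φ.length ≤ m) : mxl l ≤ m + 1 := by
  have key : ∀ (l : List Fm) (a : ℕ), a ≤ m + 1 → (∀ φ ∈ l, φ.length ≤ m) →
      l.foldl (fun a φ => max a φ.length) a ≤ m + 1 := by
    intro l
    induction l with
    | nil => intro a ha _; simpa using ha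
    | cons φ l ih =>
      intro a ha h
      rw [List.foldl_cons]
      refine ih _ ?_ (fun ψ hψ => h ψ (List.mem_cons_of_mem _ hψ))
      have := h φ (by simp)
      exact max_le ha (by omega)
  exact key l 1 (by omega) h

theorem size_double (t : ℕ) : (2 * t).size ≤ t.size + 1 := by
  rw [Nat.size_le]
  have h := Nat.lt_size_self t
  rw [pow_succ]
  omega

theorem KN_le (l : List Fm) (m : ℕ) (h : ∀ φ ∈ l, φ.length ≤ m) :
    KN l ≤ l.length.size + 23 * (m + 1) := by
  unfold KN
  have h1 := mxl_le l m h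
  have h2 := size_double l.length
  omega

/-- **No polynomial kernel.** -/
theorem C4_hard (h : HasPolyKernel (FreeMod Kind.editing {C4})) : CoNPSubsetNPPoly := by
  obtain ⟨F, g, hF, hker⟩ := h
  intro L hL
  obtain ⟨red, hred, hpr, hL'⟩ := hardPr_SAT3b Lᶜ hL
  have hredP : Poly red := PC.comp (g := red) (f := fun x => x) hred rawOut
  obtain ⟨p, hp⟩ := hredP.sz_le
  let comp : List (List Bool) → List Bool := fun xs => F (bits (instM (xs.map red)))
  have hcomp : Poly comp := by
    have h1 : Poly (fun xs : List (List Bool) => xs.map red) :=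
      NPC.Poly.map (F := fun _ x => red x) NPC.Poly.id (hredP.comp (NPC.Poly.snd NPC.Poly.id))
    exact (poly_of_polyTime hF).comp (poly_bits.comp (p_instM h1))
  have hb : ∀ xs : List (List Bool), ∀ φ ∈ xs.map red, Bdd φ := by
    intro xs φ hφ
    obtain ⟨x, -, rfl⟩ := List.mem_map.1 hφ
    exact (hpr x).2.1
  have key : ∀ xs : List (List Bool), xs ≠ [] → ∃ y : Inst, comp xs = y.code ∧
      (FreeMod Kind.editing {C4} y ↔ ∃ x ∈ xs, x ∉ L) ∧ y.size ≤ g.eval (KN (xs.map red)) := by
    intro xs hne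
    obtain ⟨y, h1, h2, h3⟩ := hker (instI (xs.map red))
    refine ⟨y, ?_, ?_, h3⟩
    · simp only [comp]
      rw [← instI_code, h1]
    · rw [← h2, instI_iff _ (by simpa using hne) (hb xs)]
      constructor
      · rintro ⟨φ, hφ, hs⟩
        obtain ⟨x, hx, rfl⟩ := List.mem_map.1 hφ
        exact ⟨x, hx, (hL' x).2 hs⟩
      · rintro ⟨x, hx, hxL⟩
        exact ⟨red x, List.mem_map_of_mem hx, (hL' x).1 hxL⟩
  refine fs L comp hcomp (fun w => ∃ y : Inst, w = y.code ∧ FreeMod Kind.editing {C4} y)
    (Polynomial.C 4 * g.comp (Polynomial.X + Polynomial.C 23 *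
      (p.comp (Polynomial.C 4 * Polynomial.X + 1) + 1)) + 1) ?_ ?_
  · intro n xs hne hn
    obtain ⟨y, h1, -, h3⟩ := key xs hne
    have hlen : ∀ φ ∈ xs.map red, φ.length ≤ p.eval (4 * n + 1) := by
      intro φ hφ
      obtain ⟨x, hx, rfl⟩ := List.mem_map.1 hφ
      have e1 := length_lt_sz (red x)
      have e2 := hp x
      have e3 := sz_listBool_le x
      rw [hn x hx] at e3
      have e4 := eval_mono p e3
      omega
    have h4 := KN_le (xs.map red) _ hlen
    rw [List.length_map] at h4
    have h5 := sz_listBool_le (comp xs)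
    rw [h1] at h5
    have h6 : y.code.length ≤ g.eval (KN (xs.map red)) := h3
    have h7 : p.eval (4 * n + 1) ≤ p.eval (4 * (n + xs.length.size) + 1) :=
      eval_mono p (by omega)
    have h8 : g.eval (KN (xs.map red)) ≤ g.eval (n + xs.length.size +
        23 * (p.eval (4 * (n + xs.length.size) + 1) + 1)) := eval_mono g (by omega)
    rw [h1]
    simp only [Polynomial.eval_add, Polynomial.eval_comp, Polynomial.eval_mul, Polynomial.eval_C,
      Polynomial.eval_X, Polynomial.eval_one]
    omega
  · intro n xs hne _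
    obtain ⟨y, h1, h2, -⟩ := key xs hne
    constructor
    · rintro ⟨y', hy', hf⟩
      -- the code determines the instance
      have hyy : y' = y := by
        rw [h1] at hy'
        obtain ⟨n1, G1, k1⟩ := y
        obtain ⟨n2, G2, k2⟩ := y'
        have e := bits_injective hy'
        rw [Prod.mk.injEq] at e
        obtain ⟨e1, e2⟩ := e
        have e3 : n1 = n2 := by
          have := congrArg List.length e1
          simpa [adj_length] using this
        subst e3
        have e4 : G1 = G2 := adjMatrix_inj e1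
        subst e4
        have e5 : k1 = k2 := by
          have := congrArg List.length e2
          simpa using this
        subst e5
        rfl
      subst hyy
      exact h2.1 hf
    · intro hx
      exact ⟨y, h1, h2.2 hx⟩

end Pool.Agent.EK
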