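import Pool.Agent.H719.EK.PDefs
import Pool.Agent.H671R2.PolyAuto
import Pool.Agent.R544.Util2

/-!
# The decision procedure runs in polynomial time
-/

namespace Pool.Agent.EK

open Pool.Agent.NPC Pool.Agent.R544

variable {α : Type} [TEnc α]

theorem p_getD {β : Type} [TEnc β] {l : α → List β} {n : α → ℕ} {d : β} (hl : Poly l) (hn : Poly n) :
    Poly (fun a => (l a).getD (n a) d) := by
  have h := NPC.Poly.optGetD (NPC.Poly.getElem? hl hn) (NPC.Poly.const (α := α) d)
  exact h.congr fun a => by simp [List.getD_eq_getElem?_getD]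

theorem p_ent {A : α → List (List Bool)} {i j : α → ℕ} (hA : Poly A) (hi : Poly i) (hj : Poly j) :
    Poly (fun a => ent (A a) (i a) (j a)) := by
  unfold ent
  exact p_getD (p_getD hA hi) hj

theorem p_rangeLen {β : Type} [TEnc β] {l : α → List β} (hl : Poly l) :
    Poly (fun a => List.range (l a).length) := (UPoly.length hl).range

theorem p_cycP {s : α → List ℕ} (hs : Poly s) : Poly (fun a => cycP (s a)) := by
  unfold cycP
  have h1 : Poly (fun a => (s a).take 1) := by
    refine (NPC.Poly.listCases (l := s) (g := fun _ => []) (h := fun _ b _ => [b]) hs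
      (NPC.Poly.const _) (by fun_prop)).congr fun a => ?_
    cases s a <;> simp
  fun_prop

attribute [local fun_prop] p_ent p_rangeLen p_cycP

theorem p_yy {s : α → List ℕ} {u v : α → ℕ} (hs : Poly s) (hu : Poly u) (hv : Poly v) :
    Poly (fun a => yy (s a) (u a) (v a)) := by
  unfold yy
  fun_prop

theorem p_inS {s : α → List ℕ} {v : α → ℕ} (hs : Poly s) (hv : Poly v) :
    Poly (fun a => inS (s a) (v a)) := by
  unfold inS
  fun_prop

attribute [local fun_prop] p_yy p_inS

theorem p_scL {A : α → List (List Bool)} {s : α → List ℕ} {v : α → ℕ} (hA : Poly A) (hs : Poly s)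
    (hv : Poly v) : Poly (fun a => scL (A a) (s a) (v a)) := by
  unfold scL
  fun_prop

attribute [local fun_prop] p_scL

theorem p_ky {A : α → List (List Bool)} {s : α → List ℕ} {v : α → ℕ} (hA : Poly A) (hs : Poly s)
    (hv : Poly v) : Poly (fun a => ky (A a) (s a) (v a)) := by
  unfold ky
  fun_prop

attribute [local fun_prop] p_ky

theorem p_rkL {A : α → List (List Bool)} {s : α → List ℕ} {v : α → ℕ} (hA : Poly A) (hs : Poly s)
    (hv : Poly v) : Poly (fun a => rkL (A a) (s a) (v a)) := by
  unfold rkL
  fun_prop

attribute [local fun_prop] p_rkL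

theorem p_inC {A : α → List (List Bool)} {s : α → List ℕ} {v : α → ℕ} (hA : Poly A) (hs : Poly s)
    (hv : Poly v) : Poly (fun a => inC (A a) (s a) (v a)) := by
  unfold inC
  fun_prop

attribute [local fun_prop] p_inC

theorem p_bne {x y : α → Bool} (hx : Poly x) (hy : Poly y) : Poly (fun a => (x a != y a)) :=
  (NPC.Poly.xor hx hy).congr fun a => by cases x a <;> cases y a <;> rfl

attribute [local fun_prop] p_bne

theorem p_costL {A : α → List (List Bool)} {s : α → List ℕ} (hA : Poly A) (hs : Poly s) :
    Poly (fun a => costL (A a) (s a)) := by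
  unfold costL mism
  fun_prop

attribute [local fun_prop] p_costL

theorem p_fives {A : α → List (List Bool)} (hA : Poly A) :
    Poly (fun a => fives (A a).length) := by
  unfold fives
  fun_prop

attribute [local fun_prop] p_fives

theorem p_acc : Poly acc := by
  unfold acc
  fun_prop

end Pool.Agent.EK
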