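import Pool.Agent.H719.EK.Defs
import Pool.Agent.H719.EK.AC1
import Pool.Agent.H719.EK.AC2
import Pool.Agent.H719.EK.F4
import Pool.Agent.H719.EK.PolyAcc
import Pool.Agent.H622R2.CoNP
import Pool.Agent.H671R2.Search

/-!
# The polynomial kernel for the two forbidden graphs
-/

namespace Pool.Agent.EK

open Pool.Agent.NPC Pool.Agent.NPC.R671 Pool.Agent.CK Pool.Agent.H622R2

theorem adj_length {n : ℕ} (G : SimpleGraph (Fin n)) : (adjMatrix G).length = n := by
  simp [adjMatrix]

theorem adj_ent {n : ℕ} (G : SimpleGraph (Fin n)) (i j : Fin n) :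
    ent (adjMatrix G) i j = true ↔ G.Adj i j := by
  simp [ent, adjMatrix, List.getD_eq_getElem?_getD]

theorem adj_ent0 {n : ℕ} (G : SimpleGraph (Fin n)) (i j : ℕ) (h : n ≤ i ∨ n ≤ j) :
    ent (adjMatrix G) i j = false := by
  unfold ent adjMatrix
  simp only [List.getD_eq_getElem?_getD, List.getElem?_ofFn]
  by_cases hi : i < n
  · have hj : ¬ j < n := by omega
    simp [hi, hj]
  · simp [hi]

/-- The edge editing problem with the two forbidden graphs, in terms of four-vertex conditions. -/
theorem free_pair_iff (x : Inst) : FreeMod Kind.editing {C4, TwoK2} x ↔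
    ∃ G' : SimpleGraph (Fin x.n), C4free G' ∧ TKfree G' ∧
      (symmDiff x.G.edgeSet G'.edgeSet).ncard ≤ x.k := by
  unfold FreeMod
  constructor
  · rintro ⟨G', -, h1, h2⟩
    exact ⟨G', (c4free_iff G').1 (h2 C4 (by simp)), (tkfree_iff G').1 (h2 TwoK2 (by simp)), h1⟩
  · rintro ⟨G', h1, h2, h3⟩
    refine ⟨G', trivial, h3, ?_⟩
    intro H hH
    rcases hH with hH | hH
    · subst hH
      exact (c4free_iff G').2 h1
    · subst hH
      exact (tkfree_iff G').2 h2

theorem free_C4_iff (x : Inst) : FreeMod Kind.editing {C4} x ↔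
    ∃ G' : SimpleGraph (Fin x.n), C4free G' ∧ (symmDiff x.G.edgeSet G'.edgeSet).ncard ≤ x.k := by
  unfold FreeMod
  constructor
  · rintro ⟨G', -, h1, h2⟩
    exact ⟨G', (c4free_iff G').1 (h2 C4 (by simp)), h1⟩
  · rintro ⟨G', h1, h3⟩
    refine ⟨G', trivial, h3, ?_⟩
    rintro H rfl
    exact (c4free_iff G').2 h1

theorem free_TwoK2_iff (x : Inst) : FreeMod Kind.editing {TwoK2} x ↔
    ∃ G' : SimpleGraph (Fin x.n), TKfree G' ∧ (symmDiff x.G.edgeSet G'.edgeSet).ncard ≤ x.k := by
  unfold FreeMod
  constructor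
  · rintro ⟨G', -, h1, h2⟩
    exact ⟨G', (tkfree_iff G').1 (h2 TwoK2 (by simp)), h1⟩
  · rintro ⟨G', h1, h3⟩
    refine ⟨G', trivial, h3, ?_⟩
    rintro H rfl
    exact (tkfree_iff G').2 h1

theorem acc_iff (x : Inst) : acc (adjMatrix x.G, List.replicate x.k ()) = true ↔
    FreeMod Kind.editing {C4, TwoK2} x := by
  rw [free_pair_iff]
  constructor
  · intro h
    exact acc_sound x.G _ (adj_length _) (adj_ent _) (adj_ent0 _) x.k h
  · rintro ⟨G', h1, h2, h3⟩
    exact acc_complete x.G _ (adj_length _) (adj_ent _) (adj_ent0 _) x.k G' h1 h2 h3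

/-- A yes-instance. -/
noncomputable def yesI : Inst := ⟨0, ⊥, 0⟩

/-- A no-instance. -/
noncomputable def noI : Inst := ⟨4, SimpleGraph.cycleGraph 4, 0⟩

theorem yesI_yes : FreeMod Kind.editing {C4, TwoK2} yesI := by
  rw [free_pair_iff]
  refine ⟨⊥, ?_, ?_, ?_⟩
  · intro a
    exact a.elim0
  · intro a
    exact a.elim0
  · have h : symmDiff yesI.G.edgeSet (⊥ : SimpleGraph (Fin yesI.n)).edgeSet = ∅ := by
      have : yesI.G = ⊥ := rfl
      rw [this]
      simp
    rw [h]
    simp

theorem noI_no : ¬ FreeMod Kind.editing {C4, TwoK2} noI := by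
  rintro ⟨G', -, h1, h2⟩
  have h3 : symmDiff noI.G.edgeSet G'.edgeSet = ∅ := by
    have h4 : (symmDiff noI.G.edgeSet G'.edgeSet).ncard = 0 := Nat.le_zero.1 h1
    exact (Set.ncard_eq_zero (Set.toFinite _)).1 h4
  have h5 : noI.G = G' := by
    apply SimpleGraph.edgeSet_injective
    exact symmDiff_eq_bot.1 h3
  have h6 := h2 C4 (by simp)
  apply h6
  rw [← h5]
  exact SimpleGraph.IsIndContained.refl _

/-- **The `{C4, 2 K2}`-free edge editing problem has a polynomial (even constant size) kernel.** -/
theorem pair_kernel : HasPolyKernel (FreeMod Kind.editing {C4, TwoK2}) := by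
  let g : List Bool → List Bool := fun x =>
    match unbits (List (List Bool) × List Unit) x with
    | none => []
    | some y => bif acc y then yesI.code else noI.code
  have hg : Poly g := by
    have h2 := Poly.optCases (o := fun x => unbits (List (List Bool) × List Unit) x)
      (g := fun _ => ([] : List Bool)) (h := fun _ y => bif acc y then yesI.code else noI.code)
      poly_unbits (NPC.Poly.const _)
      (NPC.Poly.cond (p_acc.comp (NPC.Poly.snd NPC.Poly.id)) (NPC.Poly.const _)
      (NPC.Poly.const _))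
    refine h2.congr fun x => ?_
    simp only [g]
    cases unbits (List (List Bool) × List Unit) x <;> rfl
  refine ⟨g, Polynomial.C (yesI.size + noI.size), polyTime_of_poly_list hg, fun x => ?_⟩
  have h1 : g x.code = bif acc (adjMatrix x.G, List.replicate x.k ()) then yesI.code
      else noI.code := by
    simp only [g, Inst.code, unbits_bits]
  cases h : acc (adjMatrix x.G, List.replicate x.k ()) with
  | true =>
    refine ⟨yesI, by rw [h1, h]; rfl, ?_, ?_⟩
    · exact ⟨fun _ => yesI_yes, fun _ => (acc_iff x).1 h⟩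
    · simp
  | false =>
    refine ⟨noI, by rw [h1, h]; rfl, ?_, ?_⟩
    · constructor
      · intro hx
        have := (acc_iff x).2 hx
        rw [h] at this
        exact absurd this (by simp)
      · intro hn
        exact absurd hn noI_no
    · simp

end Pool.Agent.EK
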